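import Mathlib

/-!
Deviations of the number of elements of a set in the windows `(m, m + c (log m)^λ]`: definitions.
-/

namespace Pool.Agent.LibH

open scoped Classical in
/-- the number of elements of `B` in the window `(m, m + h]` -/
noncomputable def cnt (B : Set ℕ) (m h : ℕ) : ℕ :=
  ((Finset.Ioc m (m + h)).filter (fun n => n ∈ B)).card

/-- the length of the window at `m`, `⌊c (log m)^λ⌋` -/
noncomputable def hl (lam c : ℝ) (m : ℕ) : ℕ := ⌊c * Real.log m ^ lam⌋₊

/-- the mean `c (log m)^(λ-1)` -/
noncomputable def mean (lam c : ℝ) (m : ℕ) : ℝ := c * Real.log m ^ (lam - 1)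

/-- the deviation `mean^(1-t) (log log m)^A` -/
noncomputable def dev (lam c t A : ℝ) (m : ℕ) : ℝ :=
  mean lam c m ^ (1 - t) * Real.log (Real.log m) ^ A

open scoped Classical in
/-- the number of the `m ∈ [3, X]` for which the number of elements of `B` in the window
`(m, m + c (log m)^λ]` exceeds the mean by at least the deviation (`s = 1`), respectively falls
short of it by at least the deviation (`s = -1`) -/
noncomputable def devCount (B : Set ℕ) (lam c t A s : ℝ) (X : ℕ) : ℕ :=
  ((Finset.Icc 3 X).filter (fun m =>
    dev lam c t A m ≤ s * ((cnt B m (hl lam c m) : ℝ) - mean lam c m))).card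

end Pool.Agent.LibH
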