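import Pool.Agent.LibCramer.RunModel
import Pool.Agent.LibH.Dev

/-!
Deviations of the number of points of a window of Cramér's length for a random set with independent
points: Chernoff bounds and the almost sure upper bound for the number of windows.
-/

namespace Pool.Agent.LibH

open Filter Topology MeasureTheory ProbabilityTheory
open Pool.Agent.LibCramer (ind measurable_ind mgf_ind)
open scoped ENNReal NNReal

variable {Ω : Type*} [MeasurableSpace Ω] {μ : Measure Ω}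

/-! ### Chernoff bounds -/

lemma measurable_sum_ind {E : ℕ → Set Ω} (hE : ∀ n, MeasurableSet (E n)) (S : Finset ℕ) :
    Measurable (∑ j ∈ S, ind E j) := by
  have : (∑ j ∈ S, ind E j) = fun ω => ∑ j ∈ S, ind E j ω := by
    funext ω
    rw [Finset.sum_apply]
  rw [this]
  exact Finset.measurable_sum _ fun j _ => measurable_ind hE j

omit [MeasurableSpace Ω] in
lemma sum_ind_mem (E : ℕ → Set Ω) (S : Finset ℕ) (ω : Ω) :
    0 ≤ (∑ j ∈ S, ind E j) ω ∧ (∑ j ∈ S, ind E j) ω ≤ S.card := by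
  have hbd : ∀ j, ind E j ω = 0 ∨ ind E j ω = 1 := by
    intro j
    unfold ind
    by_cases h : ω ∈ E j
    · simp [h]
    · simp [h]
  rw [Finset.sum_apply]
  constructor
  · apply Finset.sum_nonneg
    intro j _
    rcases hbd j with h | h <;> simp [h]
  · calc ∑ j ∈ S, ind E j ω ≤ ∑ _j ∈ S, (1 : ℝ) := by
          apply Finset.sum_le_sum
          intro j _
          rcases hbd j with h | h <;> simp [h]
      _ = S.card := by simp

lemma integrable_exp_ind [IsProbabilityMeasure μ] {E : ℕ → Set Ω} (hE : ∀ n, MeasurableSet (E n))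
    (S : Finset ℕ) (s : ℝ) : Integrable (fun ω => Real.exp (s * (∑ j ∈ S, ind E j) ω)) μ := by
  apply Integrable.of_bound (C := Real.exp (|s| * S.card))
  · apply Measurable.aestronglyMeasurable
    exact Real.measurable_exp.comp ((measurable_sum_ind hE S).const_mul s)
  · filter_upwards with ω
    rw [Real.norm_eq_abs, abs_of_pos (Real.exp_pos _)]
    apply Real.exp_le_exp.2
    obtain ⟨h1, h2⟩ := sum_ind_mem E S ω
    calc s * (∑ j ∈ S, ind E j) ω ≤ |s| * (∑ j ∈ S, ind E j) ω := by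
          gcongr
          exact le_abs_self s
      _ ≤ |s| * S.card := by gcongr

lemma mgf_sum_le [IsProbabilityMeasure μ] {E : ℕ → Set Ω} (hE : ∀ n, MeasurableSet (E n))
    (hind : iIndepSet E μ) (S : Finset ℕ) (s : ℝ) :
    mgf (∑ j ∈ S, ind E j) μ s ≤ Real.exp ((Real.exp s - 1) * ∑ j ∈ S, μ.real (E j)) := by
  have hf : iIndepFun (ind E) μ := hind.iIndepFun_indicator
  rw [hf.mgf_sum (measurable_ind hE), Finset.mul_sum, Real.exp_sum]
  apply Finset.prod_le_prod
  · intro j _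
    exact mgf_nonneg
  · intro j _
    rw [mgf_ind hE]
    have := Real.add_one_le_exp ((Real.exp s - 1) * μ.real (E j))
    linarith

/-- upper tail -/
lemma chern_up [IsProbabilityMeasure μ] {E : ℕ → Set Ω} (hE : ∀ n, MeasurableSet (E n))
    (hind : iIndepSet E μ) (S : Finset ℕ) {s : ℝ} (hs : 0 ≤ s) (a : ℝ) :
    μ.real {ω | a ≤ (∑ j ∈ S, ind E j) ω} ≤
      Real.exp (-s * a + (Real.exp s - 1) * ∑ j ∈ S, μ.real (E j)) := by
  refine (measure_ge_le_exp_mul_mgf a hs (integrable_exp_ind hE S s)).trans ?_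
  rw [Real.exp_add]
  exact mul_le_mul_of_nonneg_left (mgf_sum_le hE hind S s) (Real.exp_pos _).le

/-- lower tail -/
lemma chern_low [IsProbabilityMeasure μ] {E : ℕ → Set Ω} (hE : ∀ n, MeasurableSet (E n))
    (hind : iIndepSet E μ) (S : Finset ℕ) {s : ℝ} (hs : 0 ≤ s) (a : ℝ) :
    μ.real {ω | (∑ j ∈ S, ind E j) ω ≤ a} ≤
      Real.exp (s * a + (Real.exp (-s) - 1) * ∑ j ∈ S, μ.real (E j)) := by
  refine (measure_le_le_exp_mul_mgf a (neg_nonpos.2 hs) (integrable_exp_ind hE S (-s))).trans ?_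
  rw [neg_neg, Real.exp_add]
  exact mul_le_mul_of_nonneg_left (mgf_sum_le hE hind S (-s)) (Real.exp_pos _).le

/-! ### the Gaussian range -/

lemma exp_third {s : ℝ} (h1 : |s| ≤ 1) : Real.exp s ≤ 1 + s + s ^ 2 / 2 + 2 / 9 * |s| ^ 3 := by
  have h := Real.exp_bound h1 (n := 3) (by norm_num)
  have h2 := (abs_le.1 h).2
  simp only [Finset.sum_range_succ, Finset.sum_range_zero, Nat.factorial] at h2
  norm_num at h2
  linarith

lemma expo_up {M D S ε : ℝ} (hM : 0 < M) (hD : 0 < D) (hε : 0 < ε) (hε1 : ε ≤ 1 / 8)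
    (hS : S ≤ M + ε * D) (hDM : D ≤ ε * M) :
    -(D / M) * (M + D) + (Real.exp (D / M) - 1) * S ≤ -(1 - 4 * ε) * (D ^ 2 / (2 * M)) := by
  obtain ⟨s, hs⟩ : ∃ s, s = D / M := ⟨_, rfl⟩
  have hDs : D = s * M := by rw [hs]; field_simp
  have hs0 : 0 < s := by rw [hs]; positivity
  have hsε : s ≤ ε := by rw [hs, div_le_iff₀ hM]; exact hDM
  rw [← hs]
  have he := exp_third (s := s) (by rw [abs_of_pos hs0]; linarith)
  rw [abs_of_pos hs0] at he
  have he1 : 0 ≤ Real.exp s - 1 := by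
    have := Real.add_one_le_exp s
    linarith
  have h1 : (Real.exp s - 1) * S ≤ (s + s ^ 2 / 2 + 2 / 9 * s ^ 3) * (M + ε * D) := by
    calc (Real.exp s - 1) * S ≤ (Real.exp s - 1) * (M + ε * D) := by gcongr
      _ ≤ (s + s ^ 2 / 2 + 2 / 9 * s ^ 3) * (M + ε * D) := by
          gcongr
          linarith
  refine (add_le_add_right h1 _).trans ?_
  rw [hDs]
  have e1 : (s * M) ^ 2 / (2 * M) = M * s ^ 2 / 2 := by field_simp
  rw [e1]
  have h2 : -s * (M + s * M) + (s + s ^ 2 / 2 + 2 / 9 * s ^ 3) * (M + ε * (s * M)) =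
      M * s ^ 2 * (-1 + 1 / 2 + ε + ε * s / 2 + 2 / 9 * s + 2 / 9 * ε * s ^ 2) := by ring
  rw [h2]
  have h3 : -1 + 1 / 2 + ε + ε * s / 2 + 2 / 9 * s + 2 / 9 * ε * s ^ 2 ≤ -(1 - 4 * ε) / 2 := by
    nlinarith
  have h4 : 0 ≤ M * s ^ 2 := by positivity
  calc M * s ^ 2 * (-1 + 1 / 2 + ε + ε * s / 2 + 2 / 9 * s + 2 / 9 * ε * s ^ 2)
      ≤ M * s ^ 2 * (-(1 - 4 * ε) / 2) := by gcongr
    _ = _ := by ring

lemma expo_low {M D S ε : ℝ} (hM : 0 < M) (hD : 0 < D) (hε : 0 < ε) (hε1 : ε ≤ 1 / 8)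
    (hS : M - ε * D ≤ S) (hDM : D ≤ ε * M) :
    D / M * (M - D) + (Real.exp (-(D / M)) - 1) * S ≤ -(1 - 4 * ε) * (D ^ 2 / (2 * M)) := by
  obtain ⟨s, hs⟩ : ∃ s, s = D / M := ⟨_, rfl⟩
  have hDs : D = s * M := by rw [hs]; field_simp
  have hs0 : 0 < s := by rw [hs]; positivity
  have hsε : s ≤ ε := by rw [hs, div_le_iff₀ hM]; exact hDM
  rw [← hs]
  have he := exp_third (s := -s) (by rw [abs_neg, abs_of_pos hs0]; linarith)
  rw [abs_neg, abs_of_pos hs0] at he
  have hneg : -s + s ^ 2 / 2 + 2 / 9 * s ^ 3 ≤ 0 := by nlinarith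
  have hS0 : 0 ≤ M - ε * D := by nlinarith
  have he' : Real.exp (-s) - 1 ≤ -s + s ^ 2 / 2 + 2 / 9 * s ^ 3 := by nlinarith
  have h1 : (Real.exp (-s) - 1) * S ≤ (-s + s ^ 2 / 2 + 2 / 9 * s ^ 3) * (M - ε * D) := by
    calc (Real.exp (-s) - 1) * S ≤ (-s + s ^ 2 / 2 + 2 / 9 * s ^ 3) * S := by
          apply mul_le_mul_of_nonneg_right he' (hS0.trans hS)
      _ ≤ (-s + s ^ 2 / 2 + 2 / 9 * s ^ 3) * (M - ε * D) := by
          apply mul_le_mul_of_nonpos_left hS hneg
  refine (add_le_add_right h1 _).trans ?_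
  rw [hDs]
  have e1 : (s * M) ^ 2 / (2 * M) = M * s ^ 2 / 2 := by field_simp
  rw [e1]
  have h2 : s * (M - s * M) + (-s + s ^ 2 / 2 + 2 / 9 * s ^ 3) * (M - ε * (s * M)) =
      M * s ^ 2 * (-1 + 1 / 2 + ε - ε * s / 2 + 2 / 9 * s - 2 / 9 * ε * s ^ 2) := by ring
  rw [h2]
  have h3 : -1 + 1 / 2 + ε - ε * s / 2 + 2 / 9 * s - 2 / 9 * ε * s ^ 2 ≤ -(1 - 4 * ε) / 2 := by
    have : 0 ≤ ε * s := by positivity
    have : 0 ≤ ε * s ^ 2 := by positivity
    nlinarith
  have h4 : 0 ≤ M * s ^ 2 := by positivity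
  calc M * s ^ 2 * (-1 + 1 / 2 + ε - ε * s / 2 + 2 / 9 * s - 2 / 9 * ε * s ^ 2)
      ≤ M * s ^ 2 * (-(1 - 4 * ε) / 2) := by gcongr
    _ = _ := by ring

/-- Chernoff in the Gaussian range, upper tail -/
lemma prob_up_le [IsProbabilityMeasure μ] {E : ℕ → Set Ω} (hE : ∀ n, MeasurableSet (E n))
    (hind : iIndepSet E μ) (S : Finset ℕ) {M D ε : ℝ} (hM : 0 < M) (hD : 0 < D) (hε : 0 < ε)
    (hε1 : ε ≤ 1 / 8) (hS : |∑ j ∈ S, μ.real (E j) - M| ≤ ε * D) (hDM : D ≤ ε * M) :
    μ.real {ω | M + D ≤ (∑ j ∈ S, ind E j) ω} ≤ Real.exp (-(1 - 4 * ε) * (D ^ 2 / (2 * M))) := by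
  refine (chern_up hE hind S (s := D / M) (by positivity) (M + D)).trans ?_
  apply Real.exp_le_exp.2
  have := (abs_le.1 hS).2
  exact expo_up hM hD hε hε1 (by linarith) hDM

/-- Chernoff in the Gaussian range, lower tail -/
lemma prob_low_le [IsProbabilityMeasure μ] {E : ℕ → Set Ω} (hE : ∀ n, MeasurableSet (E n))
    (hind : iIndepSet E μ) (S : Finset ℕ) {M D ε : ℝ} (hM : 0 < M) (hD : 0 < D) (hε : 0 < ε)
    (hε1 : ε ≤ 1 / 8) (hS : |∑ j ∈ S, μ.real (E j) - M| ≤ ε * D) (hDM : D ≤ ε * M) :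
    μ.real {ω | (∑ j ∈ S, ind E j) ω ≤ M - D} ≤ Real.exp (-(1 - 4 * ε) * (D ^ 2 / (2 * M))) := by
  refine (chern_low hE hind S (s := D / M) (by positivity) (M - D)).trans ?_
  apply Real.exp_le_exp.2
  have := (abs_le.1 hS).1
  exact expo_low hM hD hε hε1 (by linarith) hDM

/-! ### Borel–Cantelli with weights -/

lemma summable_inv_mul_log_sq : Summable fun m : ℕ => 1 / ((m : ℝ) * Real.log (m + 2) ^ 2) := by
  have hl2 : 0 < Real.log 2 := Real.log_pos (by norm_num)
  have hmono : ∀ ⦃m n : ℕ⦄, 0 < m → m ≤ n →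
      1 / ((n : ℝ) * Real.log (n + 2) ^ 2) ≤ 1 / ((m : ℝ) * Real.log (m + 2) ^ 2) := by
    intro m n hm hmn
    have h1 : (1 : ℝ) ≤ m := by exact_mod_cast hm
    have h2 : (m : ℝ) ≤ n := by exact_mod_cast hmn
    have h3 : 0 < Real.log ((m : ℝ) + 2) := Real.log_pos (by linarith)
    have h4 : Real.log ((m : ℝ) + 2) ≤ Real.log ((n : ℝ) + 2) :=
      Real.log_le_log (by linarith) (by linarith)
    apply one_div_le_one_div_of_le (by positivity)
    gcongr
  rw [← summable_condensed_iff_of_nonneg (fun m => by positivity) hmono]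
  have h1 : Summable fun k : ℕ => (4 / Real.log 2 ^ 2) * (1 / ((k : ℝ) + 1) ^ 2) := by
    have h := (summable_nat_add_iff 1).2 (Real.summable_one_div_nat_pow.2 (by norm_num : 1 < 2))
    refine (h.mul_left (4 / Real.log 2 ^ 2)).congr fun k => ?_
    push_cast
    ring
  refine Summable.of_nonneg_of_le (fun k => by positivity) (fun k => ?_) h1
  have h2 : (0 : ℝ) < 2 ^ k := by positivity
  have h5 : Real.log 2 * ((k : ℝ) + 1) / 2 ≤ Real.log (((2 ^ k : ℕ) : ℝ) + 2) := by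
    push_cast
    rcases Nat.eq_zero_or_pos k with rfl | hk
    · have h8 : Real.log 2 ≤ Real.log 3 := Real.log_le_log (by norm_num) (by norm_num)
      norm_num
      linarith
    · have h6 : Real.log ((2 : ℝ) ^ k) ≤ Real.log ((2 : ℝ) ^ k + 2) :=
        Real.log_le_log h2 (by linarith)
      rw [Real.log_pow] at h6
      have h7 : (1 : ℝ) ≤ k := by exact_mod_cast hk
      nlinarith
  have h6 : 0 < Real.log 2 * ((k : ℝ) + 1) / 2 := by positivity
  have h7 : (Real.log 2 * ((k : ℝ) + 1) / 2) ^ 2 ≤ Real.log (((2 ^ k : ℕ) : ℝ) + 2) ^ 2 := by gcongr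
  calc (2 : ℝ) ^ k * (1 / (((2 ^ k : ℕ) : ℝ) * Real.log (((2 ^ k : ℕ) : ℝ) + 2) ^ 2))
      = 1 / Real.log (((2 ^ k : ℕ) : ℝ) + 2) ^ 2 := by
        push_cast
        field_simp
    _ ≤ 1 / (Real.log 2 * ((k : ℝ) + 1) / 2) ^ 2 := one_div_le_one_div_of_le (by positivity) h7
    _ = (4 / Real.log 2 ^ 2) * (1 / ((k : ℝ) + 1) ^ 2) := by
        field_simp
        ring

/-- Borel–Cantelli with weights: if `P(Bad m) ≤ exp (-κ g(m))`, the number of the `m ≤ X` for
which `Bad m` occurs is at most `X exp (-κ'' g(X))` for all large `X`. -/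
theorem ae_count_le [IsProbabilityMeasure μ] {Bad : ℕ → Set Ω} (hBad : ∀ m, MeasurableSet (Bad m))
    {g : ℕ → ℝ} {κ κ' κ'' : ℝ} (h1 : κ'' < κ') (h2 : κ' < κ)
    (hP : ∀ᶠ m : ℕ in atTop, μ.real (Bad m) ≤ Real.exp (-κ * g m))
    (hbig : ∀ K : ℝ, ∀ᶠ m : ℕ in atTop, K * Real.log (Real.log (m : ℝ)) ≤ g m)
    (hsmall : ∀ K : ℝ, ∀ᶠ m : ℕ in atTop, K * g m ≤ Real.log (m : ℝ))
    (hmono : ∃ m0 : ℕ, ∀ m n : ℕ, m0 ≤ m → m ≤ n →
      Real.log (m : ℝ) - κ' * g m ≤ Real.log (n : ℝ) - κ' * g n) :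
    ∀ᵐ ω ∂μ, ∀ᶠ X : ℕ in atTop, ({m : ℕ | 1 ≤ m ∧ m ≤ X ∧ ω ∈ Bad m}.ncard : ℝ) ≤
      X * Real.exp (-κ'' * g X) := by
  classical
  have hL : Tendsto (fun m : ℕ => Real.log (m : ℝ)) atTop atTop :=
    Real.tendsto_log_atTop.comp tendsto_natCast_atTop_atTop
  have hLL : Tendsto (fun m : ℕ => Real.log (Real.log (m : ℝ))) atTop atTop :=
    Real.tendsto_log_atTop.comp hL
  have hgT : Tendsto g atTop atTop := by
    refine tendsto_atTop_mono' _ (hbig 1) ?_
    simpa using hLL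
  obtain ⟨w, hw⟩ : ∃ w : ℕ → ℝ, w = fun m : ℕ => Real.exp (-(Real.log (m : ℝ) - κ' * g m)) := ⟨_, rfl⟩
  have hw0 : ∀ m, 0 < w m := fun m => by rw [hw]; exact Real.exp_pos _
  -- summability of the expectations
  have hsum : Summable fun m : ℕ => w m * μ.real (Bad m) := by
    refine summable_of_isBigO_nat summable_inv_mul_log_sq ?_
    apply Asymptotics.IsBigO.of_bound 4
    filter_upwards [hP, hbig (2 / (κ - κ')), eventually_ge_atTop 2, hL.eventually_ge_atTop 1]
      with m hm hm2 hm3 hm4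
    have hm0 : (2 : ℝ) ≤ m := by exact_mod_cast hm3
    have hl2 : 0 < Real.log ((m : ℝ) + 2) := Real.log_pos (by linarith)
    rw [Real.norm_eq_abs, abs_of_nonneg (mul_nonneg (hw0 m).le measureReal_nonneg),
      Real.norm_eq_abs, abs_of_nonneg (by positivity)]
    have h3 : 2 * Real.log (Real.log (m : ℝ)) ≤ (κ - κ') * g m := by
      have h4 : 0 < κ - κ' := by linarith
      have := mul_le_mul_of_nonneg_left hm2 h4.le
      calc 2 * Real.log (Real.log (m : ℝ)) = (κ - κ') * (2 / (κ - κ') * Real.log (Real.log (m : ℝ))) := by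
            field_simp
        _ ≤ _ := this
    have h5 : Real.log ((m : ℝ) + 2) ≤ 2 * Real.log (m : ℝ) := by
      have : Real.log ((m : ℝ) + 2) ≤ Real.log ((m : ℝ) ^ 2) :=
        Real.log_le_log (by linarith) (by nlinarith)
      rw [Real.log_pow] at this
      exact_mod_cast this
    calc w m * μ.real (Bad m) ≤ w m * Real.exp (-κ * g m) :=
          mul_le_mul_of_nonneg_left hm (hw0 m).le
      _ = Real.exp (-Real.log (m : ℝ) + -((κ - κ') * g m)) := by
          rw [hw, ← Real.exp_add]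
          congr 1
          ring
      _ ≤ Real.exp (-Real.log (m : ℝ) + -(2 * Real.log (Real.log (m : ℝ)))) := by
          apply Real.exp_le_exp.2
          linarith
      _ = 1 / ((m : ℝ) * Real.log (m : ℝ) ^ 2) := by
          have e1 : Real.exp (2 * Real.log (Real.log (m : ℝ))) = Real.log (m : ℝ) ^ 2 := by
            rw [two_mul, Real.exp_add, Real.exp_log (by linarith)]
            ring
          rw [Real.exp_add, Real.exp_neg, Real.exp_neg, e1, Real.exp_log (by linarith)]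
          field_simp
      _ ≤ 4 * (1 / ((m : ℝ) * Real.log ((m : ℝ) + 2) ^ 2)) := by
          have h6 : 0 < Real.log (m : ℝ) := by linarith
          rw [mul_one_div, div_le_div_iff₀ (by positivity) (by positivity)]
          have h7 : Real.log ((m : ℝ) + 2) ^ 2 ≤ (2 * Real.log (m : ℝ)) ^ 2 := by gcongr
          nlinarith
  have hfin : ∀ᵐ ω ∂μ, (∑' m : ℕ, (Bad m).indicator (fun _ => ENNReal.ofReal (w m)) ω) < ∞ := by
    apply ae_lt_top
    · exact Measurable.tsum fun m => measurable_const.indicator (hBad m)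
    · rw [lintegral_tsum fun m => (measurable_const.indicator (hBad m)).aemeasurable]
      have : ∀ m : ℕ, ∫⁻ ω, (Bad m).indicator (fun _ => ENNReal.ofReal (w m)) ω ∂μ =
          ENNReal.ofReal (w m * μ.real (Bad m)) := by
        intro m
        rw [lintegral_indicator_const (hBad m), ENNReal.ofReal_mul (hw0 m).le, Measure.real,
          ENNReal.ofReal_toReal (measure_ne_top _ _)]
      simp_rw [this]
      exact hsum.tsum_ofReal_ne_top
  filter_upwards [hfin] with ω hω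
  obtain ⟨f, hf⟩ : ∃ f : ℕ → ℝ, f = fun m : ℕ => (Bad m).indicator (fun _ => w m) ω := ⟨_, rfl⟩
  have hf0 : ∀ m, 0 ≤ f m := fun m => by
    rw [hf]
    exact Set.indicator_nonneg (fun _ _ => (hw0 m).le) ω
  have hfs : Summable f := by
    have h1 : ∑' m : ℕ, ENNReal.ofReal (f m) ≠ ∞ := by
      refine ne_of_lt (lt_of_le_of_lt (le_of_eq ?_) hω)
      apply tsum_congr
      intro m
      simp only [hf]
      by_cases h : ω ∈ Bad m
      · rw [Set.indicator_of_mem h, Set.indicator_of_mem h]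
      · rw [Set.indicator_of_notMem h, Set.indicator_of_notMem h, ENNReal.ofReal_zero]
    have := ENNReal.summable_toReal h1
    refine this.congr fun m => ?_
    rw [ENNReal.toReal_ofReal (hf0 m)]
  have hS0 : 0 ≤ ∑' m, f m := tsum_nonneg hf0
  obtain ⟨m0, hm0⟩ := hmono
  have hev1 : ∀ᶠ X : ℕ in atTop, (m0 : ℝ) ≤ 1 / 2 * (X * Real.exp (-κ'' * g X)) := by
    filter_upwards [hsmall (2 * |κ''|), hgT.eventually_ge_atTop 0, eventually_ge_atTop 1,
      tendsto_natCast_atTop_atTop.eventually_ge_atTop ((2 * (m0 : ℝ)) ^ 2)] with X h3 h4 h5 h6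
    have hX0 : (0 : ℝ) < X := by exact_mod_cast h5
    have h7 : Real.sqrt X ≤ X * Real.exp (-κ'' * g X) := by
      have e1 : Real.exp (Real.log (X : ℝ) / 2) = Real.sqrt X := by
        rw [Real.sqrt_eq_rpow, Real.rpow_def_of_pos hX0]
        congr 1
        ring
      have e2 : (X : ℝ) * Real.exp (-κ'' * g X) = Real.exp (Real.log (X : ℝ) + -κ'' * g X) := by
        rw [Real.exp_add, Real.exp_log hX0]
      rw [e2, ← e1]
      apply Real.exp_le_exp.2
      have h8 : κ'' * g X ≤ |κ''| * g X := mul_le_mul_of_nonneg_right (le_abs_self _) h4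
      nlinarith
    have h8 : 2 * (m0 : ℝ) ≤ Real.sqrt X := by
      apply Real.le_sqrt_of_sq_le
      exact h6
    linarith
  have hev2 : ∀ᶠ X : ℕ in atTop, (∑' m, f m) * (X * Real.exp (-κ' * g X)) ≤
      1 / 2 * (X * Real.exp (-κ'' * g X)) := by
    have h3 : Tendsto (fun X : ℕ => (κ' - κ'') * g X) atTop atTop :=
      hgT.const_mul_atTop (by linarith)
    have h4 := (Real.tendsto_exp_atTop.comp h3).eventually_ge_atTop (2 * (∑' m, f m))
    filter_upwards [h4] with X h5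
    simp only [Function.comp] at h5
    have h6 : Real.exp (-κ'' * g X) = Real.exp ((κ' - κ'') * g X) * Real.exp (-κ' * g X) := by
      rw [← Real.exp_add]
      congr 1
      ring
    rw [h6]
    have h7 : 0 ≤ (X : ℝ) * Real.exp (-κ' * g X) := by positivity
    nlinarith
  filter_upwards [hev1, hev2, eventually_ge_atTop (max m0 1)] with X hX1 hX2 hX3
  have hX0 : (0 : ℝ) < X := by
    have : 1 ≤ X := le_trans (le_max_right _ _) hX3
    exact_mod_cast this
  have hset : {m : ℕ | 1 ≤ m ∧ m ≤ X ∧ ω ∈ Bad m} =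
      ((Finset.Icc 1 X).filter (fun m => ω ∈ Bad m) : Set ℕ) := by
    ext m
    simp only [Set.mem_ofPred_eq, Finset.coe_filter, Finset.mem_Icc]
    tauto
  rw [hset, Set.ncard_coe_finset]
  have hsub : (Finset.Icc 1 X).filter (fun m => ω ∈ Bad m) ⊆
      Finset.range m0 ∪ (Finset.Icc m0 X).filter (fun m => ω ∈ Bad m) := by
    intro m hm
    rw [Finset.mem_filter, Finset.mem_Icc] at hm
    rw [Finset.mem_union, Finset.mem_range, Finset.mem_filter, Finset.mem_Icc]
    rcases lt_or_ge m m0 with h | h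
    · exact Or.inl h
    · exact Or.inr ⟨⟨h, hm.1.2⟩, hm.2⟩
  have hc1 : (((Finset.Icc 1 X).filter (fun m => ω ∈ Bad m)).card : ℝ) ≤
      m0 + (((Finset.Icc m0 X).filter (fun m => ω ∈ Bad m)).card : ℝ) := by
    have h3 := Finset.card_le_card hsub
    have h4 := Finset.card_union_le (Finset.range m0) ((Finset.Icc m0 X).filter (fun m => ω ∈ Bad m))
    rw [Finset.card_range] at h4
    exact_mod_cast h3.trans h4
  have hc2 : (((Finset.Icc m0 X).filter (fun m => ω ∈ Bad m)).card : ℝ) ≤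
      (X * Real.exp (-κ' * g X)) * ∑' m, f m := by
    have h3 : (((Finset.Icc m0 X).filter (fun m => ω ∈ Bad m)).card : ℝ) * w X ≤ ∑' m, f m := by
      calc (((Finset.Icc m0 X).filter (fun m => ω ∈ Bad m)).card : ℝ) * w X
          = ∑ _m ∈ (Finset.Icc m0 X).filter (fun m => ω ∈ Bad m), w X := by
            rw [Finset.sum_const, nsmul_eq_mul]
        _ ≤ ∑ m ∈ (Finset.Icc m0 X).filter (fun m => ω ∈ Bad m), f m := by
            apply Finset.sum_le_sum
            intro m hm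
            rw [Finset.mem_filter, Finset.mem_Icc] at hm
            simp only [hf, Set.indicator_of_mem hm.2]
            rw [hw]
            apply Real.exp_le_exp.2
            have := hm0 m X hm.1.1 hm.1.2
            linarith
        _ ≤ ∑' m, f m := hfs.sum_le_tsum _ (fun m _ => hf0 m)
    have h4 : w X * (X * Real.exp (-κ' * g X)) = 1 := by
      rw [hw]
      have e2 : (X : ℝ) = Real.exp (Real.log (X : ℝ)) := (Real.exp_log hX0).symm
      calc Real.exp (-(Real.log (X : ℝ) - κ' * g X)) * (X * Real.exp (-κ' * g X))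
          = Real.exp (-(Real.log (X : ℝ) - κ' * g X)) *
            (Real.exp (Real.log (X : ℝ)) * Real.exp (-κ' * g X)) := by rw [← e2]
        _ = 1 := by
            rw [← Real.exp_add, ← Real.exp_add]
            rw [show -(Real.log (X : ℝ) - κ' * g X) + (Real.log (X : ℝ) + -κ' * g X) = 0 by ring,
              Real.exp_zero]
    have h5 : 0 < X * Real.exp (-κ' * g X) := by positivity
    calc (((Finset.Icc m0 X).filter (fun m => ω ∈ Bad m)).card : ℝ)
        = ((((Finset.Icc m0 X).filter (fun m => ω ∈ Bad m)).card : ℝ) * w X) *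
          (X * Real.exp (-κ' * g X)) := by rw [mul_assoc, h4, mul_one]
      _ ≤ (∑' m, f m) * (X * Real.exp (-κ' * g X)) := by gcongr
      _ = _ := by ring
  linarith

/-! ### the growth of the exponent -/

/-- the exponent as a function of `y = log m` -/
noncomputable def FF (K a b y : ℝ) : ℝ := K * (y ^ a * Real.log y ^ b)

lemma FF_small {K a b : ℝ} (ha : a < 1) (C : ℝ) : ∀ᶠ y in atTop, C * FF K a b y ≤ y := by
  have h1 : (fun y : ℝ => Real.log y ^ b) =o[atTop] fun y : ℝ => y ^ (1 - a) :=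
    isLittleO_log_rpow_rpow_atTop b (by linarith)
  have h2 := h1.def (c := 1 / (|C * K| + 1)) (by positivity)
  filter_upwards [h2, eventually_gt_atTop 1] with y hy hy1
  have hy0 : 0 < y := by linarith
  have hl : 0 < Real.log y := Real.log_pos hy1
  rw [Real.norm_of_nonneg (by positivity : 0 ≤ Real.log y ^ b),
    Real.norm_of_nonneg (by positivity : 0 ≤ y ^ (1 - a))] at hy
  have h3 : y ^ a * y ^ (1 - a) = y := by
    rw [← Real.rpow_add hy0]
    simp
  have hya : 0 < y ^ a := by positivity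
  calc C * FF K a b y = (C * K) * (y ^ a * Real.log y ^ b) := by unfold FF; ring
    _ ≤ |C * K| * (y ^ a * Real.log y ^ b) := by
        gcongr
        exact le_abs_self _
    _ ≤ |C * K| * (y ^ a * (1 / (|C * K| + 1) * y ^ (1 - a))) := by gcongr
    _ = (|C * K| / (|C * K| + 1)) * (y ^ a * y ^ (1 - a)) := by ring
    _ ≤ 1 * (y ^ a * y ^ (1 - a)) := by
        gcongr
        rw [div_le_one (by positivity)]
        linarith [abs_nonneg (C * K)]
    _ = y := by rw [one_mul, h3]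

lemma FF_big {K a b : ℝ} (hK : 0 < K) (ha : 0 ≤ a) (hb : 0 ≤ b) (hab : a = 0 → 1 < b) (C : ℝ) :
    ∀ᶠ y in atTop, C * Real.log y ≤ FF K a b y := by
  rcases ha.eq_or_lt with h0 | h0
  · -- a = 0
    have hb1 := hab h0.symm
    have h1 : Tendsto (fun y : ℝ => Real.log y ^ (b - 1)) atTop atTop :=
      (tendsto_rpow_atTop (by linarith)).comp Real.tendsto_log_atTop
    filter_upwards [h1.eventually_ge_atTop (C / K), eventually_gt_atTop 1] with y hy hy1
    have hl : 0 < Real.log y := Real.log_pos hy1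
    unfold FF
    rw [← h0, Real.rpow_zero, one_mul]
    have e : Real.log y ^ b = Real.log y ^ (b - 1) * Real.log y := by
      rw [← Real.rpow_add_one hl.ne']
      congr 1
      ring
    rw [e]
    rw [div_le_iff₀ hK] at hy
    calc C * Real.log y ≤ (Real.log y ^ (b - 1) * K) * Real.log y := by gcongr
      _ = _ := by ring
  · have h1 : (fun y : ℝ => Real.log y) =o[atTop] fun y : ℝ => y ^ a := isLittleO_log_rpow_atTop h0
    have h2 := h1.def (c := K / (|C| + 1)) (by positivity)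
    filter_upwards [h2, eventually_gt_atTop 1, Real.tendsto_log_atTop.eventually_ge_atTop 1]
      with y hy hy1 hy2
    have hy0 : 0 < y := by linarith
    have hl : 0 < Real.log y := Real.log_pos hy1
    rw [Real.norm_of_nonneg (by positivity : 0 ≤ Real.log y),
      Real.norm_of_nonneg (by positivity : 0 ≤ y ^ a)] at hy
    have h3 : 1 ≤ Real.log y ^ b := Real.one_le_rpow hy2 hb
    have hya : 0 < y ^ a := by positivity
    unfold FF
    calc C * Real.log y ≤ |C| * Real.log y := by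
          gcongr
          exact le_abs_self _
      _ ≤ |C| * (K / (|C| + 1) * y ^ a) := by gcongr
      _ = (|C| / (|C| + 1)) * (K * (y ^ a * 1)) := by ring
      _ ≤ 1 * (K * (y ^ a * Real.log y ^ b)) := by
          gcongr
          rw [div_le_one (by positivity)]
          linarith [abs_nonneg C]
      _ = _ := by ring

lemma FF_deriv {K a b : ℝ} (ha : a < 1) :
    ∀ᶠ y in atTop, ∃ d : ℝ, HasDerivAt (FF K a b) d y ∧ d ≤ 1 := by
  have hb1 := FF_small (K := |K * a|) (a := a) (b := b) ha 4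
  have hb2 := FF_small (K := |K * b|) (a := a) (b := b - 1) ha 4
  filter_upwards [hb1, hb2, eventually_gt_atTop 1] with y h1 h2 hy1
  have hy0 : 0 < y := by linarith
  have hl : 0 < Real.log y := Real.log_pos hy1
  have hd1 : HasDerivAt (fun y : ℝ => y ^ a) (a * y ^ (a - 1)) y := by
    have := Real.hasDerivAt_rpow_const (x := y) (p := a) (Or.inl hy0.ne')
    exact this
  have hd2 : HasDerivAt (fun y : ℝ => Real.log y ^ b) (y⁻¹ * b * Real.log y ^ (b - 1)) y := by
    have := (Real.hasDerivAt_log hy0.ne').rpow_const (p := b) (Or.inl hl.ne')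
    exact this
  refine ⟨_, (hd1.mul hd2).const_mul K, ?_⟩
  have e1 : y ^ (a - 1) = y ^ a / y := by rw [Real.rpow_sub_one hy0.ne']
  rw [e1]
  have h3 : |K * a| * (y ^ a * Real.log y ^ b) ≤ y / 4 := by unfold FF at h1; linarith
  have h4 : |K * b| * (y ^ a * Real.log y ^ (b - 1)) ≤ y / 4 := by unfold FF at h2; linarith
  have h5 : K * a * (y ^ a * Real.log y ^ b) ≤ |K * a| * (y ^ a * Real.log y ^ b) :=
    mul_le_mul_of_nonneg_right (le_abs_self _) (by positivity)
  have h6 : K * b * (y ^ a * Real.log y ^ (b - 1)) ≤ |K * b| * (y ^ a * Real.log y ^ (b - 1)) :=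
    mul_le_mul_of_nonneg_right (le_abs_self _) (by positivity)
  have e2 : K * (a * (y ^ a / y) * Real.log y ^ b + y ^ a * (y⁻¹ * b * Real.log y ^ (b - 1))) =
      (K * a * (y ^ a * Real.log y ^ b) + K * b * (y ^ a * Real.log y ^ (b - 1))) / y := by
    field_simp
  rw [e2, div_le_one hy0]
  linarith

lemma FF_mono {K a b κ : ℝ} (ha : a < 1) :
    ∃ y0 : ℝ, ∀ y z : ℝ, y0 ≤ y → y ≤ z → y - κ * FF K a b y ≤ z - κ * FF K a b z := by
  have h := FF_deriv (K := κ * K) (a := a) (b := b) ha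
  obtain ⟨y0, hy0⟩ := eventually_atTop.1 h
  refine ⟨y0, fun y z hy hyz => ?_⟩
  have hF : ∀ x, κ * FF K a b x = FF (κ * K) a b x := fun x => by unfold FF; ring
  rw [hF, hF]
  have hmono : MonotoneOn (fun x => x - FF (κ * K) a b x) (Set.Ici y0) := by
    apply monotoneOn_of_deriv_nonneg (convex_Ici y0)
    · intro x hx
      obtain ⟨d, hd, _⟩ := hy0 x hx
      exact (continuousAt_id.sub hd.continuousAt).continuousWithinAt
    · intro x hx
      rw [interior_Ici] at hx
      obtain ⟨d, hd, _⟩ := hy0 x (le_of_lt hx)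
      exact ((differentiableAt_id).sub hd.differentiableAt).differentiableWithinAt
    · intro x hx
      rw [interior_Ici] at hx
      obtain ⟨d, hd, hd1⟩ := hy0 x (le_of_lt hx)
      have := ((hasDerivAt_id x).sub hd).deriv
      have h2 : deriv (fun x => x - FF (κ * K) a b x) x = 1 - d := this
      rw [h2]
      linarith
  exact hmono (Set.mem_Ici.2 hy) (Set.mem_Ici.2 (hy.trans hyz)) hyz

/-! ### the exponent at `m` -/

/-- `D² / (2 mean)` -/
noncomputable def rateH (lam c t A : ℝ) (X : ℕ) : ℝ :=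
  (c * Real.log X ^ (lam - 1)) ^ (1 - 2 * t) * Real.log (Real.log X) ^ (2 * A) / 2

lemma rateH_eq {lam c t A : ℝ} (hc : 0 < c) {m : ℕ} (hm : 0 < Real.log (m : ℝ)) :
    rateH lam c t A m =
      FF (c ^ (1 - 2 * t) / 2) ((lam - 1) * (1 - 2 * t)) (2 * A) (Real.log (m : ℝ)) := by
  unfold rateH FF
  rw [Real.mul_rpow hc.le (by positivity), ← Real.rpow_mul hm.le]
  ring

lemma mean_pos {lam c : ℝ} (hc : 0 < c) {m : ℕ} (hm : 0 < Real.log (m : ℝ)) :
    0 < mean lam c m := by unfold mean; positivity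

lemma dev_pos {lam c t A : ℝ} (hc : 0 < c) {m : ℕ} (hm : 0 < Real.log (m : ℝ))
    (hm2 : 0 < Real.log (Real.log (m : ℝ))) : 0 < dev lam c t A m := by
  unfold dev
  have := mean_pos (lam := lam) hc hm
  positivity

lemma dev_sq {lam c t A : ℝ} (hc : 0 < c) {m : ℕ} (hm : 0 < Real.log (m : ℝ))
    (hm2 : 0 < Real.log (Real.log (m : ℝ))) :
    dev lam c t A m ^ 2 / (2 * mean lam c m) = rateH lam c t A m := by
  have hM := mean_pos (lam := lam) hc hm
  unfold dev rateH
  have e0 : c * Real.log (m : ℝ) ^ (lam - 1) = mean lam c m := rfl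
  rw [e0, mul_pow, ← Real.rpow_natCast (mean lam c m ^ (1 - t)) 2,
    ← Real.rpow_natCast (Real.log (Real.log (m : ℝ)) ^ A) 2, ← Real.rpow_mul hM.le,
    ← Real.rpow_mul hm2.le]
  have e1 : mean lam c m ^ ((1 - t) * ((2 : ℕ) : ℝ)) = mean lam c m ^ (1 - 2 * t) * mean lam c m := by
    rw [← Real.rpow_add_one hM.ne']
    congr 1
    push_cast
    ring
  have e2 : A * ((2 : ℕ) : ℝ) = 2 * A := by push_cast; ring
  rw [e1, e2]
  field_simp

lemma tendsto_logn : Tendsto (fun m : ℕ => Real.log (m : ℝ)) atTop atTop :=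
  Real.tendsto_log_atTop.comp tendsto_natCast_atTop_atTop

lemma dev_small {lam c t A : ℝ} (hlam : 1 < lam) (hc : 0 < c) (ht0 : 0 < t) {ε : ℝ} (hε : 0 < ε) :
    ∀ᶠ m : ℕ in atTop, dev lam c t A m ≤ ε * mean lam c m := by
  have h1 : (fun y : ℝ => Real.log y ^ A) =o[atTop] fun y : ℝ => y ^ ((lam - 1) * t) :=
    isLittleO_log_rpow_rpow_atTop A (mul_pos (by linarith) ht0)
  have h2 := h1.def (c := ε * c ^ t) (by positivity)
  filter_upwards [tendsto_logn.eventually h2, tendsto_logn.eventually_gt_atTop 1] with m hm hm1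
  have hl0 : 0 < Real.log (m : ℝ) := by linarith
  have hl : 0 < Real.log (Real.log (m : ℝ)) := Real.log_pos hm1
  rw [Real.norm_of_nonneg (by positivity : 0 ≤ Real.log (Real.log (m : ℝ)) ^ A),
    Real.norm_of_nonneg (by positivity : 0 ≤ Real.log (m : ℝ) ^ ((lam - 1) * t))] at hm
  have hM := mean_pos (lam := lam) hc hl0
  unfold dev
  have e1 : mean lam c m = mean lam c m ^ (1 - t) * mean lam c m ^ t := by
    rw [← Real.rpow_add hM]
    simp
  have e2 : mean lam c m ^ t = c ^ t * Real.log (m : ℝ) ^ ((lam - 1) * t) := by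
    unfold mean
    rw [Real.mul_rpow hc.le (by positivity), ← Real.rpow_mul hl0.le]
  calc mean lam c m ^ (1 - t) * Real.log (Real.log (m : ℝ)) ^ A
      ≤ mean lam c m ^ (1 - t) * (ε * c ^ t * Real.log (m : ℝ) ^ ((lam - 1) * t)) := by gcongr
    _ = ε * (mean lam c m ^ (1 - t) * mean lam c m ^ t) := by rw [e2]; ring
    _ = ε * mean lam c m := by rw [← e1]

omit [MeasurableSpace Ω] in
open scoped Classical in
lemma cnt_eq_sum_ind (E : ℕ → Set Ω) (m l : ℕ) (ω : Ω) :
    (cnt {n | ω ∈ E n} m l : ℝ) = (∑ j ∈ Finset.Ioc m (m + l), ind E j) ω := by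
  unfold cnt
  rw [Finset.card_filter, Finset.sum_apply]
  push_cast
  apply Finset.sum_congr rfl
  intro j _
  unfold ind
  by_cases h : ω ∈ E j
  · simp [h]
  · simp [h]

/-- the event that the window at `m` deviates -/
def BadW (E : ℕ → Set Ω) (lam c t A s : ℝ) (m : ℕ) : Set Ω :=
  {ω | dev lam c t A m ≤ s * ((cnt {n | ω ∈ E n} m (hl lam c m) : ℝ) - mean lam c m)}

lemma measurableSet_BadW {E : ℕ → Set Ω} (hE : ∀ n, MeasurableSet (E n)) (lam c t A s : ℝ)
    (m : ℕ) : MeasurableSet (BadW E lam c t A s m) := by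
  unfold BadW
  simp_rw [cnt_eq_sum_ind]
  exact measurableSet_le measurable_const
    (((measurable_sum_ind hE _).sub measurable_const).const_mul s)

lemma prob_BadW_le [IsProbabilityMeasure μ] {E : ℕ → Set Ω} (hE : ∀ n, MeasurableSet (E n))
    (hind : iIndepSet E μ) {lam c t A : ℝ} (hlam : 1 < lam) (hc : 0 < c) (ht0 : 0 < t)
    (Gd : Set ℕ)
    (hsum : ∀ ε : ℝ, 0 < ε → ∀ᶠ m : ℕ in atTop, m ∈ Gd →
      |∑ j ∈ Finset.Ioc m (m + hl lam c m), μ.real (E j) - mean lam c m| ≤ ε * dev lam c t A m)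
    {δ : ℝ} (hδ : 0 < δ) :
    ∀ᶠ m : ℕ in atTop, m ∈ Gd → ∀ s : ℝ, (s = 1 ∨ s = -1) →
      μ.real (BadW E lam c t A s m) ≤ Real.exp (-(1 - δ) * rateH lam c t A m) := by
  obtain ⟨ε, hε0, hε1, hε2⟩ : ∃ ε : ℝ, 0 < ε ∧ ε ≤ 1 / 8 ∧ 4 * ε ≤ δ :=
    ⟨min (1 / 8) (δ / 4), lt_min (by norm_num) (by linarith), min_le_left _ _, by
      have := min_le_right (1 / 8) (δ / 4)
      linarith⟩
  filter_upwards [hsum ε hε0, dev_small (A := A) hlam hc ht0 hε0,
    tendsto_logn.eventually_gt_atTop 1] with m h1 h2 h3 hGd s hs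
  have hl0 : 0 < Real.log (m : ℝ) := by linarith
  have hl : 0 < Real.log (Real.log (m : ℝ)) := Real.log_pos h3
  have hM := mean_pos (lam := lam) hc hl0
  have hD := dev_pos (lam := lam) (t := t) (A := A) hc hl0 hl
  have hR : 0 ≤ rateH lam c t A m := by
    rw [← dev_sq hc hl0 hl]
    positivity
  have hfin : Real.exp (-(1 - 4 * ε) * (dev lam c t A m ^ 2 / (2 * mean lam c m))) ≤
      Real.exp (-(1 - δ) * rateH lam c t A m) := by
    rw [dev_sq hc hl0 hl]
    apply Real.exp_le_exp.2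
    nlinarith
  refine le_trans ?_ hfin
  rcases hs with rfl | rfl
  · refine le_trans (measureReal_mono ?_) (prob_up_le hE hind _ hM hD hε0 hε1 (h1 hGd) h2)
    intro ω hω
    simp only [BadW, Set.mem_ofPred_eq, cnt_eq_sum_ind] at hω ⊢
    linarith
  · refine le_trans (measureReal_mono ?_) (prob_low_le hE hind _ hM hD hε0 hε1 (h1 hGd) h2)
    intro ω hω
    simp only [BadW, Set.mem_ofPred_eq, cnt_eq_sum_ind] at hω ⊢
    linarith

open scoped Classical in
/-- **Almost sure upper bound, good windows.** -/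
theorem ae_good_upper [IsProbabilityMeasure μ] {E : ℕ → Set Ω} (hE : ∀ n, MeasurableSet (E n))
    (hind : iIndepSet E μ) {lam c t A : ℝ} (hlam : 1 < lam) (hc : 0 < c) (ht0 : 0 < t)
    (ht : t ≤ 1 / 2) (hA : 0 ≤ A) (hA2 : t = 1 / 2 → 1 / 2 < A)
    (hlt : (lam - 1) * (1 - 2 * t) < 1) (Gd : Set ℕ)
    (hsum : ∀ ε : ℝ, 0 < ε → ∀ᶠ m : ℕ in atTop, m ∈ Gd →
      |∑ j ∈ Finset.Ioc m (m + hl lam c m), μ.real (E j) - mean lam c m| ≤ ε * dev lam c t A m) :
    ∀ᵐ ω ∂μ, ∀ e : ℝ, 0 < e → ∀ᶠ X : ℕ in atTop, ∀ s : ℝ, (s = 1 ∨ s = -1) →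
      (((Finset.Icc 3 X).filter (fun m => m ∈ Gd ∧ dev lam c t A m ≤
        s * ((cnt {n | ω ∈ E n} m (hl lam c m) : ℝ) - mean lam c m))).card : ℝ) ≤
      X * Real.exp (-(1 - e) * rateH lam c t A X) := by
  set K : ℝ := c ^ (1 - 2 * t) / 2 with hK
  have hK0 : 0 < K := by positivity
  set a : ℝ := (lam - 1) * (1 - 2 * t) with ha
  have ha0 : 0 ≤ a := mul_nonneg (by linarith) (by linarith)
  have hb0 : 0 ≤ 2 * A := by linarith
  have hab : a = 0 → 1 < 2 * A := by
    intro h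
    rw [ha, mul_eq_zero] at h
    rcases h with h | h
    · linarith
    · have := hA2 (by linarith)
      linarith
  have hg : ∀ᶠ m : ℕ in atTop, rateH lam c t A m = FF K a (2 * A) (Real.log (m : ℝ)) := by
    filter_upwards [tendsto_logn.eventually_gt_atTop 0] with m hm
    exact rateH_eq hc hm
  have hbig : ∀ C : ℝ, ∀ᶠ m : ℕ in atTop, C * Real.log (Real.log (m : ℝ)) ≤ rateH lam c t A m := by
    intro C
    filter_upwards [hg, tendsto_logn.eventually (FF_big hK0 ha0 hb0 hab C)] with m h1 h2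
    rw [h1]
    exact h2
  have hsmall : ∀ C : ℝ, ∀ᶠ m : ℕ in atTop, C * rateH lam c t A m ≤ Real.log (m : ℝ) := by
    intro C
    filter_upwards [hg, tendsto_logn.eventually (FF_small (K := K) (b := 2 * A) hlt C)] with m h1 h2
    rw [h1]
    exact h2
  have hmono : ∀ κ : ℝ, ∃ m0 : ℕ, ∀ m n : ℕ, m0 ≤ m → m ≤ n →
      Real.log (m : ℝ) - κ * rateH lam c t A m ≤ Real.log (n : ℝ) - κ * rateH lam c t A n := by
    intro κ
    obtain ⟨y0, hy0⟩ := FF_mono (K := K) (b := 2 * A) (κ := κ) hlt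
    obtain ⟨m0, hm0⟩ := eventually_atTop.1 (hg.and ((tendsto_logn.eventually_ge_atTop y0).and
      (eventually_ge_atTop 1)))
    refine ⟨m0, fun m n hm hmn => ?_⟩
    rw [(hm0 m hm).1, (hm0 n (hm.trans hmn)).1]
    apply hy0 _ _ (hm0 m hm).2.1
    apply Real.log_le_log
    · have := (hm0 m hm).2.2
      exact_mod_cast this
    · exact_mod_cast hmn
  -- rational exponents
  have hq : ∀ k : ℕ, ∀ s : ℝ, (s = 1 ∨ s = -1) → ∀ᵐ ω ∂μ, ∀ᶠ X : ℕ in atTop,
      ({m : ℕ | 1 ≤ m ∧ m ≤ X ∧ ω ∈ (if m ∈ Gd then BadW E lam c t A s m else ∅)}.ncard : ℝ) ≤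
        X * Real.exp (-(1 - 3 / ((k : ℝ) + 1)) * rateH lam c t A X) := by
    intro k s hs
    have hk : (0 : ℝ) < 1 / ((k : ℝ) + 1) := by positivity
    refine ae_count_le (κ := 1 - 1 / ((k : ℝ) + 1)) (κ' := 1 - 2 / ((k : ℝ) + 1)) ?_ ?_ ?_ ?_ ?_ ?_ ?_
    · intro m
      split_ifs
      · exact measurableSet_BadW hE _ _ _ _ _ m
      · exact MeasurableSet.empty
    · have : 3 / ((k : ℝ) + 1) = 2 / ((k : ℝ) + 1) + 1 / ((k : ℝ) + 1) := by ring
      linarith
    · have : 2 / ((k : ℝ) + 1) = 1 / ((k : ℝ) + 1) + 1 / ((k : ℝ) + 1) := by ring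
      linarith
    · filter_upwards [prob_BadW_le hE hind (A := A) hlam hc ht0 Gd hsum hk] with m hm
      split_ifs with h
      · exact hm h s hs
      · simp only [measureReal_empty]
        positivity
    · exact hbig
    · exact hsmall
    · exact hmono _
  have hall : ∀ᵐ ω ∂μ, ∀ k : ℕ, ∀ s : ℝ, (s = 1 ∨ s = -1) → ∀ᶠ X : ℕ in atTop,
      ({m : ℕ | 1 ≤ m ∧ m ≤ X ∧ ω ∈ (if m ∈ Gd then BadW E lam c t A s m else ∅)}.ncard : ℝ) ≤
        X * Real.exp (-(1 - 3 / ((k : ℝ) + 1)) * rateH lam c t A X) := by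
    rw [ae_all_iff]
    intro k
    filter_upwards [hq k 1 (Or.inl rfl), hq k (-1) (Or.inr rfl)] with ω h1 h2 s hs
    rcases hs with rfl | rfl
    · exact h1
    · exact h2
  filter_upwards [hall] with ω hω e he
  obtain ⟨k, hk⟩ := exists_nat_gt (3 / e)
  have hk1 : (0 : ℝ) < (k : ℝ) + 1 := by positivity
  have hke : 3 / ((k : ℝ) + 1) ≤ e := by
    rw [div_lt_iff₀ he] at hk
    rw [div_le_iff₀ hk1]
    nlinarith
  filter_upwards [hω k 1 (Or.inl rfl), hω k (-1) (Or.inr rfl), hbig 0] with X h1 h2 h3 s hs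
  have hX := fun (s : ℝ) (hs : s = 1 ∨ s = -1) => (show
      ({m : ℕ | 1 ≤ m ∧ m ≤ X ∧ ω ∈ (if m ∈ Gd then BadW E lam c t A s m else ∅)}.ncard : ℝ) ≤
        X * Real.exp (-(1 - 3 / ((k : ℝ) + 1)) * rateH lam c t A X) by
    rcases hs with rfl | rfl
    · exact h1
    · exact h2)
  have hR : 0 ≤ rateH lam c t A X := by simpa using h3
  have hexp : Real.exp (-(1 - 3 / ((k : ℝ) + 1)) * rateH lam c t A X) ≤
      Real.exp (-(1 - e) * rateH lam c t A X) := by
    apply Real.exp_le_exp.2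
    nlinarith
  refine le_trans ?_ ((hX s hs).trans (by gcongr))
  have hfinite : {m : ℕ | 1 ≤ m ∧ m ≤ X ∧ ω ∈ (if m ∈ Gd then BadW E lam c t A s m else ∅)}.Finite :=
    (Set.finite_Iic X).subset fun m hm => hm.2.1
  rw [← Set.ncard_coe_finset]
  have hsub : (((Finset.Icc 3 X).filter (fun m => m ∈ Gd ∧ dev lam c t A m ≤
        s * ((cnt {n | ω ∈ E n} m (hl lam c m) : ℝ) - mean lam c m)) : Finset ℕ) : Set ℕ) ⊆
      {m : ℕ | 1 ≤ m ∧ m ≤ X ∧ ω ∈ (if m ∈ Gd then BadW E lam c t A s m else ∅)} := by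
    intro m hm
    rw [Finset.mem_coe, Finset.mem_filter, Finset.mem_Icc] at hm
    refine ⟨by omega, hm.1.2, ?_⟩
    rw [if_pos hm.2.1]
    exact hm.2.2
  exact_mod_cast Set.ncard_le_ncard hsub hfinite

open scoped Classical in
/-- **Almost sure upper bound with an exceptional set of windows.** -/
theorem ae_upper_of_good [IsProbabilityMeasure μ] {E : ℕ → Set Ω} (hE : ∀ n, MeasurableSet (E n))
    (hind : iIndepSet E μ) {lam c t A : ℝ} (hlam : 1 < lam) (hc : 0 < c) (ht0 : 0 < t)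
    (ht : t ≤ 1 / 2) (hA : 0 ≤ A) (hA2 : t = 1 / 2 → 1 / 2 < A)
    (hlt : (lam - 1) * (1 - 2 * t) < 1) (Gd : Set ℕ)
    (hsum : ∀ ε : ℝ, 0 < ε → ∀ᶠ m : ℕ in atTop, m ∈ Gd →
      |∑ j ∈ Finset.Ioc m (m + hl lam c m), μ.real (E j) - mean lam c m| ≤ ε * dev lam c t A m)
    {F : ℕ → ℝ} (hEx : ∀ᶠ X : ℕ in atTop,
      (((Finset.Icc 3 X).filter (fun m => m ∉ Gd)).card : ℝ) ≤ X * Real.exp (-F X)) :
    ∀ᵐ ω ∂μ, ∀ e : ℝ, 0 < e → ∀ᶠ X : ℕ in atTop, ∀ s : ℝ, (s = 1 ∨ s = -1) →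
      (devCount {n | ω ∈ E n} lam c t A s X : ℝ) ≤
      X * (Real.exp (-F X) + Real.exp (-(1 - e) * rateH lam c t A X)) := by
  filter_upwards [ae_good_upper hE hind hlam hc ht0 ht hA hA2 hlt Gd hsum] with ω hω e he
  filter_upwards [hω e he, hEx] with X h1 h2 s hs
  have h3 : devCount {n | ω ∈ E n} lam c t A s X ≤
      ((Finset.Icc 3 X).filter (fun m => m ∉ Gd)).card +
      ((Finset.Icc 3 X).filter (fun m => m ∈ Gd ∧ dev lam c t A m ≤
        s * ((cnt {n | ω ∈ E n} m (hl lam c m) : ℝ) - mean lam c m))).card := by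
    unfold devCount
    refine (Finset.card_le_card ?_).trans (Finset.card_union_le _ _)
    intro m hm
    rw [Finset.mem_filter] at hm
    rw [Finset.mem_union, Finset.mem_filter, Finset.mem_filter]
    by_cases h : m ∈ Gd
    · exact Or.inr ⟨hm.1, h, hm.2⟩
    · exact Or.inl ⟨hm.1, h⟩
  have h4 := h1 s hs
  have h5 : (devCount {n | ω ∈ E n} lam c t A s X : ℝ) ≤
      (((Finset.Icc 3 X).filter (fun m => m ∉ Gd)).card : ℝ) +
      (((Finset.Icc 3 X).filter (fun m => m ∈ Gd ∧ dev lam c t A m ≤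
        s * ((cnt {n | ω ∈ E n} m (hl lam c m) : ℝ) - mean lam c m))).card : ℝ) := by
    exact_mod_cast h3
  calc (devCount {n | ω ∈ E n} lam c t A s X : ℝ) ≤ _ := h5
    _ ≤ X * Real.exp (-F X) + X * Real.exp (-(1 - e) * rateH lam c t A X) := add_le_add h2 h4
    _ = _ := by ring

/-! ### Cramér's model -/

lemma tendsto_dev {lam c t A : ℝ} (hlam : 1 < lam) (hc : 0 < c) (ht : t ≤ 1 / 2) (hA : 0 ≤ A) :
    Tendsto (fun m : ℕ => dev lam c t A m) atTop atTop := by
  have h0 : Tendsto (fun m : ℕ => mean lam c m) atTop atTop := by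
    unfold mean
    exact ((tendsto_rpow_atTop (by linarith)).comp tendsto_logn).const_mul_atTop hc
  have h1 : Tendsto (fun m : ℕ => mean lam c m ^ (1 - t)) atTop atTop :=
    (tendsto_rpow_atTop (by linarith)).comp h0
  refine tendsto_atTop_mono' _ ?_ h1
  have hLL : Tendsto (fun m : ℕ => Real.log (Real.log (m : ℝ))) atTop atTop :=
    Real.tendsto_log_atTop.comp tendsto_logn
  filter_upwards [h1.eventually_ge_atTop 0, hLL.eventually_ge_atTop 1] with m hm hm2
  unfold dev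
  exact le_mul_of_one_le_right hm (Real.one_le_rpow hm2 hA)

lemma window_sum {lam c : ℝ} (hlam : 1 < lam) (hc : 0 < c) :
    ∀ᶠ m : ℕ in atTop,
      |∑ j ∈ Finset.Ioc m (m + hl lam c m), 1 / Real.log (j : ℝ) - mean lam c m| ≤ 2 := by
  have h1 : (fun m : ℕ => Real.log (m : ℝ) ^ (2 * lam)) =o[atTop] fun m : ℕ => (m : ℝ) ^ (1 : ℝ) :=
    (isLittleO_log_rpow_rpow_atTop (2 * lam) one_pos).comp_tendsto tendsto_natCast_atTop_atTop
  have h2 := h1.def (c := 1 / c ^ 2) (by positivity)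
  filter_upwards [h2, tendsto_logn.eventually_ge_atTop 1, eventually_ge_atTop 1] with m hm hm1 hm2
  have hm0 : (0 : ℝ) < m := by exact_mod_cast hm2
  obtain ⟨L, hL⟩ : ∃ L, L = Real.log (m : ℝ) := ⟨_, rfl⟩
  rw [← hL] at hm hm1
  have hL0 : 0 < L := by linarith
  rw [Real.norm_of_nonneg (by positivity : 0 ≤ L ^ (2 * lam)),
    Real.norm_of_nonneg (by positivity : 0 ≤ (m : ℝ) ^ (1 : ℝ)), Real.rpow_one] at hm
  obtain ⟨h, hh⟩ : ∃ h : ℕ, h = hl lam c m := ⟨_, rfl⟩
  have hh1 : (h : ℝ) ≤ c * L ^ lam := by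
    rw [hh, hL]
    exact Nat.floor_le (by positivity)
  have hh2 : c * L ^ lam - 1 ≤ h := by
    rw [hh, hL]
    exact (Nat.sub_one_lt_floor _).le
  rw [← hh]
  have hhm : (h : ℝ) ^ 2 ≤ m := by
    have e1 : (c * L ^ lam) ^ 2 = c ^ 2 * L ^ (2 * lam) := by
      rw [mul_pow, ← Real.rpow_natCast (L ^ lam) 2, ← Real.rpow_mul hL0.le]
      congr 2
      push_cast
      ring
    calc (h : ℝ) ^ 2 ≤ (c * L ^ lam) ^ 2 := by gcongr
      _ = c ^ 2 * L ^ (2 * lam) := e1
      _ ≤ c ^ 2 * (1 / c ^ 2 * m) := by gcongr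
      _ = m := by field_simp
  have hterm : ∀ j ∈ Finset.Ioc m (m + h), 1 / L - (h : ℝ) / m ≤ 1 / Real.log (j : ℝ) ∧
      1 / Real.log (j : ℝ) ≤ 1 / L := by
    intro j hj
    rw [Finset.mem_Ioc] at hj
    have hj1 : (m : ℝ) ≤ j := by exact_mod_cast hj.1.le
    have hj2 : (j : ℝ) ≤ m + h := by exact_mod_cast hj.2
    have hj3 : L ≤ Real.log (j : ℝ) := by rw [hL]; exact Real.log_le_log hm0 hj1
    have hj4 : Real.log (j : ℝ) ≤ L + h / m := by
      have h3 : Real.log (j : ℝ) - Real.log (m : ℝ) ≤ h / m := by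
        rw [← Real.log_div (by linarith) hm0.ne']
        have h4 := Real.log_le_sub_one_of_pos (div_pos (by linarith : 0 < (j : ℝ)) hm0)
        have h5 : (j : ℝ) / m - 1 ≤ h / m := by
          rw [div_sub_one hm0.ne']
          gcongr
          linarith
        linarith
      rw [hL]
      linarith
    have hj0 : 0 < Real.log (j : ℝ) := by linarith
    constructor
    · have h6 : 1 / L - 1 / Real.log (j : ℝ) = (Real.log (j : ℝ) - L) / (L * Real.log (j : ℝ)) := by
        field_simp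
      have h7 : (Real.log (j : ℝ) - L) / (L * Real.log (j : ℝ)) ≤ Real.log (j : ℝ) - L := by
        apply div_le_self (by linarith)
        nlinarith
      linarith
    · exact one_div_le_one_div_of_le hL0 hj3
  have hcard : (Finset.Ioc m (m + h)).card = h := by rw [Nat.card_Ioc]; omega
  have hs1 : ∑ j ∈ Finset.Ioc m (m + h), 1 / Real.log (j : ℝ) ≤ h * (1 / L) := by
    calc ∑ j ∈ Finset.Ioc m (m + h), 1 / Real.log (j : ℝ) ≤ ∑ _j ∈ Finset.Ioc m (m + h), 1 / L :=
          Finset.sum_le_sum fun j hj => (hterm j hj).2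
      _ = h * (1 / L) := by rw [Finset.sum_const, hcard, nsmul_eq_mul]
  have hs2 : h * (1 / L - (h : ℝ) / m) ≤ ∑ j ∈ Finset.Ioc m (m + h), 1 / Real.log (j : ℝ) := by
    calc h * (1 / L - (h : ℝ) / m) = ∑ _j ∈ Finset.Ioc m (m + h), (1 / L - (h : ℝ) / m) := by
          rw [Finset.sum_const, hcard, nsmul_eq_mul]
      _ ≤ _ := Finset.sum_le_sum fun j hj => (hterm j hj).1
  have hmean : mean lam c m = c * L ^ lam * (1 / L) := by
    unfold mean
    rw [← hL, Real.rpow_sub_one hL0.ne']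
    ring
  have hLinv : 1 / L ≤ 1 := by rw [div_le_one hL0]; exact hm1
  have hLinv0 : 0 < 1 / L := by positivity
  have hq : (h : ℝ) * ((h : ℝ) / m) ≤ 1 := by
    rw [← mul_div_assoc, div_le_one hm0]
    nlinarith
  rw [hmean, abs_le]
  constructor
  · nlinarith
  · nlinarith

/-- **Cramér's model**: the almost sure upper bound for the number of deviating windows. -/
theorem model_upper [IsProbabilityMeasure μ] {E : ℕ → Set Ω} (hE : ∀ n, MeasurableSet (E n))
    (hind : iIndepSet E μ) (hp : ∀ n : ℕ, 3 ≤ n → μ.real (E n) = 1 / Real.log (n : ℝ))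
    {lam c t A : ℝ} (hlam : 1 < lam) (hc : 0 < c) (ht0 : 0 < t)
    (ht : t ≤ 1 / 2) (hA : 0 ≤ A) (hA2 : t = 1 / 2 → 1 / 2 < A)
    (hlt : (lam - 1) * (1 - 2 * t) < 1) :
    ∀ᵐ ω ∂μ, ∀ e : ℝ, 0 < e → ∀ᶠ X : ℕ in atTop, ∀ s : ℝ, (s = 1 ∨ s = -1) →
      (devCount {n | ω ∈ E n} lam c t A s X : ℝ) ≤
      X * Real.exp (-(1 - e) * rateH lam c t A X) := by
  have h := ae_good_upper hE hind hlam hc ht0 ht hA hA2 hlt Set.univ (by
    intro ε hε
    filter_upwards [window_sum hlam hc,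
      (tendsto_dev (A := A) hlam hc ht hA).eventually_ge_atTop (2 / ε),
      eventually_ge_atTop 3] with m h1 h2 h3 _
    have h4 : ∑ j ∈ Finset.Ioc m (m + hl lam c m), μ.real (E j) =
        ∑ j ∈ Finset.Ioc m (m + hl lam c m), 1 / Real.log (j : ℝ) := by
      apply Finset.sum_congr rfl
      intro j hj
      rw [Finset.mem_Ioc] at hj
      exact hp j (by omega)
    rw [h4]
    rw [div_le_iff₀ hε] at h2
    linarith)
  filter_upwards [h] with ω hω e he
  filter_upwards [hω e he] with X hX s hs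
  have h5 := hX s hs
  simp only [Set.mem_univ, true_and] at h5
  exact h5

end Pool.Agent.LibH
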