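import Pool.Agent.LibH.Short

/-!
The Omega lemma at the level `z = (log h)^C`, both signs, one prime erased.
-/

namespace Pool.Agent.LibH

open Filter Topology MeasureTheory
open Pool.Gal99 (pr zs sieve_dev d10_L d10_LL d10_logx d10_floor zs_upper)
open Pool.Agent.LibG2.PS (erz GG EE R er V mellin_EE Pz V_pos V_le_one R_rec V_erz prime_of_mem
  measurable_EE Pz_erz not_dvd_erz int_low' int_high' integrable' GG_real)

variable {C : ℝ}

lemma f_lt_one (τ : ℝ) (hτ : 0 < τ) (hτ1 : τ ≠ 1) : τ * (1 - Real.log τ) < 1 := by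
  have h1 := Real.log_lt_sub_one_of_pos (inv_pos.2 hτ) (by
    intro h
    exact hτ1 (inv_eq_one.1 h))
  rw [Real.log_inv] at h1
  have h2 : 1 - Real.log τ < τ⁻¹ := by linarith
  calc τ * (1 - Real.log τ) < τ * τ⁻¹ := mul_lt_mul_of_pos_left h2 hτ
    _ = 1 := mul_inv_cancel₀ hτ.ne'

/-- `w / log h → 0` -/
theorem w_small (hC : 0 < C) (ξ : ℝ) :
    Tendsto (fun h => ws C ξ h / Real.log (h : ℝ)) atTop (𝓝 0) := by
  have h1 : Tendsto (fun h => (1 + ξ) / ll C h) atTop (𝓝 0) :=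
    tendsto_const_nhds.div_atTop (ll_atTop hC)
  refine h1.congr' ?_
  filter_upwards [d10_L.eventually_gt_atTop 0, (ll_atTop hC).eventually_gt_atTop 0] with h hL hl
  unfold ws us
  field_simp

/-- short windows -/
theorem short_bound (hC4 : 2 < C) (κ : ℝ) (hκ : 0 < κ) : ∀ᶠ h : ℕ in atTop,
    ∀ p ∈ pr (zz C h), ∀ m r : ℕ, r ≤ h → |(R (erz (zz C h) p) m r : ℝ) -
      r * V (erz (zz C h) p)| ≤ (h : ℝ) ^ (1 - 1 / C + κ) := by
  have hC : 0 < C := by linarith
  have hC1 : 1 / C < 1 / 2 := by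
    rw [div_lt_div_iff₀ hC (by norm_num)]
    linarith
  have hb : Tendsto (fun h => Real.log (2 * vs C 1 h) / ll C h) atTop (𝓝 (1 / C)) := by
    have h1 : Tendsto (fun h => Real.log 2 / ll C h + Real.log (vs C 1 h) / ll C h) atTop
        (𝓝 (0 + 1 / C)) :=
      (tendsto_const_nhds.div_atTop (ll_atTop hC)).add (beta hC 1 one_pos)
    rw [zero_add] at h1
    refine h1.congr' ?_
    filter_upwards [(v_atTop hC 1 one_pos).eventually_gt_atTop 0] with h hv
    rw [Real.log_mul two_ne_zero hv.ne', add_div]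
  have hzs : Tendsto (fun h : ℕ => Real.log h ^ C / (h : ℝ) ^ (1 / 2 : ℝ)) atTop (𝓝 0) := by
    have h1 := (isLittleO_log_rpow_rpow_atTop (s := 1 / 2) C (by norm_num)).tendsto_div_nhds_zero
    exact h1.comp tendsto_natCast_atTop_atTop
  have hlog : Tendsto (fun h : ℕ => Real.log h / (h : ℝ) ^ (κ / 4)) atTop (𝓝 0) := by
    have h1 := (isLittleO_log_rpow_atTop (r := κ / 4) (by positivity)).tendsto_div_nhds_zero
    exact h1.comp tendsto_natCast_atTop_atTop
  filter_upwards [level (C := C) (by linarith) 1 2 1 one_pos two_pos (by norm_num) one_pos,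
    (w_small hC 1).eventually_lt_const (show (0 : ℝ) < κ / 12 by positivity),
    (ll_atTop hC).eventually_ge_atTop 1, (w_atTop hC 1 one_pos).eventually_gt_atTop 0,
    hb.eventually_const_lt (show 1 / C - κ / 2 < 1 / C by linarith),
    hzs.eventually_lt_const one_pos, hlog.eventually_lt_const (show (0 : ℝ) < 1 / 32 by norm_num),
    d10_L.eventually_ge_atTop 1, zz3 hC, eventually_ge_atTop 1]
    with h hlev hw hl hw0 hbb hz hlg hL hz3 hh1 p hp m r hr
  obtain ⟨hb0, hb1, hlev⟩ := hlev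
  set b := Real.log (2 * vs C 1 h) / ll C h with hbdef
  have hhR : (1 : ℝ) ≤ h := by exact_mod_cast hh1
  have hh0 : (0 : ℝ) < h := by linarith
  have hLpos : 0 < Real.log (h : ℝ) := by linarith
  set P := ∏ p ∈ pr (zz C h), (1 + (p : ℝ) ^ (b - 1)) with hP
  have hP0 : 0 ≤ P := Finset.prod_nonneg (fun p _ => by positivity)
  -- `z^b P ≤ exp (3 w)`
  have hzP : (zz C h : ℝ) ^ b * P ≤ Real.exp (3 * ws C 1 h) := by
    have hl2 : 0 < Real.log 2 := Real.log_pos (by norm_num)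
    have h2 : Real.log 2 ≤ 1 := by have := Real.log_two_lt_d9; linarith
    rw [abs_of_pos hl2] at hlev
    have h3 : 1 ≤ ll C h / Real.log 2 := by
      rw [le_div_iff₀ hl2]
      linarith
    have hA : 0 ≤ (zz C h : ℝ) ^ b * P := by positivity
    have h4 : (zz C h : ℝ) ^ b * P * Real.exp (-(2 * Real.log 2) * ws C 1 h) ≤
        Real.exp ((2 * (1 - Real.log 2) + 1) * ws C 1 h) := by
      refine le_trans ?_ hlev
      have he : 0 < Real.exp (-(2 * Real.log 2) * ws C 1 h) := Real.exp_pos _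
      calc (zz C h : ℝ) ^ b * P * Real.exp (-(2 * Real.log 2) * ws C 1 h)
          ≤ (20 * ((zz C h : ℝ) ^ b * P)) * (Real.exp (-(2 * Real.log 2) * ws C 1 h) *
            (ll C h / Real.log 2)) := by
            apply mul_le_mul (by linarith) (le_mul_of_one_le_right he.le h3) he.le (by positivity)
        _ = _ := by ring
    have h5 : Real.exp ((2 * (1 - Real.log 2) + 1) * ws C 1 h) =
        Real.exp (3 * ws C 1 h) * Real.exp (-(2 * Real.log 2) * ws C 1 h) := by
      rw [← Real.exp_add]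
      congr 1
      ring
    rw [h5] at h4
    exact le_of_mul_le_mul_right h4 (Real.exp_pos _)
  have h3w : Real.exp (3 * ws C 1 h) ≤ (h : ℝ) ^ (κ / 4) := by
    rw [Real.rpow_def_of_pos hh0]
    apply Real.exp_le_exp.2
    rw [div_lt_iff₀ hLpos] at hw
    linarith
  have hzh : (zz C h : ℝ) ≤ (h : ℝ) ^ (1 / 2 : ℝ) := by
    have h2 : (zz C h : ℝ) ≤ Real.log h ^ C := Nat.floor_le (by positivity)
    have h3 : 0 < (h : ℝ) ^ (1 / 2 : ℝ) := by positivity
    rw [div_lt_one h3] at hz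
    linarith
  have hzh' : zz C h ≤ h := by
    have h2 : (h : ℝ) ^ (1 / 2 : ℝ) ≤ (h : ℝ) := by
      nth_rewrite 2 [← Real.rpow_one (h : ℝ)]
      exact Real.rpow_le_rpow_of_exponent_le hhR (by norm_num)
    exact_mod_cast hzh.trans h2
  set Q : ℝ := (h : ℝ) ^ (1 - 1 / C + 3 * κ / 4) with hQ
  have hQ1 : (h : ℝ) ^ (1 / 2 : ℝ) ≤ Q := by
    apply Real.rpow_le_rpow_of_exponent_le hhR
    linarith
  have hQone : 1 ≤ Q := (Real.one_le_rpow hhR (by norm_num)).trans hQ1
  have hD : ∀ m r : ℕ, r ≤ h →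
      |(Pool.Gal99.R (zz C h) m r : ℝ) - r * Pool.Gal99.V (zz C h)| ≤ 5 * Q := by
    intro m r hr
    have h1 := short_full (z := zz C h) (by omega) hzh' b hb0.le (by linarith) m r hr
    have h2 : (zz C h : ℝ) ^ b * (h : ℝ) ^ (1 - b) * P ≤ Q := by
      calc (zz C h : ℝ) ^ b * (h : ℝ) ^ (1 - b) * P = ((zz C h : ℝ) ^ b * P) * (h : ℝ) ^ (1 - b) := by
            ring
        _ ≤ (h : ℝ) ^ (κ / 4) * (h : ℝ) ^ (1 - 1 / C + κ / 2) := by
            apply mul_le_mul (hzP.trans h3w) _ (by positivity) (by positivity)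
            exact Real.rpow_le_rpow_of_exponent_le hhR (by linarith)
        _ = Q := by
            rw [← Real.rpow_add hh0, hQ]
            congr 1
            ring
    calc _ ≤ _ := h1
      _ = (zz C h : ℝ) + 4 * ((zz C h : ℝ) ^ b * (h : ℝ) ^ (1 - b) * P) := by ring
      _ ≤ Q + 4 * Q := by linarith
      _ = 5 * Q := by ring
  set n := Nat.clog 2 h with hn
  have hhn : h ≤ 2 ^ n := Nat.le_pow_clog (by norm_num) h
  have h1 := short_erz hp hD n m r hr (hr.trans hhn)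
  have hn1 : (n : ℝ) ≤ 2 * Real.log h + 1 := by
    rcases Nat.lt_or_ge 1 h with h2 | h2
    · have h3 : 2 ^ (n - 1) < h := by
        rw [hn]
        have := Nat.pow_pred_clog_lt_self (b := 2) (by norm_num) h2
        simpa using this
      have h4 : ((n : ℝ) - 1) * Real.log 2 ≤ Real.log h := by
        have h5 : ((2 : ℝ) ^ (n - 1)) ≤ h := by exact_mod_cast h3.le
        have h6 := Real.log_le_log (by positivity) h5
        rw [Real.log_pow] at h6
        have h7 : 1 ≤ n := by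
          rw [hn]
          exact Nat.clog_pos (by norm_num) h2
        rw [Nat.cast_sub h7] at h6
        simpa using h6
      have h5 : (1 : ℝ) / 2 ≤ Real.log 2 := by have := Real.log_two_gt_d9; linarith
      have hn1 : (1 : ℝ) ≤ n := by
        have h7 : 1 ≤ n := by
          rw [hn]
          exact Nat.clog_pos (by norm_num) h2
        exact_mod_cast h7
      nlinarith
    · have h3 : h = 1 := by omega
      rw [hn, h3]
      simp
  have hlg' : 32 * Real.log h ≤ (h : ℝ) ^ (κ / 4) := by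
    rw [div_lt_iff₀ (by positivity)] at hlg
    linarith
  calc _ ≤ 1 + n * (5 * Q + 1) := h1
    _ ≤ 1 + (2 * Real.log h + 1) * (6 * Q) := by
        have h2 : 0 ≤ 5 * Q + 1 := by linarith
        have h3 : 5 * Q + 1 ≤ 6 * Q := by linarith
        have h4 : (n : ℝ) * (5 * Q + 1) ≤ (2 * Real.log h + 1) * (6 * Q) :=
          mul_le_mul hn1 h3 h2 (by linarith)
        linarith
    _ ≤ (32 * Real.log h) * Q := by nlinarith
    _ ≤ (h : ℝ) ^ (κ / 4) * Q := mul_le_mul_of_nonneg_right hlg' (by linarith)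
    _ = (h : ℝ) ^ (1 - 1 / C + κ) := by
        rw [hQ, ← Real.rpow_add hh0]
        congr 1
        ring

/-- **The Omega lemma, both signs, one prime erased, level `z = (log h)^C`, `C > 2`.** -/
theorem omega_sgn (hC4 : 2 < C) (ε₀ : ℝ) (hε₀ : 0 < ε₀) : ∀ᶠ h : ℕ in atTop, 3 ≤ zz C h ∧
    ∀ p ∈ pr (zz C h), ∀ σ : ℝ, (σ = 1 ∨ σ = -1) → ∃ m : ℕ,
      (h : ℝ) ^ (-((1 + ε₀) / C)) ≤ σ * er (erz (zz C h) p) m h := by
  have hC : 0 < C := by linarith
  set ξ := ε₀ / (6 / 5) with hξdef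
  have hξ : 0 < ξ := by positivity
  have hε2 : ε₀ = 6 / 5 * ξ := by rw [hξdef]; ring
  have h2ξ : 11 / 10 * ξ < ε₀ := by rw [hε2]; linarith
  set ρ := ξ * (9 / 10 - 6 / 5 / C) with hρdef
  have hC12 : 1 / C < 1 / 2 := by
    rw [div_lt_div_iff₀ hC (by norm_num)]
    linarith
  have hρ : 0 < ρ := by
    have h1 : 6 / 5 / C = 6 / 5 * (1 / C) := by ring
    have : 0 < 9 / 10 - 6 / 5 / C := by rw [h1]; linarith
    positivity
  set τ₁ := (1 + 9 / 10 * ξ) / (1 + ξ) with hτ₁def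
  set τ₂ := (1 + 11 / 10 * ξ) / (1 + ξ) with hτ₂def
  have hτ₁ : 0 < τ₁ := by positivity
  have hτ₂ : 0 < τ₂ := by positivity
  have hτ₁1 : τ₁ < 1 := by
    rw [hτ₁def, div_lt_one (by positivity)]
    linarith
  have hτ₂1 : 1 < τ₂ := by
    rw [hτ₂def, one_lt_div (by positivity)]
    linarith
  have hl1 : Real.log τ₁ < 0 := Real.log_neg hτ₁ hτ₁1
  have hl2 : 0 < Real.log τ₂ := Real.log_pos hτ₂1
  set c := min (min (1 - τ₁ * (1 - Real.log τ₁)) (1 - τ₂ * (1 - Real.log τ₂))) 1 with hcdef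
  have hc : 0 < c := by
    refine lt_min (lt_min ?_ ?_) one_pos
    · have := f_lt_one τ₁ hτ₁ hτ₁1.ne
      linarith
    · have := f_lt_one τ₂ hτ₂ hτ₂1.ne'
      linarith
  have hc1 : c ≤ 1 := min_le_right _ _
  have hcτ₁ : τ₁ * (1 - Real.log τ₁) ≤ 1 - c := by
    have : c ≤ 1 - τ₁ * (1 - Real.log τ₁) := (min_le_left _ _).trans (min_le_left _ _)
    linarith
  have hcτ₂ : τ₂ * (1 - Real.log τ₂) ≤ 1 - c := by
    have : c ≤ 1 - τ₂ * (1 - Real.log τ₂) := (min_le_left _ _).trans (min_le_right _ _)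
    linarith
  set b₃ : ℝ := (1 / C + 1 / 2) / 2 with hb₃
  have hb₃1 : b₃ < 1 / 2 := by rw [hb₃]; linarith
  have hw := w_atTop hC ξ hξ
  have hreal : Tendsto (fun h => Real.log 2 / ws C ξ h + Real.log (ll C h + 1) / ws C ξ h) atTop
      (𝓝 (0 + 0)) := (tendsto_const_nhds.div_atTop hw).add (logl_w hC ξ hξ)
  have hexp : Tendsto (fun h => Real.exp (c / 2 * ws C ξ h)) atTop atTop :=
    Real.tendsto_exp_atTop.comp (hw.const_mul_atTop (by positivity))
  have hpow : Tendsto (fun h : ℕ => (h : ℝ) ^ (ρ / 2)) atTop atTop :=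
    (tendsto_rpow_atTop (by positivity)).comp tendsto_natCast_atTop_atTop
  filter_upwards [level (C := C) (by linarith) ξ τ₁ (c / 4) hξ hτ₁ hτ₁1.ne (by positivity),
    level (C := C) (by linarith) ξ τ₂ (c / 4) hξ hτ₂ hτ₂1.ne' (by positivity),
    main hC4 ξ (c / 4) hξ (by positivity), eta hC ε₀ ξ (11 / 10 * ξ) hξ h2ξ,
    hreal.eventually_lt_const (show (0 : ℝ) + 0 < 1 / 4 by norm_num),
    hexp.eventually_ge_atTop 6, hw.eventually_gt_atTop 0, (ll_atTop hC).eventually_gt_atTop 0,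
    (logv_atTop hC ξ hξ).eventually_ge_atTop 1, (v_atTop hC ξ hξ).eventually_gt_atTop 0,
    (beta hC ξ hξ).eventually_le_const (show 1 / C < b₃ by rw [hb₃]; linarith), zz3 hC,
    d10_L.eventually_gt_atTop 0, short_bound hC4 (ρ / 2) (by positivity),
    hpow.eventually_gt_atTop 2, eventually_gt_atTop 1]
    with h hlev1 hlev2 hmain heta hrl hex hw0 hl hlv1 hv0 hb hz3 hL hshort hpow2 hh1
  obtain ⟨hb10, hb11, hlev1⟩ := hlev1
  obtain ⟨hb20, hb21, hlev2⟩ := hlev2
  set L := Real.log (h : ℝ) with hLdef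
  set β := Real.log (vs C ξ h) / ll C h with hβdef
  set b₁ := Real.log (τ₁ * vs C ξ h) / ll C h with hb₁def
  set b₂ := Real.log (τ₂ * vs C ξ h) / ll C h with hb₂def
  have hβ0 : 0 < β := by positivity
  have hh0 : (0 : ℝ) < h := by
    have : 0 < h := by omega
    exact_mod_cast this
  have hd1 : β - b₁ = -Real.log τ₁ / ll C h := by
    rw [hβdef, hb₁def, Real.log_mul hτ₁.ne' hv0.ne', ← sub_div]
    congr 1
    ring
  have hd2 : β - b₂ = -Real.log τ₂ / ll C h := by
    rw [hβdef, hb₂def, Real.log_mul hτ₂.ne' hv0.ne', ← sub_div]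
    congr 1
    ring
  have hb1β : b₁ < β := by
    have : 0 < -Real.log τ₁ / ll C h := div_pos (by linarith) hl
    linarith
  have hb2β : β < b₂ := by
    have : 0 < Real.log τ₂ / ll C h := div_pos hl2 hl
    rw [neg_div] at hd2
    linarith
  set y₁ : ℝ := (h : ℝ) ^ (1 + 9 / 10 * ξ) with hy₁def
  set y₂ : ℝ := (h : ℝ) ^ (1 + 11 / 10 * ξ) with hy₂def
  have hy1 : 0 < y₁ := by positivity
  have hy12 : y₁ < y₂ := by
    apply Real.rpow_lt_rpow_of_exponent_lt
    · exact_mod_cast hh1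
    · linarith
  have hu : us C h = L / ll C h := rfl
  have hwu : ws C ξ h = (1 + ξ) * us C h := rfl
  have hp1 : y₁ ^ (β - b₁) = Real.exp (-(τ₁ * Real.log τ₁) * ws C ξ h) := by
    rw [hy₁def, ← Real.rpow_mul hh0.le, Real.rpow_def_of_pos hh0, hd1, hwu, hu, hτ₁def]
    congr 1
    rw [← hLdef, ← hτ₁def]
    have : τ₁ * (1 + ξ) = 1 + 9 / 10 * ξ := by
      rw [hτ₁def]
      field_simp
    rw [← this]
    field_simp
  have hp2 : y₂ ^ (β - b₂) = Real.exp (-(τ₂ * Real.log τ₂) * ws C ξ h) := by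
    rw [hy₂def, ← Real.rpow_mul hh0.le, Real.rpow_def_of_pos hh0, hd2, hwu, hu, hτ₂def]
    congr 1
    rw [← hLdef, ← hτ₂def]
    have : τ₂ * (1 + ξ) = 1 + 11 / 10 * ξ := by
      rw [hτ₂def]
      field_simp
    rw [← this]
    field_simp
  have hp3 : y₂ ^ β = Real.exp ((1 + 11 / 10 * ξ) * (us C h * Real.log (vs C ξ h))) := by
    rw [hy₂def, ← Real.rpow_mul hh0.le, Real.rpow_def_of_pos hh0, hβdef, hu]
    congr 1
    rw [← hLdef]
    field_simp
  have hz1 : 1 ≤ zz C h := by omega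
  refine ⟨hz3, ?_⟩
  intro p hp σ hσ
  have hmain := hmain p hp
  have hshort := hshort p hp
  have hI1 := int_low' hz1 hp β b₁ y₁ hb10.le hb1β hb11 hy1
  have hI2 := int_high' hz1 hp β b₂ y₂ hb21 hβ0 hb2β (hy1.trans hy12)
  set E := Real.exp ((1 - 3 * c / 4) * ws C ξ h) with hEdef
  have hI1' : ∫ y in Set.Ioc 0 y₁, |EE (erz (zz C h) p) y| * y ^ (β - 2) ≤ E := by
    refine hI1.trans ?_
    have e1 : y₁ ^ (β - b₁) / (β - b₁) =
        Real.exp (-(τ₁ * Real.log τ₁) * ws C ξ h) * (ll C h / |Real.log τ₁|) := by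
      rw [hp1, hd1, abs_of_neg hl1]
      rw [div_div_eq_mul_div, mul_div_assoc]
    rw [e1]
    refine hlev1.trans (Real.exp_le_exp.2 ?_)
    apply mul_le_mul_of_nonneg_right _ hw0.le
    linarith
  have hI2' : ∫ y in Set.Ioi y₂, |EE (erz (zz C h) p) y| * y ^ (β - 2) ≤ E := by
    refine hI2.trans ?_
    have e1 : y₂ ^ (β - b₂) / (b₂ - β) =
        Real.exp (-(τ₂ * Real.log τ₂) * ws C ξ h) * (ll C h / |Real.log τ₂|) := by
      have e2 : b₂ - β = Real.log τ₂ / ll C h := by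
        have : b₂ - β = -(β - b₂) := by ring
        rw [this, hd2]
        ring
      rw [hp2, e2, abs_of_pos hl2]
      rw [div_div_eq_mul_div, mul_div_assoc]
    rw [e1]
    refine hlev2.trans (Real.exp_le_exp.2 ?_)
    apply mul_le_mul_of_nonneg_right _ hw0.le
    linarith
  have hone : 1 ≤ E := Real.one_le_exp (mul_nonneg (by linarith) hw0.le)
  have hre : ‖zs ((1 - β : ℝ) : ℂ)‖ * ‖GG (erz (zz C h) p) ((1 - β : ℝ) : ℂ)‖ ≤ E := by
    have h1 := zs_upper ((1 - β : ℝ) : ℂ) (by simp; linarith) (by simp; linarith)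
    have h2 := GG_real (erz (zz C h) p) (1 - β) (by linarith)
    rw [Complex.ofReal_re] at h1
    have h3 : 1 / (1 - (1 - β)) + 1 / (1 - β) ≤ 2 * (ll C h + 1) := by
      have e1 : 1 / (1 - (1 - β)) ≤ ll C h := by
        rw [show 1 - (1 - β) = β by ring, hβdef, one_div_div]
        exact div_le_self hl.le hlv1
      have e2 : 1 / (1 - β) ≤ 2 := by
        rw [div_le_iff₀ (by linarith)]
        linarith
      linarith
    have h4 : 2 * (ll C h + 1) ≤ E := by
      have e1 : 2 * (ll C h + 1) = Real.exp (Real.log 2 + Real.log (ll C h + 1)) := by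
        rw [Real.exp_add, Real.exp_log (by norm_num), Real.exp_log (by linarith)]
      rw [e1]
      apply Real.exp_le_exp.2
      rw [← add_div, div_lt_iff₀ hw0] at hrl
      refine hrl.le.trans (mul_le_mul_of_nonneg_right ?_ hw0.le)
      linarith
    calc ‖zs ((1 - β : ℝ) : ℂ)‖ * ‖GG (erz (zz C h) p) ((1 - β : ℝ) : ℂ)‖
        ≤ ‖zs ((1 - β : ℝ) : ℂ)‖ * 1 := mul_le_mul_of_nonneg_left h2 (norm_nonneg _)
      _ ≤ E := by rw [mul_one]; exact h1.trans (h3.trans h4)
  have hsum : 1 + 2 * (E + E) + ‖zs ((1 - β : ℝ) : ℂ)‖ *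
      ‖GG (erz (zz C h) p) ((1 - β : ℝ) : ℂ)‖ ≤
      ‖zs ((1 - β : ℝ) + (Real.pi / ll C h : ℝ) * Complex.I)‖ *
        ‖GG (erz (zz C h) p) ((1 - β : ℝ) + (Real.pi / ll C h : ℝ) * Complex.I)‖ := by
    refine le_trans ?_ hmain
    have e1 : Real.exp ((1 - c / 4) * ws C ξ h) = Real.exp (c / 2 * ws C ξ h) * E := by
      rw [hEdef, ← Real.exp_add]
      congr 1
      ring
    rw [e1]
    have hE0 : 0 < E := by linarith
    have h6E : 6 * E ≤ Real.exp (c / 2 * ws C ξ h) * E := mul_le_mul_of_nonneg_right hex hE0.le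
    linarith
  have hσ1 : |σ| = 1 := by rcases hσ with rfl | rfl <;> simp
  obtain ⟨y, hy1y, hyy2, hEy⟩ := exists_large_sgn (erz (zz C h) p) σ hσ1 β (Real.pi / ll C h) y₁ y₂
    E E 1 hβ0 (by linarith) (integrable' hz1 hp β hβ0 (by linarith)) hy1 hy12 hI1' hI2' one_pos hsum
  have hη8 : (h : ℝ) ^ (-((1 + ε₀) / C)) ≤ 1 * β / (4 * y₂ ^ β) / 2 := by
    have h1 : Real.exp (-(Real.log 8 + Real.log (ll C h + 1) + (1 + 11 / 10 * ξ) *
        (us C h * Real.log (vs C ξ h)))) ≤ 1 * β / (4 * y₂ ^ β) / 2 := by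
      have h2 : 1 / (ll C h + 1) ≤ β := by
        rw [hβdef, div_le_div_iff₀ (by linarith) hl]
        have h3 := mul_le_mul_of_nonneg_right hlv1 (show 0 ≤ ll C h + 1 by linarith)
        linarith
      have e1 : Real.exp (-(Real.log 8 + Real.log (ll C h + 1) + (1 + 11 / 10 * ξ) *
        (us C h * Real.log (vs C ξ h)))) = 1 / (ll C h + 1) / (8 * y₂ ^ β) := by
        rw [hp3, Real.exp_neg, Real.exp_add, Real.exp_add, Real.exp_log (by norm_num),
          Real.exp_log (by linarith)]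
        field_simp
      rw [e1]
      have hy2β : 0 < y₂ ^ β := Real.rpow_pos_of_pos (hy1.trans hy12) _
      calc 1 / (ll C h + 1) / (8 * y₂ ^ β) ≤ β / (8 * y₂ ^ β) := by gcongr
        _ = 1 * β / (4 * y₂ ^ β) / 2 := by
          field_simp
          norm_num
    rw [Real.rpow_def_of_pos hh0]
    refine le_trans (Real.exp_le_exp.2 ?_) h1
    rw [← hLdef]
    linarith
  have hη0 : 0 < (h : ℝ) ^ (-((1 + ε₀) / C)) := by positivity
  have hypos : 0 < y := hy1.trans hy1y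
  set η := 1 * β / (4 * y₂ ^ β) with hηdef
  have hηpos : 0 < η := by linarith
  have hhy : (h : ℝ) ^ (1 - 1 / C + ρ / 2) + 1 < η * y / 2 := by
    have h1 : (h : ℝ) ^ (1 - 1 / C + ρ) < η * y / 2 := by
      calc (h : ℝ) ^ (1 - 1 / C + ρ) = (h : ℝ) ^ (-((1 + ε₀) / C)) * y₁ := by
            rw [hy₁def, ← Real.rpow_add hh0]
            congr 1
            rw [hρdef, hε2]
            field_simp
            ring
        _ < η / 2 * y := by
            apply mul_lt_mul' hη8 hy1y hy1.le (by linarith)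
        _ = η * y / 2 := by ring
    have h2 : (h : ℝ) ^ (1 - 1 / C + ρ / 2) + 1 ≤ (h : ℝ) ^ (1 - 1 / C + ρ) := by
      have e1 : (h : ℝ) ^ (1 - 1 / C + ρ) = (h : ℝ) ^ (1 - 1 / C + ρ / 2) * (h : ℝ) ^ (ρ / 2) := by
        rw [← Real.rpow_add hh0]
        congr 1
        ring
      have e2 : 1 ≤ (h : ℝ) ^ (1 - 1 / C + ρ / 2) := by
        apply Real.one_le_rpow (by exact_mod_cast hh1.le)
        linarith
      rw [e1]
      have e3 := mul_le_mul_of_nonneg_left hpow2.le (show 0 ≤ (h : ℝ) ^ (1 - 1 / C + ρ / 2) by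
        linarith)
      linarith
    linarith
  obtain ⟨m, hm⟩ := window_sgn (erz (zz C h) p) σ hσ h (by omega) y η _ hypos hηpos (by
    rw [mul_comm]; exact hEy) hshort hhy
  exact ⟨m, hη8.trans hm⟩

end Pool.Agent.LibH
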