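import Pool.Agent.LibH.Freq

/-!
Rows of the matrix near `N`: the main statement and the frequencies.
-/

namespace Pool.Agent.LibH

open Filter Topology MeasureTheory
open Pool.Agent.LibMaier Pool.Agent.LibG2

/-- **Rows near `N`.** -/
theorem rows (hrem : Rem) : ∃ U₀ K : ℝ, 0 < K ∧ ∀ U : ℝ, U₀ ≤ U → ∀ z : ℕ, 2 ≤ z → (z : ℝ) ≤ U →
    ∃ p : ℕ, p.Prime ∧ p ∣ primorial z ∧ ∀ N : ℕ, U ^ 4 ≤ Real.log N → Real.log N ≤ Real.exp U →
      ∀ q m h : ℕ, q * p = primorial z → m < q → (h : ℝ) ≤ Real.exp U →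
        ∃ (k1 k2 : ℕ) (w : ℕ → ℝ), 1 ≤ k1 ∧ Real.exp (-(8 * U)) * N ≤ k1 ∧
          (∀ t ∈ Finset.Ico k1 k2, 0 ≤ w t ∧ k1 * w t ≤ 1 ∧ t * q + m ∈ Finset.Icc 1 N ∧
            Real.exp (-(8 * U)) * N ≤ ((t * q + m : ℕ) : ℝ)) ∧
          ∑ t ∈ Finset.Ico k1 k2, w t ≤ 1 ∧
          1 - 1 / Real.log N ≤ ∑ t ∈ Finset.Ico k1 k2, w t ∧
          (1 - K * U / Real.log N) * ((q : ℝ) / q.totient * (RQs q m h).card / Real.log N) ≤
            ∑ t ∈ Finset.Ico k1 k2, w t * (pw (t * q + m) h : ℝ) ∧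
          ∑ t ∈ Finset.Ico k1 k2, w t * (pw (t * q + m) h : ℝ) ≤
            (1 + K * U / Real.log N) * ((q : ℝ) / q.totient * (RQs q m h).card / Real.log N) := by
  obtain ⟨U₁, hU₁⟩ := good_sum
  obtain ⟨K₀, hK₀, hS0⟩ := hrem
  refine ⟨max (max U₁ (K₀ + 2)) 100, 8 * K₀ + 200, by positivity, ?_⟩
  intro U hU z hz hzU
  have hUa : U₁ ≤ U := (le_max_left _ _).trans ((le_max_left _ _).trans hU)
  have hUb : K₀ + 2 ≤ U := (le_max_right _ _).trans ((le_max_left _ _).trans hU)
  have hUc : 100 ≤ U := (le_max_right _ _).trans hU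
  have hU0 : 0 < U := by linarith
  obtain ⟨p, hp, hpd, hg⟩ := hU₁ U hUa z hz hzU
  refine ⟨p, hp, hpd, ?_⟩
  intro N hN1 hN2 q m h hq hmq hh
  have hU4 : 100 * U ^ 3 ≤ U ^ 4 := by nlinarith [pow_pos hU0 3]
  have hU3 : 100 * U ^ 2 ≤ U ^ 3 := by nlinarith [mul_pos hU0 hU0]
  have hU2 : 100 * U ≤ U ^ 2 := by nlinarith
  obtain ⟨L, hL⟩ : ∃ L, L = Real.log N := ⟨_, rfl⟩
  rw [← hL] at hN1 hN2 ⊢
  obtain ⟨x, hx⟩ : ∃ x, x = L - 3 * U := ⟨_, rfl⟩
  have hLbig : 1000000 * U ≤ L := by linarith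
  have hL0 : 0 < L := by linarith
  have hxlow : U ^ 3 ≤ x := by linarith
  have hxup : x ≤ Real.exp U := by linarith
  have hx1 : 1 ≤ x := by linarith
  have hx0 : 0 < x := by linarith
  have hq1 : 1 ≤ q := by omega
  have : NeZero q := ⟨by omega⟩
  have hqR : (1 : ℝ) ≤ q := by exact_mod_cast hq1
  have hsum := hg q hq x hxlow hxup
  have herr := err_small hUc hxlow hxup
  have hSx := abs_le.1 (hS0 x hx1)
  have hqz : ∀ r : ℕ, r.Prime → r ∣ q → (r : ℝ) ≤ z := by
    intro r hr hrq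
    have h1 : r ∣ primorial z := hrq.trans ⟨p, hq.symm⟩
    exact_mod_cast (hr.dvd_primorial_iff).1 h1
  have hzx : (z : ℝ) < Real.exp (x - U) := by
    have h1 := Real.add_one_le_exp (x - U)
    linarith
  have hφ : (0 : ℝ) < q.totient := by
    exact_mod_cast Nat.totient_pos.2 hq1
  have hqexp : (q : ℝ) ≤ Real.exp (2 * U) := q_le_exp hzU hq
  have hφq : (q.totient : ℝ) ≤ Real.exp (2 * U) := by
    have h1 : (q.totient : ℝ) ≤ q := by exact_mod_cast Nat.totient_le q
    linarith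
  have hexpL : Real.exp (-U) ≤ 1 / L := by
    rw [one_div, Real.exp_neg]
    exact inv_anti₀ hL0 hN2
  have hE3 : q.totient * Real.exp (-(3 * U)) ≤ 1 / L := by
    calc q.totient * Real.exp (-(3 * U)) ≤ Real.exp (2 * U) * Real.exp (-(3 * U)) := by gcongr
      _ = Real.exp (-U) := by rw [← Real.exp_add]; ring_nf
      _ ≤ 1 / L := hexpL
  have hE4 : Real.exp (-(3 * U)) ≤ 1 / L :=
    le_trans (Real.exp_le_exp.2 (by linarith)) hexpL
  have hK0x : K₀ / x ≤ 2 * K₀ / L := by
    rw [div_le_div_iff₀ hx0 hL0]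
    nlinarith
  have hUL : 1 / L ≤ U / L := by
    apply div_le_div_of_nonneg_right _ hL0.le
    linarith
  have hK0L : 2 * K₀ / L ≤ 2 * K₀ * U / L := by
    apply div_le_div_of_nonneg_right _ hL0.le
    nlinarith
  have hN0 : (0 : ℝ) < N := by
    rcases Nat.eq_zero_or_pos N with h0 | h0
    · rw [h0] at hL
      simp at hL
      linarith
    · exact_mod_cast h0
  have hNexp : (N : ℝ) = Real.exp L := by rw [hL, Real.exp_log hN0]
  obtain ⟨y, hy⟩ : ∃ y, y = Real.exp (3 * U) := ⟨_, rfl⟩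
  have hy0 : 0 < y := by rw [hy]; exact Real.exp_pos _
  have hmh : ((m + h : ℕ) : ℝ) ≤ y := by
    push_cast
    have hmq' : (m : ℝ) ≤ q := by exact_mod_cast hmq.le
    have h1 : Real.exp (2 * U) ≤ Real.exp (3 * U - 1) := Real.exp_le_exp.2 (by linarith)
    have h2 : Real.exp U ≤ Real.exp (3 * U - 1) := Real.exp_le_exp.2 (by linarith)
    have h3 : 2 * Real.exp (3 * U - 1) ≤ y := by
      rw [hy]
      have h4 : Real.exp (3 * U) = Real.exp 1 * Real.exp (3 * U - 1) := by
        rw [← Real.exp_add]; ring_nf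
      rw [h4]
      apply mul_le_mul_of_nonneg_right _ (Real.exp_pos (3 * U - 1)).le
      have := Real.add_one_le_exp (1 : ℝ)
      linarith
    linarith
  obtain ⟨k1, k2, hk1pos, hk12, hk1a, hk1b, hrow1, hrow2, hlow, hupp, hk2N⟩ :=
    params hUc hLbig hx hqR hqexp
  have hk1R : (1 : ℝ) ≤ k1 := by exact_mod_cast hk1pos
  have hyk : y ≤ k1 := by
    rw [hy]
    exact le_trans (Real.exp_le_exp.2 (by linarith)) hk1b
  have hk1N : Real.exp (-(8 * U)) * N ≤ k1 := by
    rw [hNexp, ← Real.exp_add]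
    refine le_trans (Real.exp_le_exp.2 ?_) hk1a
    linarith
  have hlow' : ((k1 * q : ℕ) : ℝ) + y ≤ Real.exp (x - U) := by rw [hy]; exact hlow
  have hW : ∑ t ∈ Finset.Ico k1 k2, Wt q x t ≤ 1 := by
    apply sum_Wt_le_one x hk12
    apply Real.log_le_log (by positivity)
    have h1 : (k1 : ℝ) ≤ k2 := by exact_mod_cast hk12
    gcongr
  have hWlow := weight_low hUc hL0 hN2 hqR hk1pos hk12 (by linarith) hupp
  refine ⟨k1, k2, Wt q x, hk1pos, hk1N, ?_, hW, hWlow, ?_, ?_⟩
  · intro t ht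
    rw [Finset.mem_Ico] at ht
    have ht1 : (k1 : ℝ) ≤ t := by exact_mod_cast ht.1
    have ht0 : (0 : ℝ) < t := by linarith
    have h4 := Wt_nonneg (q := q) (k := t) hq1 (by omega) x
    refine ⟨h4, ?_, ?_, ?_⟩
    · have h1 := Wt_le_inv (q := q) (k := t) hq1 (by omega) x
      rw [le_div_iff₀ ht0, mul_comm] at h1
      exact (mul_le_mul_of_nonneg_right ht1 h4).trans h1
    · rw [Finset.mem_Icc]
      constructor
      · have : 1 ≤ t * q := Nat.mul_pos (by omega) (by omega)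
        omega
      · have h1 : ((t * q + m : ℕ) : ℝ) ≤ N := by
          have hmq' : (m : ℝ) ≤ q := by exact_mod_cast hmq.le
          have h2 : (t : ℝ) ≤ k2 := by exact_mod_cast ht.2.le
          have h3 : (t : ℝ) * q ≤ k2 * q := mul_le_mul_of_nonneg_right h2 (by linarith)
          rw [hNexp]
          push_cast
          linarith
        exact_mod_cast h1
    · push_cast
      have h2 : (t : ℝ) ≤ t * q := le_mul_of_one_le_right ht0.le hqR
      have h3 : (0 : ℝ) ≤ m := Nat.cast_nonneg _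
      linarith
  · have hM1 : (1 - (2 * K₀ + 3) * U / L) / q.totient ≤ (1 / (q.totient : ℝ)) * (S0 x - err x U -
      ∑ χ ∈ (Finset.univ : Finset (DirichletCharacter ℂ q)).erase 1, ‖SS χ x‖) - err x U := by
      have h1 : (1 / (q.totient : ℝ)) * (S0 x - err x U -
          ∑ χ ∈ (Finset.univ : Finset (DirichletCharacter ℂ q)).erase 1, ‖SS χ x‖) - err x U =
          (S0 x - err x U -
          ∑ χ ∈ (Finset.univ : Finset (DirichletCharacter ℂ q)).erase 1, ‖SS χ x‖ -
          q.totient * err x U) / q.totient := by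
        field_simp
      rw [h1]
      apply div_le_div_of_nonneg_right _ hφ.le
      have h2 : q.totient * err x U ≤ q.totient * Real.exp (-(3 * U)) :=
        mul_le_mul_of_nonneg_left herr hφ.le
      have h3 : (2 * K₀ + 3) * U / L = 2 * K₀ * U / L + 3 * (U / L) := by ring
      linarith [hSx.1]
    have hmat := matrix_ge (q := q) (k1 := k1) (k2 := k2) (m := m) (h := h) hq1 hk1pos (x := x)
      (V := U) (y := y) hU0.le hx0 hmh hyk hrow1 hrow2 hlow' hupp
      (fun a ha => ap_primes_ge (q := q) ha (x := x) (V := U) (z := z) hx1 hU0.le hqz hzx)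
    exact (low_bound hUc hLbig (by linarith) hN2 hx hK₀ hUb hy hk1b hφ (Nat.cast_nonneg _)
      (Nat.cast_nonneg _) hM1).trans hmat
  · have hM1 : (1 / (q.totient : ℝ)) * (S0 x +
        ∑ χ ∈ (Finset.univ : Finset (DirichletCharacter ℂ q)).erase 1, ‖SS χ x‖) ≤
        (1 + (2 * K₀ + 1) * U / L) / q.totient := by
      have h1 : (1 / (q.totient : ℝ)) * (S0 x +
          ∑ χ ∈ (Finset.univ : Finset (DirichletCharacter ℂ q)).erase 1, ‖SS χ x‖) =
          (S0 x + ∑ χ ∈ (Finset.univ : Finset (DirichletCharacter ℂ q)).erase 1,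
          ‖SS χ x‖) / q.totient := by
        ring
      rw [h1]
      apply div_le_div_of_nonneg_right _ hφ.le
      have h3 : (2 * K₀ + 1) * U / L = 2 * K₀ * U / L + U / L := by ring
      linarith [hSx.2]
    have hmat := matrix_le (q := q) (k1 := k1) (k2 := k2) (m := m) (h := h) hq1 hk1pos (x := x)
      (V := U + 1) (y := y) (by linarith) hy0.le hmh hyk (by linarith) hrow1 hrow2
      (fun a ha => ap_sum_le ha x)
    exact hmat.trans (upp_bound hUc hLbig (by linarith) hN2 hx hK₀ hUb hy hk1b hφ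
      (Nat.cast_nonneg _) (Nat.cast_nonneg _) hM1)

/-- counting rows by their weights -/
lemma count_rows {s : Finset ℕ} {w : ℕ → ℝ} {k1 q m N : ℕ} {P : ℕ → Prop} [DecidablePred P]
    (hq : 1 ≤ q) {W : ℝ} (hk1 : ∀ t ∈ s, k1 * w t ≤ 1)
    (hmem : ∀ t ∈ s, t * q + m ∈ Finset.Icc 1 N)
    (hW : W ≤ ∑ t ∈ s.filter (fun t => P (t * q + m)), w t) :
    k1 * W ≤ (((Finset.Icc 1 N).filter P).card : ℝ) := by
  classical
  have hinj : Set.InjOn (fun t : ℕ => t * q + m) (s.filter (fun t => P (t * q + m)) : Finset ℕ) := by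
    intro t _ t' _ h
    simp only [add_left_inj] at h
    exact Nat.eq_of_mul_eq_mul_right hq h
  have h1 : (s.filter (fun t => P (t * q + m))).card ≤ ((Finset.Icc 1 N).filter P).card := by
    rw [← Finset.card_image_of_injOn hinj]
    apply Finset.card_le_card
    intro n hn
    rw [Finset.mem_image] at hn
    obtain ⟨t, ht, rfl⟩ := hn
    rw [Finset.mem_filter] at ht
    rw [Finset.mem_filter]
    exact ⟨hmem t ht.1, ht.2⟩
  have h2 : (k1 : ℝ) * ∑ t ∈ s.filter (fun t => P (t * q + m)), w t ≤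
      ((s.filter (fun t => P (t * q + m))).card : ℝ) := by
    rw [Finset.mul_sum]
    calc ∑ t ∈ s.filter (fun t => P (t * q + m)), (k1 : ℝ) * w t
        ≤ ∑ t ∈ s.filter (fun t => P (t * q + m)), (1 : ℝ) := by
          apply Finset.sum_le_sum
          intro t ht
          exact hk1 t (Finset.mem_filter.1 ht).1
      _ = _ := by simp
  have h3 : (k1 : ℝ) * W ≤ k1 * ∑ t ∈ s.filter (fun t => P (t * q + m)), w t :=
    mul_le_mul_of_nonneg_left hW (Nat.cast_nonneg _)
  have h4 : ((s.filter (fun t => P (t * q + m))).card : ℝ) ≤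
      (((Finset.Icc 1 N).filter P).card : ℝ) := by exact_mod_cast h1
  linarith

/-- **Frequencies of the deviations**, from one class modulo `P(z)/p`. -/
theorem core_freq (hrem : Rem) : ∃ U₀ K : ℝ, 0 < K ∧ ∀ U : ℝ, U₀ ≤ U → ∀ z : ℕ, 2 ≤ z →
    (z : ℝ) ≤ U → ∃ p : ℕ, p.Prime ∧ p ∣ primorial z ∧ ∀ N : ℕ, U ^ 4 ≤ Real.log N →
      Real.log N ≤ Real.exp U → ∀ q m h : ℕ, q * p = primorial z → m < q → 1 ≤ h →
        (h : ℝ) ≤ Real.exp U → ∀ η : ℝ, K * U / Real.log N ≤ η → η ≤ 1 →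
        ((1 + η) * h ≤ (q : ℝ) / q.totient * (RQs q m h).card →
          Real.exp (-(12 * U)) * N ≤ (((Finset.Icc 1 N).filter (fun n =>
            (1 + η / 2) * (h / Real.log N) ≤ (pw n h : ℝ) ∧
              Real.exp (-(8 * U)) * N ≤ (n : ℝ))).card : ℝ)) ∧
        ((q : ℝ) / q.totient * (RQs q m h).card ≤ (1 - η) * h →
          Real.exp (-(12 * U)) * N ≤ (((Finset.Icc 1 N).filter (fun n =>
            (pw n h : ℝ) ≤ (1 - η / 2) * (h / Real.log N) ∧
              Real.exp (-(8 * U)) * N ≤ (n : ℝ))).card : ℝ)) := by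
  obtain ⟨U₁, K, hK, hrows⟩ := rows hrem
  refine ⟨max U₁ 100, 8 * K + 8, by positivity, ?_⟩
  intro U hU z hz hzU
  have hUa : U₁ ≤ U := (le_max_left _ _).trans hU
  have hUc : 100 ≤ U := (le_max_right _ _).trans hU
  have hU0 : 0 < U := by linarith
  obtain ⟨p, hp, hpd, hg⟩ := hrows U hUa z hz hzU
  refine ⟨p, hp, hpd, ?_⟩
  intro N hN1 hN2 q m h hq hmq hh1 hh η hη hη1
  obtain ⟨k1, k2, w, hk1, hk1N, hw, hW1, hW2, hlow, hupp⟩ := hg N hN1 hN2 q m h hq hmq hh
  obtain ⟨L, hL⟩ : ∃ L, L = Real.log N := ⟨_, rfl⟩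
  rw [← hL] at hN1 hN2 hη hW2 hlow hupp ⊢
  have hU4 : 1000000 * U ≤ U ^ 4 := by
    have h1 : 100 * U ≤ U ^ 2 := by nlinarith
    have h2 : 100 * U ^ 2 ≤ U ^ 3 := by nlinarith [mul_pos hU0 hU0]
    have h3 : 100 * U ^ 3 ≤ U ^ 4 := by nlinarith [pow_pos hU0 3]
    linarith
  have hL0 : 0 < L := by linarith
  have hh0 : (0 : ℝ) < h := by exact_mod_cast hh1
  have hq1 : 1 ≤ q := by omega
  have hKL : K * U / L ≤ η / 8 := by
    have h1 : (8 * K + 8) * U / L = 8 * (K * U / L) + 8 * (U / L) := by ring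
    have h2 : 0 ≤ U / L := by positivity
    rw [h1] at hη
    linarith
  have h1L : 1 / L ≤ η / 8 := by
    have h1 : (8 * K + 8) * U / L = 8 * (K * U / L) + 8 * (U / L) := by ring
    have h2 : 1 / L ≤ U / L := by
      apply div_le_div_of_nonneg_right _ hL0.le
      linarith
    have h3 : 0 ≤ K * U / L := by positivity
    rw [h1] at hη
    linarith
  have hη0 : 0 < η := by
    have : 0 < 1 / L := by positivity
    linarith
  have hN0 : (0 : ℝ) ≤ N := Nat.cast_nonneg _
  -- the final count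
  have hfin : Real.exp (-(12 * U)) * N ≤ k1 * (η / (8 * L)) := by
    have h1 : Real.exp (-(4 * U)) ≤ η / (8 * L) := by
      rw [le_div_iff₀ (by positivity)]
      have h2 : Real.exp (-(4 * U)) * (8 * L) ≤ Real.exp (-U) := by
        have h3 : (8 : ℝ) ≤ Real.exp (2 * U) := by
          have := Real.add_one_le_exp (2 * U)
          linarith
        calc Real.exp (-(4 * U)) * (8 * L) ≤ Real.exp (-(4 * U)) * (Real.exp (2 * U) *
              Real.exp U) := by gcongr
          _ = Real.exp (-U) := by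
              rw [← Real.exp_add, ← Real.exp_add]
              congr 1
              ring
      have h4 : Real.exp (-U) ≤ 1 / L := by
        rw [one_div, Real.exp_neg]
        exact inv_anti₀ hL0 hN2
      linarith
    calc Real.exp (-(12 * U)) * N = (Real.exp (-(8 * U)) * N) * Real.exp (-(4 * U)) := by
          have : Real.exp (-(12 * U)) = Real.exp (-(8 * U)) * Real.exp (-(4 * U)) := by
            rw [← Real.exp_add]
            congr 1
            ring
          rw [this]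
          ring
      _ ≤ k1 * (η / (8 * L)) := by
          apply mul_le_mul hk1N h1 (Real.exp_pos _).le (by positivity)
  set Λ₀ : ℝ := (q : ℝ) / q.totient * (RQs q m h).card / L with hΛ₀
  have hΛ0 : 0 ≤ Λ₀ := by positivity
  have hlam : 0 < (h : ℝ) / L := by positivity
  have hpwh : ∀ n : ℕ, (pw n h : ℝ) ≤ h := by
    intro n
    have : pw n h ≤ h := by
      unfold pw
      refine (Finset.card_filter_le _ _).trans ?_
      rw [Nat.card_Ioc]
      omega
    exact_mod_cast this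
  constructor
  · intro hhigh
    have h1 : (1 + η) * ((h : ℝ) / L) ≤ Λ₀ := by
      rw [hΛ₀, ← mul_div_assoc]
      exact div_le_div_of_nonneg_right hhigh hL0.le
    have h2 : (1 + 3 * η / 4) * ((h : ℝ) / L) ≤ ∑ t ∈ Finset.Ico k1 k2, w t *
        (pw (t * q + m) h : ℝ) := by
      refine le_trans ?_ hlow
      calc (1 + 3 * η / 4) * ((h : ℝ) / L) ≤ ((1 - K * U / L) * (1 + η)) * ((h : ℝ) / L) := by
            apply mul_le_mul_of_nonneg_right _ hlam.le
            nlinarith
        _ = (1 - K * U / L) * ((1 + η) * ((h : ℝ) / L)) := by ring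
        _ ≤ (1 - K * U / L) * Λ₀ := by
            apply mul_le_mul_of_nonneg_left h1
            linarith
    have h3 := freq_high (s := Finset.Ico k1 k2) (w := w) (f := fun t => (pw (t * q + m) h : ℝ))
      (A := (1 + 3 * η / 4) * ((h : ℝ) / L)) (B := (1 + η / 2) * ((h : ℝ) / L)) (H := h)
      (fun t ht => (hw t ht).1) hW1 (by positivity) (fun t _ => hpwh _) hh0.le h2
    have h4 : η / (8 * L) ≤ ∑ t ∈ (Finset.Ico k1 k2).filter (fun t =>
        (1 + η / 2) * ((h : ℝ) / L) ≤ (pw (t * q + m) h : ℝ)), w t := by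
      have h5 : (1 + 3 * η / 4) * ((h : ℝ) / L) - (1 + η / 2) * ((h : ℝ) / L) =
          h * (η / (4 * L)) := by
        field_simp
        ring
      rw [h5] at h3
      have h6 := le_of_mul_le_mul_left h3 hh0
      refine le_trans ?_ h6
      apply div_le_div_of_nonneg_left hη0.le (by positivity)
      linarith
    refine hfin.trans (count_rows (s := Finset.Ico k1 k2) (w := w) (k1 := k1) (q := q) (m := m)
      (N := N) (P := fun n => (1 + η / 2) * (h / L) ≤ (pw n h : ℝ) ∧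
        Real.exp (-(8 * U)) * N ≤ (n : ℝ)) hq1 (fun t ht => (hw t ht).2.1)
      (fun t ht => (hw t ht).2.2.1) ?_)
    refine h4.trans (le_of_eq ?_)
    apply Finset.sum_congr _ (fun _ _ => rfl)
    apply Finset.filter_congr
    intro t ht
    constructor
    · intro h5
      exact ⟨h5, (hw t ht).2.2.2⟩
    · intro h5
      exact h5.1
  · intro hlo
    have h1 : Λ₀ ≤ (1 - η) * ((h : ℝ) / L) := by
      rw [hΛ₀, ← mul_div_assoc]
      exact div_le_div_of_nonneg_right hlo hL0.le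
    have h2 : ∑ t ∈ Finset.Ico k1 k2, w t * (pw (t * q + m) h : ℝ) ≤
        (1 - 3 * η / 4) * ((h : ℝ) / L) := by
      refine hupp.trans ?_
      calc (1 + K * U / L) * Λ₀ ≤ (1 + K * U / L) * ((1 - η) * ((h : ℝ) / L)) := by
            apply mul_le_mul_of_nonneg_left h1 (by positivity)
        _ = ((1 + K * U / L) * (1 - η)) * ((h : ℝ) / L) := by ring
        _ ≤ (1 - 3 * η / 4) * ((h : ℝ) / L) := by
            apply mul_le_mul_of_nonneg_right _ hlam.le
            nlinarith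
    have hB : 0 < (1 - η / 2) * ((h : ℝ) / L) := by
      apply mul_pos _ hlam
      linarith
    have h3 := freq_low (s := Finset.Ico k1 k2) (w := w) (f := fun t => (pw (t * q + m) h : ℝ))
      (A := (1 - 3 * η / 4) * ((h : ℝ) / L)) (B := (1 - η / 2) * ((h : ℝ) / L))
      (fun t ht => (hw t ht).1) hB (fun t _ => Nat.cast_nonneg _) h2
    have h4 : η / (8 * L) ≤ ∑ t ∈ (Finset.Ico k1 k2).filter (fun t =>
        (pw (t * q + m) h : ℝ) ≤ (1 - η / 2) * ((h : ℝ) / L)), w t := by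
      have h5 : (1 - 3 * η / 4) * ((h : ℝ) / L) / ((1 - η / 2) * ((h : ℝ) / L)) ≤ 1 - η / 4 := by
        rw [div_le_iff₀ hB, ← mul_assoc]
        apply mul_le_mul_of_nonneg_right _ hlam.le
        nlinarith
      have h6 : η / (8 * L) ≤ η / 8 := by
        apply div_le_div_of_nonneg_left hη0.le (by norm_num)
        linarith
      linarith
    refine hfin.trans (count_rows (s := Finset.Ico k1 k2) (w := w) (k1 := k1) (q := q) (m := m)
      (N := N) (P := fun n => (pw n h : ℝ) ≤ (1 - η / 2) * (h / L) ∧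
        Real.exp (-(8 * U)) * N ≤ (n : ℝ)) hq1 (fun t ht => (hw t ht).2.1)
      (fun t ht => (hw t ht).2.2.1) ?_)
    refine h4.trans (le_of_eq ?_)
    apply Finset.sum_congr _ (fun _ _ => rfl)
    apply Finset.filter_congr
    intro t ht
    constructor
    · intro h5
      exact ⟨h5, (hw t ht).2.2.2⟩
    · intro h5
      exact h5.1

end Pool.Agent.LibH
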