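import Pool.Agent.LibH.Omega
import Pool.Agent.LibH.Freq2
import Pool.Agent.LibG2.Final
import Pool.Agent.LibH.Dev

/-!
Frequencies of the deviations in windows of a fixed length.
-/

namespace Pool.Agent.LibH

open Filter Topology MeasureTheory
open Pool.Agent.LibMaier Pool.Agent.LibG2

/-- **Windows of a fixed length `h`.** -/
theorem fixed (hrem : Rem) (C ε₀ : ℝ) (hC : 2 < C) (hε₀ : 0 < ε₀) :
    ∃ (H₀ : ℕ) (U₀ K : ℝ), 0 < K ∧ ∀ h : ℕ, H₀ ≤ h → ∀ U : ℝ, U₀ ≤ U → Real.log h ^ C ≤ U →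
      (h : ℝ) ≤ Real.exp U → ∀ N : ℕ, U ^ 4 ≤ Real.log N → Real.log N ≤ Real.exp U →
        K * U / Real.log N ≤ (h : ℝ) ^ (-((1 + ε₀) / C)) →
        Real.exp (-(12 * U)) * N ≤ (((Finset.Icc 1 N).filter (fun n =>
            (1 + (h : ℝ) ^ (-((1 + ε₀) / C)) / 2) * (h / Real.log N) ≤ (pw n h : ℝ) ∧
              Real.exp (-(8 * U)) * N ≤ (n : ℝ))).card : ℝ) ∧
        Real.exp (-(12 * U)) * N ≤ (((Finset.Icc 1 N).filter (fun n =>
            (pw n h : ℝ) ≤ (1 - (h : ℝ) ^ (-((1 + ε₀) / C)) / 2) * (h / Real.log N) ∧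
              Real.exp (-(8 * U)) * N ≤ (n : ℝ))).card : ℝ) := by
  have hC0 : 0 < C := by linarith
  obtain ⟨U₀, K, hK, hcore⟩ := core_freq hrem
  obtain ⟨H₁, hH₁⟩ := eventually_atTop.1 (omega_sgn hC ε₀ hε₀)
  refine ⟨max H₁ 1, U₀, K, hK, ?_⟩
  intro h hh U hU hzU hhU N hN1 hN2 hη
  have hh1 : 1 ≤ h := (le_max_right _ _).trans hh
  have hhR : (1 : ℝ) ≤ h := by exact_mod_cast hh1
  have hh0 : (0 : ℝ) < h := by linarith
  obtain ⟨hz3, hom⟩ := hH₁ h ((le_max_left _ _).trans hh)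
  have hlog0 : 0 ≤ Real.log (h : ℝ) := Real.log_nonneg hhR
  have hzle : (zz C h : ℝ) ≤ U :=
    (Nat.floor_le (Real.rpow_nonneg hlog0 _)).trans hzU
  obtain ⟨p, hp, hpd, hcl⟩ := hcore U hU (zz C h) (by omega) hzle
  have hpmem : p ∈ Pool.Gal99.pr (zz C h) := by
    unfold Pool.Gal99.pr
    rw [Finset.mem_filter, Finset.mem_range]
    have := (hp.dvd_primorial_iff).1 hpd
    exact ⟨by omega, hp⟩
  set s := PS.erz (zz C h) p with hs
  set q := PS.Pz s with hq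
  have hqp : q * p = primorial (zz C h) := by
    have h1 := PS.Pz_erz hpmem
    rw [Pz_eq_primorial] at h1
    rw [h1, mul_comm]
  have hq0 : 0 < q := Nat.pos_of_ne_zero (PS.D1_sqf s).ne_zero
  have hqR : (0 : ℝ) < q := by exact_mod_cast hq0
  have hφ : (0 : ℝ) < q.totient := by exact_mod_cast Nat.totient_pos.2 hq0
  have hVq : PS.V s = (q.totient : ℝ) / q := V_eq s
  set η : ℝ := (h : ℝ) ^ (-((1 + ε₀) / C)) with hηdef
  have hη1 : η ≤ 1 := by
    apply Real.rpow_le_one_of_one_le_of_nonpos hhR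
    have : 0 < (1 + ε₀) / C := by positivity
    linarith
  have her : ∀ m : ℕ, (q : ℝ) / q.totient * (RQs q (m % q) h).card = (1 + PS.er s m h) * h := by
    intro m
    unfold PS.er
    rw [hVq]
    have h2 : (PS.R s m h : ℝ) = (RQs q (m % q) h).card := by
      rw [RQs_mod]
      rfl
    rw [h2]
    field_simp
    ring
  constructor
  · obtain ⟨m, hm⟩ := hom p hpmem 1 (Or.inl rfl)
    rw [one_mul] at hm
    refine (hcl N hN1 hN2 q (m % q) h hqp (Nat.mod_lt m hq0) hh1 hhU η hη hη1).1 ?_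
    rw [her]
    apply mul_le_mul_of_nonneg_right _ hh0.le
    linarith
  · obtain ⟨m, hm⟩ := hom p hpmem (-1) (Or.inr rfl)
    refine (hcl N hN1 hN2 q (m % q) h hqp (Nat.mod_lt m hq0) hh1 hhU η hη hη1).2 ?_
    rw [her]
    apply mul_le_mul_of_nonneg_right _ hh0.le
    linarith

lemma pw_mono {n h h' : ℕ} (hh : h ≤ h') : pw n h ≤ pw n h' := by
  unfold pw
  apply Finset.card_le_card
  apply Finset.filter_subset_filter
  apply Finset.Ioc_subset_Ioc_right
  omega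

lemma cnt_primes (n h : ℕ) : cnt {p : ℕ | p.Prime} n h = pw n h := by
  unfold cnt pw
  congr 1
  ext a
  simp only [Finset.mem_filter, Set.mem_ofPred_eq]

end Pool.Agent.LibH
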