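import Pool.Agent.LibH.Fixed

/-!
Frequencies of the deviations in the windows `(m, m + c (log m)^λ]`.
-/

namespace Pool.Agent.LibH

open Filter Topology MeasureTheory
open Pool.Agent.LibMaier Pool.Agent.LibG2

/-- `(log L)^a / L^b → 0` -/
lemma log_pow_div (a b : ℝ) (hb : 0 < b) :
    Tendsto (fun L : ℝ => Real.log L ^ a * L ^ (-b)) atTop (𝓝 0) := by
  have h1 := (isLittleO_log_rpow_rpow_atTop a hb).tendsto_div_nhds_zero
  refine h1.congr' ?_
  filter_upwards [eventually_gt_atTop 0] with L hL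
  rw [Real.rpow_neg hL.le, div_eq_mul_inv]

/-- the conditions on `L = log X` -/
lemma conds (lam c t A C C' E ε₀ K U₀ H₀ : ℝ) (hlam : 1 < lam) (hc : 0 < c) (ht : 0 < t)
    (ht1 : t < 1) (hC : 2 < C) (hCC' : C < C') (hC'E : C' < E)
    (ha : lam * ((1 + ε₀) / C) < (lam - 1) * t) (ha1 : lam * ((1 + ε₀) / C) < 1) (hε₀ : 0 < ε₀) :
    ∀ᶠ L : ℝ in atTop, 1 ≤ L ∧ 1 ≤ Real.log L ∧ U₀ ≤ Real.log L ^ C' ∧
      (Real.log L ^ C') ^ 4 ≤ L ∧ L ≤ Real.exp (Real.log L ^ C') ∧
      c * L ^ lam ≤ Real.exp (Real.log L ^ C') ∧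
      (|Real.log c| + lam * Real.log L) ^ C ≤ Real.log L ^ C' ∧
      K * Real.log L ^ C' / L ≤ (c * L ^ lam) ^ (-((1 + ε₀) / C)) ∧
      16 * lam * (Real.log L ^ C' / L) + 2 / (c * L ^ (lam - 1)) +
        (c * L ^ (lam - 1)) ^ (-t) * Real.log L ^ A ≤ (c * L ^ lam) ^ (-((1 + ε₀) / C)) / 2 ∧
      12 * Real.log L ^ C' ≤ Real.log L ^ E ∧ 8 * lam * Real.log L ^ C' ≤ L / 2 ∧
      H₀ + 1 ≤ c * (L / 2) ^ lam ∧ 3 ≤ Real.exp (L / 2) := by
  have hC0 : 0 < C := by linarith
  have hC'0 : 0 < C' := by linarith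
  set g : ℝ := (1 + ε₀) / C with hg
  have hg0 : 0 < g := by positivity
  set a : ℝ := lam * g with hadef
  have ha0 : 0 < a := by positivity
  have hlogt : Tendsto (fun L : ℝ => Real.log L) atTop atTop := Real.tendsto_log_atTop
  have hpowt : Tendsto (fun L : ℝ => Real.log L ^ C') atTop atTop :=
    (tendsto_rpow_atTop hC'0).comp hlogt
  -- eventual facts
  have e1 : ∀ᶠ L : ℝ in atTop, (Real.log L ^ C') ^ 4 ≤ L := by
    have h1 := log_pow_div (C' * 4) 1 one_pos
    filter_upwards [h1.eventually_le_const one_pos, eventually_gt_atTop 0,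
      hlogt.eventually_gt_atTop 0] with L h2 h3 h4
    rw [Real.rpow_neg h3.le, Real.rpow_one, ← div_eq_mul_inv, div_le_one h3] at h2
    rw [← Real.rpow_natCast, ← Real.rpow_mul h4.le]
    exact_mod_cast h2
  have e2 : ∀ᶠ x : ℝ in atTop, |Real.log c| + lam * x + x ≤ x ^ C' := by
    have h1 : Tendsto (fun x : ℝ => x ^ (C' - 1)) atTop atTop := tendsto_rpow_atTop (by linarith)
    filter_upwards [h1.eventually_ge_atTop (|Real.log c| + lam + 1), eventually_ge_atTop 1]
      with x h2 h3
    have h4 : x ^ C' = x ^ (C' - 1) * x := by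
      rw [← Real.rpow_add_one (by linarith)]
      congr 1
      ring
    rw [h4]
    have h5 := mul_le_mul_of_nonneg_right h2 (show 0 ≤ x by linarith)
    have h6 : |Real.log c| ≤ |Real.log c| * x := le_mul_of_one_le_right (abs_nonneg _) h3
    nlinarith
  have e3 : ∀ᶠ x : ℝ in atTop, (|Real.log c| + lam * x) ^ C ≤ x ^ C' := by
    have h1 : Tendsto (fun x : ℝ => x ^ (C' - C)) atTop atTop := tendsto_rpow_atTop (by linarith)
    filter_upwards [h1.eventually_ge_atTop ((|Real.log c| + lam) ^ C), eventually_ge_atTop 1]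
      with x h2 h3
    have h4 : x ^ C' = x ^ (C' - C) * x ^ C := by
      rw [← Real.rpow_add (by linarith)]
      congr 1
      ring
    rw [h4]
    calc (|Real.log c| + lam * x) ^ C ≤ ((|Real.log c| + lam) * x) ^ C := by
          apply Real.rpow_le_rpow (by positivity) _ hC0.le
          have h6 : |Real.log c| ≤ |Real.log c| * x := le_mul_of_one_le_right (abs_nonneg _) h3
          linarith
      _ = (|Real.log c| + lam) ^ C * x ^ C :=
          Real.mul_rpow (by positivity) (by linarith)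
      _ ≤ _ := mul_le_mul_of_nonneg_right h2 (by positivity)
  have hsplit : ∀ L : ℝ, 0 < L → (c * L ^ lam) ^ (-g) = c ^ (-g) * L ^ (-a) := by
    intro L hL
    rw [Real.mul_rpow hc.le (by positivity), ← Real.rpow_mul hL.le]
    congr 2
    rw [hadef]
    ring
  have hcg : 0 < c ^ (-g) := by positivity
  have e4 : ∀ᶠ L : ℝ in atTop, K * Real.log L ^ C' / L ≤ (c * L ^ lam) ^ (-g) := by
    have h1 := (log_pow_div C' (1 - a) (by linarith)).const_mul K
    rw [mul_zero] at h1
    filter_upwards [h1.eventually_le_const hcg, eventually_gt_atTop 0] with L h2 h3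
    rw [hsplit L h3]
    have h4 : K * Real.log L ^ C' / L = K * (Real.log L ^ C' * L ^ (-(1 - a))) * L ^ (-a) := by
      rw [mul_assoc, mul_assoc, ← Real.rpow_add h3]
      have : -(1 - a) + -a = -1 := by ring
      rw [this, Real.rpow_neg_one]
      ring
    rw [h4]
    exact mul_le_mul_of_nonneg_right h2 (by positivity)
  have e5 : ∀ᶠ L : ℝ in atTop, 16 * lam * (Real.log L ^ C' / L) + 2 / (c * L ^ (lam - 1)) +
      (c * L ^ (lam - 1)) ^ (-t) * Real.log L ^ A ≤ (c * L ^ lam) ^ (-g) / 2 := by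
    have h1 := (log_pow_div C' (1 - a) (by linarith)).const_mul (16 * lam)
    have h2 := (log_pow_div 0 (lam - 1 - a) (by nlinarith)).const_mul (2 / c)
    have h3 := (log_pow_div A ((lam - 1) * t - a) (by linarith)).const_mul (c ^ (-t))
    have h4 := (h1.add h2).add h3
    rw [mul_zero, mul_zero, mul_zero, zero_add, zero_add] at h4
    filter_upwards [h4.eventually_le_const (show 0 < c ^ (-g) / 2 by positivity),
      eventually_gt_atTop 0] with L h5 h6
    rw [hsplit L h6]
    have k1 : 16 * lam * (Real.log L ^ C' / L) =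
        16 * lam * (Real.log L ^ C' * L ^ (-(1 - a))) * L ^ (-a) := by
      rw [mul_assoc, mul_assoc, mul_assoc, mul_assoc, ← Real.rpow_add h6]
      have : -(1 - a) + -a = -1 := by ring
      rw [this, Real.rpow_neg_one]
      ring
    have k2 : 2 / (c * L ^ (lam - 1)) =
        2 / c * (Real.log L ^ (0 : ℝ) * L ^ (-(lam - 1 - a))) * L ^ (-a) := by
      rw [Real.rpow_zero, one_mul, mul_assoc, ← Real.rpow_add h6]
      have : -(lam - 1 - a) + -a = -(lam - 1) := by ring
      rw [this, Real.rpow_neg h6.le]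
      field_simp
    have k3 : (c * L ^ (lam - 1)) ^ (-t) * Real.log L ^ A =
        c ^ (-t) * (Real.log L ^ A * L ^ (-((lam - 1) * t - a))) * L ^ (-a) := by
      rw [mul_assoc, mul_assoc, ← Real.rpow_add h6]
      have : -((lam - 1) * t - a) + -a = (lam - 1) * (-t) := by ring
      rw [this, Real.mul_rpow hc.le (by positivity), ← Real.rpow_mul h6.le]
      ring
    rw [k1, k2, k3, ← add_mul, ← add_mul]
    calc _ ≤ c ^ (-g) / 2 * L ^ (-a) := mul_le_mul_of_nonneg_right h5 (by positivity)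
      _ = _ := by ring
  have e6 : ∀ᶠ x : ℝ in atTop, 12 * x ^ C' ≤ x ^ E := by
    have h1 : Tendsto (fun x : ℝ => x ^ (E - C')) atTop atTop := tendsto_rpow_atTop (by linarith)
    filter_upwards [h1.eventually_ge_atTop 12, eventually_gt_atTop 0] with x h2 h3
    have h4 : x ^ E = x ^ (E - C') * x ^ C' := by
      rw [← Real.rpow_add h3]
      congr 1
      ring
    rw [h4]
    exact mul_le_mul_of_nonneg_right h2 (by positivity)
  have e7 : ∀ᶠ L : ℝ in atTop, 8 * lam * Real.log L ^ C' ≤ L / 2 := by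
    have h1 := (log_pow_div C' 1 one_pos).const_mul (8 * lam)
    rw [mul_zero] at h1
    filter_upwards [h1.eventually_le_const (show (0 : ℝ) < 1 / 2 by norm_num),
      eventually_gt_atTop 0] with L h2 h3
    rw [Real.rpow_neg h3.le, Real.rpow_one, ← mul_assoc, ← div_eq_mul_inv, div_le_iff₀ h3] at h2
    linarith
  have e8 : Tendsto (fun L : ℝ => c * (L / 2) ^ lam) atTop atTop :=
    ((tendsto_rpow_atTop (by linarith)).comp (tendsto_id.atTop_div_const two_pos)).const_mul_atTop
      hc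
  have e9 : Tendsto (fun L : ℝ => Real.exp (L / 2)) atTop atTop :=
    Real.tendsto_exp_atTop.comp (tendsto_id.atTop_div_const two_pos)
  filter_upwards [eventually_ge_atTop 1, hlogt.eventually_ge_atTop 1, hpowt.eventually_ge_atTop U₀,
    e1, hlogt.eventually e2, hlogt.eventually e3, e4, e5, hlogt.eventually e6, e7,
    e8.eventually_ge_atTop (H₀ + 1), e9.eventually_ge_atTop 3]
    with L h1 h2 h3 h4 h5 h6 h7 h8 h9 h10 h11 h12
  have hL0 : 0 < L := by linarith
  refine ⟨h1, h2, h3, h4, ?_, ?_, h6, h7, h8, h9, h10, h11, h12⟩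
  · nth_rewrite 1 [← Real.exp_log hL0]
    apply Real.exp_le_exp.2
    have : 0 ≤ |Real.log c| + lam * Real.log L := by positivity
    linarith
  · have h13 : c * L ^ lam = Real.exp (Real.log c + lam * Real.log L) := by
      rw [Real.exp_add, Real.exp_log hc, Real.rpow_def_of_pos hL0]
      ring_nf
    rw [h13]
    apply Real.exp_le_exp.2
    have := le_abs_self (Real.log c)
    linarith

end Pool.Agent.LibH
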