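import Pool.Agent.LibH.Rows

/-!
Rows of the matrix near `N`: weighted counts with relative error `O(U / log N)`.
-/

namespace Pool.Agent.LibH

open Filter Topology MeasureTheory
open Pool.Agent.LibMaier Pool.Agent.LibG2

/-- the hypothesis: the prime number theorem with remainder, in Gaussian form -/
def Rem : Prop := ∃ K : ℝ, 0 < K ∧ ∀ x : ℝ, 1 ≤ x → |S0 x - 1| ≤ K / x

lemma q_le_exp {z q p : ℕ} {U : ℝ} (hzU : (z : ℝ) ≤ U) (hq : q * p = primorial z) :
    (q : ℝ) ≤ Real.exp (2 * U) := by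
  have h2 : (q : ℝ) ≤ primorial z := by
    exact_mod_cast Nat.le_of_dvd (primorial_pos z) ⟨p, hq.symm⟩
  have h3 : (primorial z : ℝ) ≤ (4 : ℝ) ^ z := by exact_mod_cast primorial_le_four_pow z
  have h4 : (4 : ℝ) ^ z ≤ Real.exp (2 * U) := by
    have h5 : (4 : ℝ) ≤ Real.exp 2 := by
      have h6 : Real.exp 2 = Real.exp 1 * Real.exp 1 := by rw [← Real.exp_add]; norm_num
      have h7 := Real.add_one_le_exp (1 : ℝ)
      rw [h6]
      nlinarith
    calc (4 : ℝ) ^ z ≤ (Real.exp 2) ^ z := pow_le_pow_left₀ (by norm_num) h5 z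
      _ = Real.exp (z * 2) := by rw [← Real.exp_nat_mul]
      _ ≤ Real.exp (2 * U) := Real.exp_le_exp.2 (by linarith)
  linarith

lemma four_le : (4 : ℝ) ≤ Real.exp 1 * Real.exp 1 := by
  have := Real.add_one_le_exp (1 : ℝ)
  nlinarith

/-- `(1 + a)(1 + b)(1 + c) ≤ 1 + 4 (a + b + c)` for small `a, b, c` -/
lemma three_prod {a b c : ℝ} (ha : 0 ≤ a) (hb : 0 ≤ b) (hc : 0 ≤ c) (hb1 : b ≤ 1)
    (hc1 : c ≤ 1) : (1 + a) * (1 + b) * (1 + c) ≤ 1 + 4 * (a + b + c) := by
  have h1 : a * b ≤ a := mul_le_of_le_one_right ha hb1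
  have h2 : a * c ≤ a := mul_le_of_le_one_right ha hc1
  have h3 : b * c ≤ b := mul_le_of_le_one_right hb hc1
  have h4 : a * b * c ≤ a := (mul_le_of_le_one_right (mul_nonneg ha hb) hc1).trans h1
  have h5 : (1 + a) * (1 + b) * (1 + c) = 1 + a + b + c + a * b + a * c + b * c + a * b * c := by
    ring
  rw [h5]
  linarith

/-- the rows -/
lemma params {U L x : ℝ} {q : ℕ} (hU : 100 ≤ U) (hL : 1000000 * U ≤ L) (hx : x = L - 3 * U)
    (hq1 : (1 : ℝ) ≤ q) (hq : (q : ℝ) ≤ Real.exp (2 * U)) :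
    ∃ k1 k2 : ℕ, 1 ≤ k1 ∧ k1 ≤ k2 ∧ Real.exp (L - 8 * U) ≤ k1 ∧ Real.exp (100 * U) ≤ k1 ∧
      x - (U + 1) ≤ Real.log (k1 * q) ∧ Real.log (k2 * q) ≤ x + (U + 1) ∧
      ((k1 * q : ℕ) : ℝ) + Real.exp (3 * U) ≤ Real.exp (x - U) ∧
      Real.exp (x + U) < (k2 * q : ℕ) ∧ (k2 : ℝ) * q + q ≤ Real.exp L := by
  have hU0 : 0 < U := by linarith
  have hq0 : (0 : ℝ) < q := by linarith
  have hexp1 : (2 : ℝ) ≤ Real.exp 1 := by
    have := Real.add_one_le_exp (1 : ℝ)
    linarith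
  set A : ℝ := Real.exp (x - U) with hA
  have hA0 : 0 < A := Real.exp_pos _
  have hbig : Real.exp (100 * U) ≤ A := Real.exp_le_exp.2 (by linarith)
  have hbig10 : 10 * Real.exp (99 * U) ≤ Real.exp (100 * U) := by
    have h1 : Real.exp (100 * U) = Real.exp U * Real.exp (99 * U) := by
      rw [← Real.exp_add]; ring_nf
    rw [h1]
    have h2 := Real.add_one_le_exp U
    apply mul_le_mul_of_nonneg_right _ (Real.exp_pos (99 * U)).le
    linarith
  have hy99 : Real.exp (3 * U) ≤ Real.exp (99 * U) := Real.exp_le_exp.2 (by linarith)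
  have hq99 : (q : ℝ) ≤ Real.exp (99 * U) := hq.trans (Real.exp_le_exp.2 (by linarith))
  obtain ⟨k1, hk1⟩ : ∃ k1 : ℕ, k1 = ⌊A / (2 * q)⌋₊ := ⟨_, rfl⟩
  have hk1le : (k1 : ℝ) * (2 * q) ≤ A := by
    have h1 : (k1 : ℝ) ≤ A / (2 * q) := by rw [hk1]; exact Nat.floor_le (by positivity)
    rwa [le_div_iff₀ (by positivity)] at h1
  have hk1ge : A ≤ (k1 + 1) * (2 * q) := by
    have h1 : A / (2 * q) < k1 + 1 := by rw [hk1]; exact Nat.lt_floor_add_one _
    rw [div_lt_iff₀ (by positivity)] at h1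
    exact h1.le
  have hk1q' : Real.exp (x - (U + 1)) ≤ k1 * q := by
    have h1 : Real.exp (x - (U + 1)) = A / Real.exp 1 := by
      rw [hA, ← Real.exp_sub]
      congr 1
      ring
    have h2 : (5 / 2 : ℝ) ≤ Real.exp 1 := by
      have := Real.exp_one_gt_d9
      linarith
    rw [h1]
    have h3 : A / Real.exp 1 ≤ A / (5 / 2) := div_le_div_of_nonneg_left hA0.le (by norm_num) h2
    have h4 : A / (5 / 2) = 2 * A / 5 := by ring
    have h5 : ((k1 : ℝ) + 1) * (2 * q) = 2 * (k1 * q) + 2 * q := by ring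
    linarith
  have hk1big : Real.exp (x - 3 * U - 1) ≤ k1 := by
    have h1 : Real.exp (x - (U + 1)) = Real.exp (x - 3 * U - 1) * Real.exp (2 * U) := by
      rw [← Real.exp_add]; ring_nf
    rw [h1] at hk1q'
    by_contra hcon
    push Not at hcon
    have h3 : (k1 : ℝ) * q < Real.exp (x - 3 * U - 1) * Real.exp (2 * U) :=
      mul_lt_mul hcon hq hq0 (Real.exp_pos _).le
    linarith
  have hk1pos : 1 ≤ k1 := by
    have h1 := Real.add_one_le_exp (x - 3 * U - 1)
    have h2 : (0 : ℝ) < k1 := by linarith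
    exact_mod_cast h2
  set B : ℝ := Real.exp (x + U) with hB
  obtain ⟨k2, hk2⟩ : ∃ k2 : ℕ, k2 = ⌊B / q⌋₊ + 1 := ⟨_, rfl⟩
  have hB0 : 0 < B := Real.exp_pos _
  have hAB : A ≤ B := Real.exp_le_exp.2 (by linarith)
  have hk2gt : B < (k2 : ℝ) * q := by
    have h1 : B / q < ⌊B / q⌋₊ + 1 := Nat.lt_floor_add_one _
    rw [div_lt_iff₀ hq0] at h1
    rw [hk2]
    push_cast
    exact h1
  have hk2le : (k2 : ℝ) * q ≤ B + q := by
    have h1 : ((⌊B / q⌋₊ : ℕ) : ℝ) ≤ B / q := Nat.floor_le (by positivity)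
    rw [le_div_iff₀ hq0] at h1
    rw [hk2]
    push_cast
    linarith
  have hk12 : k1 ≤ k2 := by
    have h1 : (k1 : ℝ) ≤ k2 := by
      by_contra hcon
      push Not at hcon
      have h2 : (k2 : ℝ) * q ≤ k1 * q := mul_le_mul_of_nonneg_right hcon.le hq0.le
      have h3 : (0 : ℝ) ≤ (k1 : ℝ) * q := by positivity
      linarith
    exact_mod_cast h1
  refine ⟨k1, k2, hk1pos, hk12, ?_, ?_, ?_, ?_, ?_, ?_, ?_⟩
  · exact le_trans (Real.exp_le_exp.2 (by linarith)) hk1big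
  · exact le_trans (Real.exp_le_exp.2 (by linarith)) hk1big
  · rw [← Real.log_exp (x - (U + 1))]
    exact Real.log_le_log (Real.exp_pos _) hk1q'
  · rw [← Real.log_exp (x + (U + 1))]
    apply Real.log_le_log (by linarith)
    have h1 : Real.exp (x + (U + 1)) = Real.exp 1 * B := by
      rw [hB, ← Real.exp_add]; ring_nf
    rw [h1]
    have h2 : 2 * B ≤ Real.exp 1 * B := mul_le_mul_of_nonneg_right hexp1 hB0.le
    linarith
  · push_cast
    linarith
  · push_cast
    exact hk2gt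
  · have h4 : B ≤ Real.exp (L - 2) := Real.exp_le_exp.2 (by linarith)
    have h5 : (q : ℝ) ≤ Real.exp (L - 2) := hq.trans (Real.exp_le_exp.2 (by linarith))
    have h6 : 4 * Real.exp (L - 2) ≤ Real.exp L := by
      have h7 : Real.exp L = (Real.exp 1 * Real.exp 1) * Real.exp (L - 2) := by
        rw [← Real.exp_add, ← Real.exp_add]; ring_nf
      rw [h7]
      exact mul_le_mul_of_nonneg_right four_le (Real.exp_pos _).le
    linarith

/-- total weight -/
lemma weight_low {U L x : ℝ} {q k1 k2 : ℕ} (hU : 100 ≤ U) (hL0 : 0 < L) (hLU : L ≤ Real.exp U)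
    (hq1 : (1 : ℝ) ≤ q) (hk1 : 1 ≤ k1) (hk12 : k1 ≤ k2)
    (h1 : ((k1 * q : ℕ) : ℝ) ≤ Real.exp (x - U)) (h2 : Real.exp (x + U) < (k2 * q : ℕ)) :
    1 - 1 / L ≤ ∑ t ∈ Finset.Ico k1 k2, Wt q x t := by
  have hU0 : 0 < U := by linarith
  have hk1R : (1 : ℝ) ≤ k1 := by exact_mod_cast hk1
  push_cast at h1 h2
  have h3 : ∫ v in (-U)..U, gw v ≤ ∑ t ∈ Finset.Ico k1 k2, Wt q x t := by
    apply le_sum_Wt hk12 hU0.le
    · have h4 : Real.log (k1 * q) ≤ Real.log (Real.exp (x - U)) :=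
        Real.log_le_log (by positivity) h1
      rw [Real.log_exp] at h4
      linarith
    · have h4 : Real.log (Real.exp (x + U)) ≤ Real.log (k2 * q) :=
        Real.log_le_log (Real.exp_pos _) h2.le
      rw [Real.log_exp] at h4
      linarith
  have h4 := gw_mass (v := U) hU0.le
  have h5 : 2 * Real.exp (-U ^ 2 / 4) ≤ 1 / L := by
    have h6 : Real.exp (-U ^ 2 / 4) ≤ Real.exp (-U + -1) := by
      apply Real.exp_le_exp.2
      nlinarith
    rw [Real.exp_add] at h6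
    have h7 : Real.exp (-1) ≤ 1 / 2 := by
      rw [Real.exp_neg, one_div]
      have := Real.add_one_le_exp (1 : ℝ)
      exact inv_anti₀ two_pos (by linarith)
    have h8 : Real.exp (-U) ≤ 1 / L := by
      rw [one_div, Real.exp_neg]
      exact inv_anti₀ hL0 hLU
    have h9 := Real.exp_pos (-U)
    have h10 : Real.exp (-U) * Real.exp (-1) ≤ Real.exp (-U) * (1 / 2) :=
      mul_le_mul_of_nonneg_left h7 h9.le
    linarith
  linarith

/-- the exponential error of a row -/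
lemma expo_small {U L y k : ℝ} (hU : 100 ≤ U) (hL0 : 0 < L) (hLU : L ≤ Real.exp U)
    (hy : y = Real.exp (3 * U)) (hk : Real.exp (100 * U) ≤ k) :
    ((1 + y) * (U + 3) + y + 1) / k ≤ 1 / L := by
  have hy0 : 0 < y := by rw [hy]; exact Real.exp_pos _
  have hk0 : 0 < k := (Real.exp_pos _).trans_le hk
  rw [div_le_div_iff₀ hk0 hL0, one_mul]
  have h5 : 1 + y ≤ Real.exp (3 * U) * Real.exp U := by
    have h6 := Real.add_one_le_exp U
    have h7 := Real.add_one_le_exp (3 * U)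
    rw [hy]
    have h8 : Real.exp (3 * U) * 2 ≤ Real.exp (3 * U) * Real.exp U :=
      mul_le_mul_of_nonneg_left (by linarith) (Real.exp_pos _).le
    linarith
  have h8 : U + 4 ≤ Real.exp (2 * U) := by
    have := Real.add_one_le_exp (2 * U)
    linarith
  have h10 : (1 + y) * (U + 3) + y + 1 = (1 + y) * (U + 4) := by ring
  rw [h10]
  calc ((1 + y) * (U + 4)) * L
      ≤ ((Real.exp (3 * U) * Real.exp U) * Real.exp (2 * U)) * Real.exp U := by
        gcongr
    _ = Real.exp (7 * U) := by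
        rw [← Real.exp_add, ← Real.exp_add, ← Real.exp_add]
        congr 1
        ring
    _ ≤ Real.exp (100 * U) := Real.exp_le_exp.2 (by linarith)
    _ ≤ k := hk

/-- lower bound of the row sums -/
lemma low_bound {U L x K₀ y k Λ₁ c Q φ : ℝ} (hU : 100 ≤ U) (hLbig : 1000000 * U ≤ L)
    (hU3 : 10 * U ^ 2 ≤ L) (hLU : L ≤ Real.exp U) (hx : x = L - 3 * U) (hK0 : 0 < K₀)
    (hKU : K₀ + 2 ≤ U) (hy : y = Real.exp (3 * U)) (hk : Real.exp (100 * U) ≤ k)
    (hφ : 0 < φ) (hc : 0 ≤ c) (hQ : 0 ≤ Q) (hM : (1 - (2 * K₀ + 3) * U / L) / φ ≤ Λ₁) :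
    (1 - (8 * K₀ + 200) * U / L) * (Q / φ * c / L) ≤
      Real.exp (-(((1 + y) * (U + 2) + 1) / k)) * (Q / (x + U)) * (c * Λ₁) := by
  have hU0 : 0 < U := by linarith
  have hL0 : 0 < L := by linarith
  have hy0 : 0 < y := by rw [hy]; exact Real.exp_pos _
  have hk0 : 0 < k := (Real.exp_pos _).trans_le hk
  have hsmall := expo_small hU hL0 hLU hy hk
  set E : ℝ := Real.exp (-(((1 + y) * (U + 2) + 1) / k)) with hE
  have hE1 : 1 - 1 / L ≤ E := by
    have h1 := Real.add_one_le_exp (-(((1 + y) * (U + 2) + 1) / k))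
    have h2 : ((1 + y) * (U + 2) + 1) / k ≤ ((1 + y) * (U + 3) + y + 1) / k := by
      apply div_le_div_of_nonneg_right _ hk0.le
      nlinarith
    linarith
  have hK2 : (2 * K₀ + 3) * U / L ≤ 1 := by
    rw [div_le_one hL0]
    nlinarith
  have hθ : 0 ≤ 1 - (2 * K₀ + 3) * U / L := by linarith
  have hUL : 1 / L ≤ U / L := by
    apply div_le_div_of_nonneg_right _ hL0.le
    linarith
  have hfac : 1 - (8 * K₀ + 200) * U / L ≤ E * (1 - (2 * K₀ + 3) * U / L) := by
    have h2 : (1 - 1 / L) * (1 - (2 * K₀ + 3) * U / L) ≤ E * (1 - (2 * K₀ + 3) * U / L) :=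
      mul_le_mul_of_nonneg_right hE1 hθ
    refine le_trans ?_ h2
    have h3 : (1 - 1 / L) * (1 - (2 * K₀ + 3) * U / L) =
        1 - 1 / L - (2 * K₀ + 3) * U / L + (1 / L) * ((2 * K₀ + 3) * U / L) := by
      ring
    have h4 : 0 ≤ (1 / L) * ((2 * K₀ + 3) * U / L) := by positivity
    have h5 : (8 * K₀ + 200) * U / L = (2 * K₀ + 3) * U / L + U / L + (6 * K₀ + 196) * U / L := by
      ring
    have h6 : 0 ≤ (6 * K₀ + 196) * U / L := by positivity
    rw [h3, h5]
    linarith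
  have hxU : x + U ≤ L := by linarith
  have hxU0 : 0 < x + U := by linarith
  have hqc : 0 ≤ Q * c / φ := by positivity
  have hE0 : 0 < E := Real.exp_pos _
  calc (1 - (8 * K₀ + 200) * U / L) * (Q / φ * c / L)
      ≤ (E * (1 - (2 * K₀ + 3) * U / L)) * (Q / φ * c / L) :=
        mul_le_mul_of_nonneg_right hfac (by positivity)
    _ ≤ (E * (1 - (2 * K₀ + 3) * U / L)) * (Q * c / φ / (x + U)) := by
        apply mul_le_mul_of_nonneg_left _ (mul_nonneg hE0.le hθ)
        calc Q / φ * c / L = Q * c / φ / L := by ring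
          _ ≤ _ := div_le_div_of_nonneg_left hqc hxU0 hxU
    _ = E * (Q / (x + U)) * (c * ((1 - (2 * K₀ + 3) * U / L) / φ)) := by ring
    _ ≤ E * (Q / (x + U)) * (c * Λ₁) := by
        apply mul_le_mul_of_nonneg_left _ (by positivity)
        exact mul_le_mul_of_nonneg_left hM hc

/-- upper bound of the row sums -/
lemma upp_bound {U L x K₀ y k Λ₁ c Q φ : ℝ} (hU : 100 ≤ U) (hLbig : 1000000 * U ≤ L)
    (hU3 : 1000 * U ^ 2 ≤ L) (hLU : L ≤ Real.exp U) (hx : x = L - 3 * U) (hK0 : 0 < K₀)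
    (hKU : K₀ + 2 ≤ U) (hy : y = Real.exp (3 * U)) (hk : Real.exp (100 * U) ≤ k)
    (hφ : 0 < φ) (hc : 0 ≤ c) (hQ : 0 ≤ Q) (hM : Λ₁ ≤ (1 + (2 * K₀ + 1) * U / L) / φ) :
    Real.exp (((1 + y) * (U + 1 + 1) + y) / k) * (Q / (x - (U + 1))) * (c * Λ₁) ≤
      (1 + (8 * K₀ + 200) * U / L) * (Q / φ * c / L) := by
  have hU0 : 0 < U := by linarith
  have hL0 : 0 < L := by linarith
  have hy0 : 0 < y := by rw [hy]; exact Real.exp_pos _
  have hk0 : 0 < k := (Real.exp_pos _).trans_le hk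
  have hsmall := expo_small hU hL0 hLU hy hk
  have hUL : 1 / L ≤ U / L := by
    apply div_le_div_of_nonneg_right _ hL0.le
    linarith
  have h1L : 1 / L ≤ 1 := by
    rw [div_le_one hL0]
    linarith
  set E : ℝ := Real.exp (((1 + y) * (U + 1 + 1) + y) / k) with hE
  have hE1 : E ≤ 1 + 2 / L := by
    have h2 : ((1 + y) * (U + 1 + 1) + y) / k ≤ 1 / L := by
      refine le_trans ?_ hsmall
      apply div_le_div_of_nonneg_right _ hk0.le
      nlinarith
    have h3 : E ≤ Real.exp (1 / L) := Real.exp_le_exp.2 h2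
    have h4 : Real.exp (1 / L) ≤ 1 + 2 * (1 / L) := by
      have h5 := Real.abs_exp_sub_one_le (x := 1 / L) (by
        rw [abs_of_nonneg (by positivity)]; exact h1L)
      rw [abs_of_nonneg (show (0 : ℝ) ≤ 1 / L by positivity)] at h5
      linarith [(abs_le.1 h5).2]
    calc E ≤ 1 + 2 * (1 / L) := h3.trans h4
      _ = 1 + 2 / L := by ring
  have h1 : 0 < x - (U + 1) := by linarith
  have hinv : 1 / (x - (U + 1)) ≤ (1 + 20 * U / L) / L := by
    rw [div_le_div_iff₀ h1 hL0, one_mul]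
    have h3 : (1 + 20 * U / L) * (x - (U + 1)) =
        L - 4 * U - 1 + 20 * U - 20 * U * (4 * U + 1) / L := by
      rw [hx]
      field_simp
      ring
    rw [h3]
    have h4 : 20 * U * (4 * U + 1) / L ≤ 1 := by
      rw [div_le_one hL0]
      nlinarith
    linarith
  have hK2 : (2 * K₀ + 1) * U / L ≤ 1 := by
    rw [div_le_one hL0]
    nlinarith
  have h20 : 20 * U / L ≤ 1 := by
    rw [div_le_one hL0]
    linarith
  have hprod := three_prod (a := 2 / L) (b := 20 * U / L) (c := (2 * K₀ + 1) * U / L)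
    (by positivity) (by positivity) (by positivity) h20 hK2
  have hE0 : 0 < E := Real.exp_pos _
  have hqc : 0 ≤ Q * c / φ := by positivity
  calc E * (Q / (x - (U + 1))) * (c * Λ₁)
      ≤ E * (Q / (x - (U + 1))) * (c * ((1 + (2 * K₀ + 1) * U / L) / φ)) := by
        apply mul_le_mul_of_nonneg_left _ (by positivity)
        exact mul_le_mul_of_nonneg_left hM hc
    _ = (E * (1 + (2 * K₀ + 1) * U / L)) * (Q * c / φ * (1 / (x - (U + 1)))) := by ring
    _ ≤ ((1 + 2 / L) * (1 + (2 * K₀ + 1) * U / L)) * (Q * c / φ * ((1 + 20 * U / L) / L)) := by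
        apply mul_le_mul _ (mul_le_mul_of_nonneg_left hinv hqc) (by positivity) (by positivity)
        exact mul_le_mul_of_nonneg_right hE1 (by positivity)
    _ = ((1 + 2 / L) * (1 + 20 * U / L) * (1 + (2 * K₀ + 1) * U / L)) * (Q / φ * c / L) := by
        ring
    _ ≤ (1 + (8 * K₀ + 200) * U / L) * (Q / φ * c / L) := by
        apply mul_le_mul_of_nonneg_right _ (by positivity)
        refine hprod.trans ?_
        have h1 : (8 * K₀ + 200) * U / L = 4 * ((2 * K₀ + 1) * U / L) + 80 * (U / L) +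
            116 * (U / L) := by ring
        have h2 : 20 * U / L = 20 * (U / L) := by ring
        have h3 : 2 / L = 2 * (1 / L) := by ring
        have h4 : 0 ≤ U / L := by positivity
        rw [h1, h2, h3]
        linarith

end Pool.Agent.LibH
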