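import Pool.Agent.LibGal99.D4

/-!
The lower bound for the product on the line `Re s = 1 - β`, `β ≤ β₀ < 1/2` (adapted from
`LibGal99/D4`).
-/

namespace Pool.Agent.LibH

open Finset Filter Topology MeasureTheory Set
open Pool.Gal99
open Pool.Gal99.D4 hiding pow_le sum_sq GG_ge

theorem pow_le' (p : ℕ) (hp : 2 ≤ p) (β : ℝ) (hβ : β ≤ 1 / 2) : (p : ℝ) ^ (β - 1) ≤ 3 / 4 := by
  have hp2 : (2 : ℝ) ≤ p := by exact_mod_cast hp
  calc (p : ℝ) ^ (β - 1) ≤ (p : ℝ) ^ (-(1 / 2 : ℝ)) :=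
        Real.rpow_le_rpow_of_exponent_le (by linarith) (by linarith)
    _ ≤ (2 : ℝ) ^ (-(1 / 2 : ℝ)) :=
        Real.rpow_le_rpow_of_nonpos (by norm_num) hp2 (by norm_num)
    _ ≤ 3 / 4 := by
        have h1 : ((2 : ℝ) ^ (-(1 / 2 : ℝ))) ^ 2 = 1 / 2 := by
          rw [← Real.rpow_natCast, ← Real.rpow_mul (by norm_num)]
          norm_num
        have h2 : (0 : ℝ) ≤ (2 : ℝ) ^ (-(1 / 2 : ℝ)) := by positivity
        by_contra h
        push Not at h
        have h3 : (3 / 4 : ℝ) ^ 2 ≤ ((2 : ℝ) ^ (-(1 / 2 : ℝ))) ^ 2 :=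
          pow_le_pow_left₀ (by norm_num) h.le 2
        rw [h1] at h3
        norm_num at h3

/-- the sum of the squares -/
theorem sum_sq' (z : ℕ) (β β₀ : ℝ) (hβ : β ≤ β₀) (hβ₀ : β₀ < 1 / 2) :
    ∑ p ∈ pr z, ((p : ℝ) ^ (β - 1)) ^ 2 ≤ ∑' n : ℕ, (n : ℝ) ^ (2 * β₀ - 2) := by
  have hs : Summable (fun n : ℕ => (n : ℝ) ^ (2 * β₀ - 2)) :=
    Real.summable_nat_rpow.2 (by linarith)
  refine le_trans (Finset.sum_le_sum fun p hp => ?_)
    (hs.sum_le_tsum (pr z) fun n _ => by positivity)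
  have hp1 := (mem_pr hp).1
  have hp2 : (2 : ℝ) ≤ p := by exact_mod_cast hp1.two_le
  rw [← Real.rpow_natCast, ← Real.rpow_mul (by positivity)]
  refine Real.rpow_le_rpow_of_exponent_le (by linarith) ?_
  push_cast
  linarith

/-- the product in terms of a sum -/
theorem GG_ge' (z : ℕ) (β β₀ τ : ℝ) (hβ : β ≤ β₀) (hβ₀ : β₀ < 1 / 2) :
    Real.exp (∑ p ∈ pr z, -((p : ℝ) ^ (β - 1) * Real.cos (τ * Real.log p))
      - 2 * ∑' n : ℕ, (n : ℝ) ^ (2 * β₀ - 2))
      ≤ ‖GG z ((1 - β : ℝ) + (τ : ℝ) * Complex.I)‖ := by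
  have h1 : Real.exp (∑ p ∈ pr z, (-((p : ℝ) ^ (β - 1) * Real.cos (τ * Real.log p))
      - 2 * ((p : ℝ) ^ (β - 1)) ^ 2)) ≤ ‖GG z ((1 - β : ℝ) + (τ : ℝ) * Complex.I)‖ := by
    unfold GG
    rw [norm_prod, Real.exp_sum]
    refine Finset.prod_le_prod (fun p _ => (Real.exp_pos _).le) fun p hp => ?_
    have hp1 := (mem_pr hp).1
    have h2 := norm_one_sub_lower ((p : ℂ) ^ (-(((1 - β : ℝ) : ℂ) + (τ : ℝ) * Complex.I)))
      (by rw [norm_pow p hp1.pos]; exact pow_le' p hp1.two_le β (by linarith))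
    rw [norm_pow p hp1.pos, re_pow p hp1.pos] at h2
    exact h2
  refine le_trans (Real.exp_le_exp.2 ?_) h1
  rw [Finset.sum_sub_distrib, ← Finset.mul_sum]
  have := sum_sq' z β β₀ hβ hβ₀
  linarith

/-- D4: on the line `Re s = 1 - β`, at height `π / log z`, the factors of the primes near `z`
are all in phase (prime number theorem) -/
theorem GG_lower' (δ β₀ : ℝ) (hδ : 0 < δ) (hβ₀ : β₀ < 1 / 2) : ∃ C : ℝ, 0 < C ∧ ∀ z : ℕ, 3 ≤ z → ∀ β : ℝ, 0 < β →
    β ≤ β₀ → Real.exp 1 ≤ (z : ℝ) ^ β →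
    Real.exp ((1 - δ) * ((z : ℝ) ^ β / Real.log ((z : ℝ) ^ β)) -
      C * (1 + Real.sqrt ((z : ℝ) ^ β) * (1 + Real.log (Real.log z + 1)))) ≤
      ‖GG z ((1 - β : ℝ) + (Real.pi / Real.log z : ℝ) * Complex.I)‖ := by
  obtain ⟨δ', hδ'0, hδ'1, hδ'⟩ : ∃ δ' : ℝ, 0 < δ' ∧ δ' ≤ 1 / 2 ∧ δ' ≤ δ :=
    ⟨min δ (1 / 2), lt_min hδ (by norm_num), min_le_right _ _, min_le_left _ _⟩
  set κ : ℝ := 1 - δ' / 8 with hκ
  have hκ0 : 1 / 2 ≤ κ := by rw [hκ]; linarith
  have hκ1 : κ < 1 := by rw [hκ]; linarith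
  set c : ℝ := -Real.cos (Real.pi * κ) with hc
  have hc1 : c ≤ 1 := by
    have := Real.neg_one_le_cos (Real.pi * κ)
    rw [hc]
    linarith
  have hc0 : 1 - δ' / 4 ≤ c := by
    have h1 : c = Real.cos (Real.pi * (δ' / 8)) := by
      rw [hc, hκ, ← Real.cos_pi_sub]
      congr 1
      ring
    rw [h1]
    have h2 := Real.one_sub_sq_div_two_le_cos (x := Real.pi * (δ' / 8))
    have h3 : (Real.pi * (δ' / 8)) ^ 2 ≤ 1 / 2 * δ' := by
      have h4 : Real.pi ≤ 3.15 := Real.pi_lt_d2.le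
      have h5 : 0 < Real.pi := Real.pi_pos
      have h6 : Real.pi ^ 2 ≤ 3.15 ^ 2 := pow_le_pow_left₀ h5.le h4 2
      have h7 : (Real.pi * (δ' / 8)) ^ 2 = Real.pi ^ 2 * (δ' ^ 2 / 64) := by ring
      rw [h7]
      have h8 : δ' ^ 2 ≤ δ' * (1 / 2) := by nlinarith
      have h9 : Real.pi ^ 2 * (δ' ^ 2 / 64) ≤ 3.15 ^ 2 * (δ' ^ 2 / 64) :=
        mul_le_mul_of_nonneg_right h6 (by positivity)
      nlinarith
    linarith
  obtain ⟨t0, ht0, hpnt⟩ := pnt_sum (δ' / 4) (by linarith) (by linarith)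
  obtain ⟨C0, hC0, hM⟩ := sum_inv_le
  set C1 : ℝ := 2 * ∑' n : ℕ, (n : ℝ) ^ (2 * β₀ - 2) with hC1
  have hC1' : 0 ≤ C1 := by
    have : 0 ≤ ∑' n : ℕ, (n : ℝ) ^ (2 * β₀ - 2) := tsum_nonneg fun n => by positivity
    rw [hC1]
    linarith
  set V0 : ℝ := (4 / δ') ^ (1 / (1 - κ)) with hV0
  have hV0' : 0 < V0 := by positivity
  refine ⟨C0 + C1 + 2 * t0 ^ 2 + 2 * V0 + 2, by positivity, ?_⟩
  intro z hz β hβ hβ4 hv
  have hz3 : (3 : ℝ) ≤ z := by exact_mod_cast hz
  have hz0 : (0 : ℝ) < z := by linarith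
  have hlz : 0 < Real.log z := Real.log_pos (by linarith)
  set v : ℝ := (z : ℝ) ^ β with hvdef
  have hv1 : 1 ≤ v := le_trans (by
    have := Real.add_one_le_exp (1 : ℝ)
    linarith) hv
  have hv0 : 0 < v := by linarith
  have hlv : 1 ≤ Real.log v := by
    rw [← Real.log_exp 1]
    exact Real.log_le_log (Real.exp_pos 1) hv
  have hlv' : Real.log v = β * Real.log z := by rw [hvdef, Real.log_rpow hz0]
  have hll : 0 ≤ Real.log (Real.log z + 1) := Real.log_nonneg (by linarith)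
  have hX : 0 ≤ Real.sqrt v * (1 + Real.log (Real.log z + 1)) := by positivity
  have hvlv : 0 ≤ v / Real.log v := by positivity
  refine le_trans (Real.exp_le_exp.2 ?_) (GG_ge' z β β₀ (Real.pi / Real.log z) hβ4 hβ₀)
  rw [← hC1]
  set S : ℝ := ∑ p ∈ pr z, -((p : ℝ) ^ (β - 1) * Real.cos (Real.pi / Real.log z * Real.log p))
    with hS
  set X : ℝ := Real.sqrt v * (1 + Real.log (Real.log z + 1)) with hXdef
  by_cases hcase : (z : ℝ) ^ κ < t0
  · -- small z
    have h1 : (z : ℝ) ≤ t0 ^ 2 := by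
      have h2 : (z : ℝ) ^ (1 / 2 : ℝ) ≤ t0 :=
        (Real.rpow_le_rpow_of_exponent_le (by linarith) hκ0).trans hcase.le
      have h3 := pow_le_pow_left₀ (by positivity) h2 2
      rw [← Real.rpow_natCast, ← Real.rpow_mul hz0.le] at h3
      norm_num at h3
      exact h3
    have h2 : -((z : ℝ) + 1) ≤ S := by
      have h3 : ∑ p ∈ pr z, (-1 : ℝ) ≤ S := by
        refine Finset.sum_le_sum fun p hp => ?_
        have hp1 := (mem_pr hp).1
        have h4 := pow_le' p hp1.two_le β (by linarith)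
        have h5 : (0 : ℝ) ≤ (p : ℝ) ^ (β - 1) := by positivity
        have h6 := mul_le_mul_of_nonneg_left
          (Real.cos_le_one (Real.pi / Real.log z * Real.log p)) h5
        linarith
      rw [Finset.sum_const, nsmul_eq_mul] at h3
      have h4 : ((pr z).card : ℝ) ≤ z + 1 := by
        have h5 : (pr z).card ≤ z + 1 := by
          unfold pr
          exact (Finset.card_filter_le _ _).trans (Finset.card_range _).le
        exact_mod_cast h5
      linarith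
    have h3 : (1 - δ) * (v / Real.log v) ≤ z := by
      have h4 : v / Real.log v ≤ v := div_le_self hv0.le hlv
      have h5 : v ≤ z := by
        calc v ≤ (z : ℝ) ^ (1 : ℝ) := Real.rpow_le_rpow_of_exponent_le (by linarith) (by linarith)
          _ = z := Real.rpow_one _
      nlinarith
    have h4 : (C0 + C1 + 2 * t0 ^ 2 + 2 * V0 + 2) * 1 ≤
        (C0 + C1 + 2 * t0 ^ 2 + 2 * V0 + 2) * (1 + X) :=
      mul_le_mul_of_nonneg_left (by linarith) (by positivity)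
    linarith
  · push Not at hcase
    have hterm : ∑ p ∈ pr z, (-(Real.sqrt v * (1 / (p : ℝ))) +
        (if (z : ℝ) ^ κ < p then c * (p : ℝ) ^ (β - 1) else 0)) ≤ S :=
      Finset.sum_le_sum fun p hp => term_ge z p β κ hz hp hβ hκ0 hκ1.le
    rw [Finset.sum_add_distrib, Finset.sum_neg_distrib, ← Finset.mul_sum, ← Finset.sum_filter,
      ← Finset.mul_sum] at hterm
    have h1 : Real.sqrt v * ∑ p ∈ pr z, 1 / (p : ℝ) ≤ C0 * X := by
      have h2 := mul_le_mul_of_nonneg_left (hM z (by omega)) (Real.sqrt_nonneg v)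
      rw [hXdef]
      linarith
    have haz : (z : ℝ) ^ κ ≤ z := by
      calc (z : ℝ) ^ κ ≤ (z : ℝ) ^ (1 : ℝ) :=
            Real.rpow_le_rpow_of_exponent_le (by linarith) hκ1.le
        _ = z := Real.rpow_one _
    have h2 := hpnt ((z : ℝ) ^ κ) z β hcase haz hβ (by linarith)
    have h3 : ∑ p ∈ (pr z).filter (fun p : ℕ => (z : ℝ) ^ κ < p), (p : ℝ) ^ (β - 1) * Real.log p
        ≤ (∑ p ∈ (pr z).filter (fun p : ℕ => (z : ℝ) ^ κ < p), (p : ℝ) ^ (β - 1))
          * Real.log z := by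
      rw [Finset.sum_mul]
      refine Finset.sum_le_sum fun p hp => ?_
      have hp1 := mem_pr (Finset.mem_filter.1 hp).1
      have hpp : (0 : ℝ) < p := by exact_mod_cast hp1.1.pos
      exact mul_le_mul_of_nonneg_left (Real.log_le_log hpp (by exact_mod_cast hp1.2))
        (by positivity)
    set Q : ℝ := ∑ p ∈ (pr z).filter (fun p : ℕ => (z : ℝ) ^ κ < p), (p : ℝ) ^ (β - 1) with hQ
    have ha : ((z : ℝ) ^ κ) ^ β = v ^ κ := by
      rw [hvdef, ← Real.rpow_mul hz0.le, ← Real.rpow_mul hz0.le, mul_comm]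
    rw [ha] at h2
    have hvk : 0 ≤ v ^ κ := by positivity
    -- divide by log z
    have h4 : (1 - δ' / 4) * (v / Real.log v) - 2 * v ^ κ / Real.log v ≤ Q := by
      have h5 := h2.trans h3
      have h6 : (1 - δ' / 4) * ((v - v ^ κ) / β) - 2 * v ^ κ ≤ Q * Real.log z := h5
      have h7 : ((1 - δ' / 4) * ((v - v ^ κ) / β) - 2 * v ^ κ) / Real.log z ≤ Q :=
        (div_le_iff₀ hlz).2 h6
      refine le_trans ?_ h7
      rw [hlv']
      have h8 : ((1 - δ' / 4) * ((v - v ^ κ) / β) - 2 * v ^ κ) / Real.log z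
          = ((1 - δ' / 4) * (v - v ^ κ) - 2 * β * v ^ κ) / (β * Real.log z) := by
        field_simp
      have h9 : (1 - δ' / 4) * (v / (β * Real.log z)) - 2 * v ^ κ / (β * Real.log z)
          = ((1 - δ' / 4) * v - 2 * v ^ κ) / (β * Real.log z) := by
        ring
      rw [h8, h9]
      have h10 : 0 < β * Real.log z := by positivity
      apply div_le_div_of_nonneg_right _ h10.le
      nlinarith
    have h5 := pow_absorb δ' κ v hδ'0 (by linarith) hκ1 hv1
    rw [← hV0] at h5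
    have hlv0 : 0 < Real.log v := by linarith
    have h6 : 2 * v ^ κ / Real.log v ≤ δ' / 2 * (v / Real.log v) + 2 * V0 := by
      have h7 : 2 * v ^ κ / Real.log v ≤ (δ' / 2 * v + 2 * V0) / Real.log v :=
        div_le_div_of_nonneg_right h5 hlv0.le
      have h8 : 2 * V0 / Real.log v ≤ 2 * V0 := div_le_self (by positivity) hlv
      have h9 : (δ' / 2 * v + 2 * V0) / Real.log v
          = δ' / 2 * (v / Real.log v) + 2 * V0 / Real.log v := by ring
      linarith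
    have hc00 : 0 ≤ c := by linarith
    have h7 : (1 - δ') * (v / Real.log v) - 2 * V0 ≤ c * Q := by
      have h8 := mul_le_mul_of_nonneg_left h4 hc00
      have h9 : (1 - δ' / 4) * (1 - δ' / 4) * (v / Real.log v) ≤
          c * ((1 - δ' / 4) * (v / Real.log v)) := by
        rw [mul_assoc]
        exact mul_le_mul_of_nonneg_right hc0 (mul_nonneg (by linarith) hvlv)
      have h10 : c * (2 * v ^ κ / Real.log v) ≤ 1 * (2 * v ^ κ / Real.log v) :=
        mul_le_mul_of_nonneg_right hc1 (by positivity)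
      have h11 : (1 - δ' / 2) * (v / Real.log v) ≤
          (1 - δ' / 4) * (1 - δ' / 4) * (v / Real.log v) :=
        mul_le_mul_of_nonneg_right (by nlinarith) hvlv
      nlinarith
    have h8 : (1 - δ) * (v / Real.log v) ≤ (1 - δ') * (v / Real.log v) :=
      mul_le_mul_of_nonneg_right (by linarith) hvlv
    have h9 : C0 * X + (C1 + 2 * V0) ≤ (C0 + C1 + 2 * t0 ^ 2 + 2 * V0 + 2) * (1 + X) := by
      nlinarith [mul_nonneg hC1' hX, mul_nonneg hV0'.le hX, mul_nonneg (sq_nonneg t0) hX,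
        sq_nonneg t0]
    linarith

end Pool.Agent.LibH
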