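import Pool.Agent.LibH.Par
import Pool.Agent.LibH.GGl
import Pool.Agent.LibGal99.D3
import Pool.Agent.LibGal99.D5

/-!
The Omega lemma at the level `z = (log h)^C`: the levels `τ v` and the main term.
-/

namespace Pool.Agent.LibH

open Filter Topology MeasureTheory
open Pool.Gal99 (d10_L d10_LL d10_logx d10_floor zs zs_lower zs_upper sum_rpow_sharp
  GG_lower pr)
open Pool.Agent.LibG2.PS (erz norm_GG_ge GG)

variable {C : ℝ}

lemma prod_le_exp (z : ℕ) (b : ℝ) :
    ∏ p ∈ pr z, (1 + (p : ℝ) ^ (b - 1)) ≤ Real.exp (∑ p ∈ pr z, (p : ℝ) ^ (b - 1)) := by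
  rw [Real.exp_sum]
  refine Finset.prod_le_prod (fun p _ => by positivity) (fun p _ => ?_)
  rw [add_comm]
  exact Real.add_one_le_exp _

/-- the level `τ v` -/
theorem level (hC2 : 2 < C) (ξ τ κ : ℝ) (hξ : 0 < ξ) (hτ : 0 < τ) (hτ1 : τ ≠ 1) (hκ : 0 < κ) :
    ∀ᶠ h : ℕ in atTop, 0 < Real.log (τ * vs C ξ h) / ll C h ∧
      Real.log (τ * vs C ξ h) / ll C h ≤ 1 / 2 ∧
      20 * (zz C h : ℝ) ^ (Real.log (τ * vs C ξ h) / ll C h) *
        (∏ p ∈ pr (zz C h), (1 + (p : ℝ) ^ (Real.log (τ * vs C ξ h) / ll C h - 1))) *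
        (Real.exp (-(τ * Real.log τ) * ws C ξ h) * (ll C h / |Real.log τ|)) ≤
      Real.exp ((τ * (1 - Real.log τ) + κ) * ws C ξ h) := by
  have hC : 0 < C := by linarith
  have hlogτ : Real.log τ ≠ 0 := Real.log_ne_zero_of_pos_of_ne_one hτ hτ1
  obtain ⟨K, hK, hsum⟩ := sum_rpow_sharp (κ / (2 * τ)) (by positivity)
  have hw := w_atTop hC ξ hξ
  have hτv : Tendsto (fun h => τ * vs C ξ h) atTop atTop := (v_atTop hC ξ hξ).const_mul_atTop hτ
  have hlτv : Tendsto (fun h => Real.log (τ * vs C ξ h)) atTop atTop :=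
    Real.tendsto_log_atTop.comp hτv
  have hb : Tendsto (fun h => Real.log (τ * vs C ξ h) / ll C h) atTop (𝓝 (1 / C)) := by
    have h1 : Tendsto (fun h => Real.log τ / ll C h + Real.log (vs C ξ h) / ll C h) atTop
        (𝓝 (0 + 1 / C)) :=
      (tendsto_const_nhds.div_atTop (ll_atTop hC)).add (beta hC ξ hξ)
    rw [zero_add] at h1
    refine h1.congr' ?_
    filter_upwards [(v_atTop hC ξ hξ).eventually_gt_atTop 0] with h hv
    rw [Real.log_mul hτ.ne' hv.ne', add_div]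
  have hlim : Tendsto (fun h => (Real.log 20 / ws C ξ h + (Real.log τ / ws C ξ h +
      Real.log (vs C ξ h) / ws C ξ h)) + ((1 + κ / (2 * τ)) * (τ * vs C ξ h /
      Real.log (τ * vs C ξ h) / ws C ξ h) + K * (1 / ws C ξ h + Real.sqrt (τ * vs C ξ h) *
      (1 + Real.log (ll C h + 1)) / ws C ξ h)) +
      (-(τ * Real.log τ) + (Real.log (ll C h + 1) / ws C ξ h - Real.log |Real.log τ| /
        ws C ξ h))) atTop
      (𝓝 ((0 + (0 + 0)) + ((1 + κ / (2 * τ)) * τ + K * (0 + 0)) +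
        (-(τ * Real.log τ) + (0 - 0)))) := by
    refine ((tendsto_const_nhds.div_atTop hw).add ((tendsto_const_nhds.div_atTop hw).add
      (logv_w hC ξ hξ))).add (((vlogv hC ξ τ hξ hτ).const_mul _).add
        (((tendsto_const_nhds.div_atTop hw).add (sqrtv hC ξ τ hξ hτ)).const_mul K)) |>.add ?_
    exact ((logl_w hC ξ hξ).sub (tendsto_const_nhds.div_atTop hw)).const_add _
  have hlt : (0 + (0 + 0)) + ((1 + κ / (2 * τ)) * τ + K * (0 + 0)) +
        (-(τ * Real.log τ) + (0 - 0)) < τ * (1 - Real.log τ) + κ := by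
    have : κ / (2 * τ) * τ = κ / 2 := by field_simp
    nlinarith
  have hC12 : 1 / C < 1 / 2 := by
    rw [div_lt_div_iff₀ hC (by norm_num)]
    linarith
  filter_upwards [hlim.eventually_lt_const hlt, hw.eventually_gt_atTop 0,
    (ll_atTop hC).eventually_gt_atTop 0, hlτv.eventually_ge_atTop 1, hτv.eventually_gt_atTop 0,
    hb.eventually_le_const hC12, zz3 hC,
    (v_atTop hC ξ hξ).eventually_gt_atTop 0] with h h1 hw0 hl hlt1 htv0 hb2 hz3 hv0
  have hb0 : 0 < Real.log (τ * vs C ξ h) / ll C h := by positivity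
  refine ⟨hb0, hb2, ?_⟩
  set b := Real.log (τ * vs C ξ h) / ll C h with hbdef
  have hpow : (zz C h : ℝ) ^ b = τ * vs C ξ h := zz_pow h hl _ htv0
  have hs := hsum (zz C h) hz3 b hb0 hb2 (by
    rw [hpow]
    rw [← Real.exp_log htv0]
    exact Real.exp_le_exp.2 hlt1)
  rw [hpow] at hs
  have hll : Real.log (zz C h : ℝ) = ll C h := rfl
  rw [hll] at hs
  rw [hpow]
  have habs : 0 < |Real.log τ| := abs_pos.2 hlogτ
  have e5 : (20 : ℝ) = Real.exp (Real.log 20) := (Real.exp_log (by norm_num)).symm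
  have etv : τ * vs C ξ h = Real.exp (Real.log τ + Real.log (vs C ξ h)) := by
    rw [Real.exp_add, Real.exp_log hτ, Real.exp_log hv0]
  have ell : ll C h / |Real.log τ| ≤ Real.exp (Real.log (ll C h + 1) - Real.log |Real.log τ|) := by
    rw [Real.exp_sub, Real.exp_log (by linarith), Real.exp_log habs]
    gcongr
    linarith
  have hprod := (prod_le_exp (zz C h) b).trans (Real.exp_le_exp.2 hs)
  have hA : 20 * (τ * vs C ξ h) * (∏ p ∈ pr (zz C h), (1 + (p : ℝ) ^ (b - 1))) *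
      (Real.exp (-(τ * Real.log τ) * ws C ξ h) * (ll C h / |Real.log τ|)) ≤
      Real.exp (Real.log 20) * Real.exp (Real.log τ + Real.log (vs C ξ h)) *
      Real.exp ((1 + κ / (2 * τ)) * (τ * vs C ξ h / Real.log (τ * vs C ξ h)) +
        K * (1 + Real.sqrt (τ * vs C ξ h) * (1 + Real.log (ll C h + 1)))) *
      (Real.exp (-(τ * Real.log τ) * ws C ξ h) *
        Real.exp (Real.log (ll C h + 1) - Real.log |Real.log τ|)) := by
    rw [← e5, ← etv]
    have hp0 : 0 ≤ ∏ p ∈ pr (zz C h), (1 + (p : ℝ) ^ (b - 1)) :=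
      Finset.prod_nonneg (fun p _ => by positivity)
    gcongr
  refine hA.trans ?_
  rw [← Real.exp_add, ← Real.exp_add, ← Real.exp_add, ← Real.exp_add]
  apply Real.exp_le_exp.2
  have h2 := mul_le_mul_of_nonneg_right h1.le hw0.le
  refine le_trans (le_of_eq ?_) h2
  generalize Real.sqrt (τ * vs C ξ h) * (1 + Real.log (ll C h + 1)) = S
  generalize τ * vs C ξ h / Real.log (τ * vs C ξ h) = T
  field_simp

/-- the main term of the Mellin transform -/
theorem main (hC2 : 2 < C) (ξ κ : ℝ) (hξ : 0 < ξ) (hκ : 0 < κ) : ∀ᶠ h : ℕ in atTop,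
    ∀ p ∈ pr (zz C h), Real.exp ((1 - κ) * ws C ξ h) ≤
      ‖zs ((1 - Real.log (vs C ξ h) / ll C h : ℝ) + (Real.pi / ll C h : ℝ) * Complex.I)‖ *
      ‖GG (erz (zz C h) p) ((1 - Real.log (vs C ξ h) / ll C h : ℝ) +
        (Real.pi / ll C h : ℝ) * Complex.I)‖ := by
  have hC : 0 < C := by linarith
  have hC12 : 1 / C < 1 / 2 := by
    rw [div_lt_div_iff₀ hC (by norm_num)]
    linarith
  have hC0 : 0 < 1 / C := by positivity
  set b₁ : ℝ := (1 / C + 1 / 2) / 2 with hb₁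
  have hb₁0 : 0 < b₁ := by rw [hb₁]; linarith
  have hb₁1 : b₁ < 1 / 2 := by rw [hb₁]; linarith
  have hCb₁ : 1 / C < b₁ := by rw [hb₁]; linarith
  set c₀ : ℝ := 1 / b₁ - 1 / (1 - b₁) with hc₀
  have hc₀0 : 0 < c₀ := by
    rw [hc₀, sub_pos]
    apply one_div_lt_one_div_of_lt hb₁0
    linarith
  obtain ⟨K, hK, hG⟩ := GG_lower' (κ / 4) b₁ (by positivity) hb₁1
  have hw := w_atTop hC ξ hξ
  have hv1 := vlogv hC ξ 1 hξ one_pos
  have hs1 := sqrtv hC ξ 1 hξ one_pos
  have hlim : Tendsto (fun h => (1 - κ / 4) * (1 * vs C ξ h / Real.log (1 * vs C ξ h) / ws C ξ h) -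
      K * (1 / ws C ξ h + Real.sqrt (1 * vs C ξ h) * (1 + Real.log (ll C h + 1)) / ws C ξ h)) atTop
      (𝓝 ((1 - κ / 4) * 1 - K * (0 + 0))) :=
    (hv1.const_mul _).sub (((tendsto_const_nhds.div_atTop hw).add hs1).const_mul K)
  have hpi : Tendsto (fun h => Real.pi / ll C h) atTop (𝓝 0) :=
    tendsto_const_nhds.div_atTop (ll_atTop hC)
  have hbp : Tendsto (fun h => Real.log (vs C ξ h) / ll C h + Real.pi / ll C h) atTop
      (𝓝 (1 / C + 0)) := (beta hC ξ hξ).add hpi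
  have hexp : Tendsto (fun h => Real.exp (κ / 2 * ws C ξ h)) atTop atTop :=
    Real.tendsto_exp_atTop.comp (hw.const_mul_atTop (by positivity))
  filter_upwards [hlim.eventually_const_lt (show 1 - κ / 2 < (1 - κ / 4) * 1 - K * (0 + 0)
      by linarith),
    hw.eventually_gt_atTop 0, (ll_atTop hC).eventually_gt_atTop 0,
    (logv_atTop hC ξ hξ).eventually_ge_atTop 1, (v_atTop hC ξ hξ).eventually_gt_atTop 0,
    hbp.eventually_le_const (show 1 / C + 0 < b₁ by linarith), zz3 hC,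
    hexp.eventually_ge_atTop (2 / c₀)]
    with h h1 hw0 hl hlv1 hv0 hb hz3 hex2 q hq
  set β := Real.log (vs C ξ h) / ll C h with hβdef
  have hb0 : 0 < β := by positivity
  have hp0 : 0 < Real.pi / ll C h := by positivity
  have hpow : (zz C h : ℝ) ^ β = vs C ξ h := zz_pow h hl _ hv0
  have h2 := hG (zz C h) hz3 β hb0 (by linarith) (by
    rw [hpow, ← Real.exp_log hv0]
    exact Real.exp_le_exp.2 hlv1)
  rw [hpow] at h2
  have hll : Real.log (zz C h : ℝ) = ll C h := rfl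
  rw [hll] at h2
  have hre : (((1 - β : ℝ) : ℂ) + ((Real.pi / ll C h : ℝ) : ℂ) * Complex.I).re = 1 - β := by
    simp
  have h3 := zs_lower (((1 - β : ℝ) : ℂ) + ((Real.pi / ll C h : ℝ) : ℂ) * Complex.I)
    (by rw [hre]; linarith) (by rw [hre]; linarith)
  rw [hre] at h3
  have h4 : ‖1 - (((1 - β : ℝ) : ℂ) + ((Real.pi / ll C h : ℝ) : ℂ) * Complex.I)‖ ≤ b₁ := by
    have e1 : 1 - (((1 - β : ℝ) : ℂ) + ((Real.pi / ll C h : ℝ) : ℂ) * Complex.I) =
        ((β : ℝ) : ℂ) - ((Real.pi / ll C h : ℝ) : ℂ) * Complex.I := by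
      push_cast
      ring
    rw [e1]
    refine (norm_sub_le _ _).trans ?_
    rw [norm_mul, Complex.norm_I, mul_one, Complex.norm_real, Complex.norm_real,
      Real.norm_of_nonneg hb0.le, Real.norm_of_nonneg hp0.le]
    linarith
  have h5 : 0 < ‖1 - (((1 - β : ℝ) : ℂ) + ((Real.pi / ll C h : ℝ) : ℂ) * Complex.I)‖ := by
    rw [norm_pos_iff]
    intro h0
    have := congrArg Complex.re h0
    rw [Complex.sub_re, hre] at this
    simp at this
    linarith
  have h6 : 1 / b₁ ≤ 1 / ‖1 - (((1 - β : ℝ) : ℂ) +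
      ((Real.pi / ll C h : ℝ) : ℂ) * Complex.I)‖ := one_div_le_one_div_of_le h5 h4
  have h7 : 1 / (1 - β) ≤ 1 / (1 - b₁) := by
    apply one_div_le_one_div_of_le (by linarith)
    linarith
  have h8 : c₀ ≤ ‖zs (((1 - β : ℝ) : ℂ) + ((Real.pi / ll C h : ℝ) : ℂ) * Complex.I)‖ := by
    rw [hc₀]
    linarith
  have h9 : Real.exp ((1 - κ / 2) * ws C ξ h) ≤
      Real.exp ((1 - κ / 4) * (vs C ξ h / Real.log (vs C ξ h)) -
      K * (1 + Real.sqrt (vs C ξ h) * (1 + Real.log (ll C h + 1)))) := by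
    apply Real.exp_le_exp.2
    have h10 := mul_le_mul_of_nonneg_right h1.le hw0.le
    refine h10.trans (le_of_eq ?_)
    rw [one_mul]
    generalize Real.sqrt (vs C ξ h) * (1 + Real.log (ll C h + 1)) = S
    generalize vs C ξ h / Real.log (vs C ξ h) = T
    field_simp
  set s : ℂ := ((1 - β : ℝ) : ℂ) + ((Real.pi / ll C h : ℝ) : ℂ) * Complex.I with hs
  have hre0 : 0 ≤ s.re := by rw [hre]; linarith
  have h10 := norm_GG_ge hq s hre0
  have h11 := h9.trans h2
  have h12 : Real.exp ((1 - κ / 2) * ws C ξ h) =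
      Real.exp (κ / 2 * ws C ξ h) * Real.exp ((1 - κ) * ws C ξ h) := by
    rw [← Real.exp_add]
    congr 1
    ring
  have h13 : 2 / c₀ * Real.exp ((1 - κ) * ws C ξ h) ≤ 2 * ‖GG (erz (zz C h) q) s‖ := by
    calc 2 / c₀ * Real.exp ((1 - κ) * ws C ξ h)
        ≤ Real.exp (κ / 2 * ws C ξ h) * Real.exp ((1 - κ) * ws C ξ h) :=
          mul_le_mul_of_nonneg_right hex2 (Real.exp_pos _).le
      _ = Real.exp ((1 - κ / 2) * ws C ξ h) := h12.symm
      _ ≤ _ := h11.trans h10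
  have h14 : Real.exp ((1 - κ) * ws C ξ h) ≤ c₀ * ‖GG (erz (zz C h) q) s‖ := by
    have h15 : 2 / c₀ * Real.exp ((1 - κ) * ws C ξ h) = 2 * (Real.exp ((1 - κ) * ws C ξ h) / c₀) := by
      ring
    rw [h15] at h13
    have h16 : Real.exp ((1 - κ) * ws C ξ h) / c₀ ≤ ‖GG (erz (zz C h) q) s‖ := by linarith
    rw [div_le_iff₀ hc₀0] at h16
    linarith
  exact h14.trans (mul_le_mul_of_nonneg_right h8 (norm_nonneg _))

end Pool.Agent.LibH
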