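import Pool.Agent.LibH.Assembly

/-!
The number of large deviations of the number of primes in the windows `(m, m + c (log m)^λ]`.
-/

namespace Pool.Agent.LibH

open Filter Topology MeasureTheory
open Pool.Agent.LibMaier Pool.Agent.LibG2

/-- both signs, for `(λ - 1) t ≤ 1` -/
theorem primes_dev (hrem : Rem) (lam c t A ε : ℝ) (hlam : 1 < lam) (hc : 0 < c) (ht : 0 < t)
    (ht2 : t ≤ 1 / 2) (hlt : (lam - 1) * t ≤ 1) (hA : 0 ≤ A) (hε : 0 < ε) :
    ∀ᶠ X : ℕ in atTop, ∀ s : ℝ, (s = 1 ∨ s = -1) →
      (X : ℝ) * Real.exp (-(Real.log (Real.log X) ^ (lam / ((lam - 1) * t) + ε))) ≤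
        (devCount {p : ℕ | p.Prime} lam c t A s X : ℝ) := by
  have hl1 : 0 < lam - 1 := by linarith
  have hlt0 : 0 < (lam - 1) * t := by positivity
  set C₀ : ℝ := lam / ((lam - 1) * t) with hC₀
  have hC₀2 : 2 < C₀ := by
    rw [hC₀, lt_div_iff₀ hlt0]
    nlinarith
  set C : ℝ := C₀ + ε / 2 with hC
  set C' : ℝ := C₀ + 3 * ε / 4 with hC'
  have hC2 : 2 < C := by linarith
  have hC0 : 0 < C := by linarith
  have hC₀0 : 0 < C₀ := by linarith
  set ε₀ : ℝ := ε / (4 * C₀) with hε₀
  have hε₀0 : 0 < ε₀ := by positivity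
  have hlamC : lam = C₀ * ((lam - 1) * t) := by
    rw [hC₀]
    field_simp
  have ha : lam * ((1 + ε₀) / C) < (lam - 1) * t := by
    have h1 : lam * ((1 + ε₀) / C) = (C₀ * (1 + ε₀) / C) * ((lam - 1) * t) := by
      nth_rewrite 1 [hlamC]
      ring
    have h2 : C₀ * (1 + ε₀) / C < 1 := by
      rw [div_lt_one hC0, hε₀, hC]
      have : C₀ * (1 + ε / (4 * C₀)) = C₀ + ε / 4 := by field_simp
      rw [this]
      linarith
    rw [h1]
    calc C₀ * (1 + ε₀) / C * ((lam - 1) * t) < 1 * ((lam - 1) * t) :=
          mul_lt_mul_of_pos_right h2 hlt0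
      _ = _ := one_mul _
  obtain ⟨H₀, U₀, K, hK, hfix⟩ := fixed hrem C ε₀ hC2 hε₀0
  have hLN : Tendsto (fun N : ℕ => Real.log (N : ℝ)) atTop atTop :=
    Real.tendsto_log_atTop.comp tendsto_natCast_atTop_atTop
  have hcond := hLN.eventually (conds lam c t A C C' (C₀ + ε) ε₀ K U₀ H₀ hlam hc ht (by linarith)
    hC2 (by rw [hC, hC']; linarith) (by rw [hC']; linarith) ha (by linarith) hε₀0)
  filter_upwards [hcond, eventually_ge_atTop 3] with N hN hN3 s hs
  obtain ⟨c1, c2, c3, c4, c5, c6, c7, c8, c9, c10, c11, c12, c13⟩ := hN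
  obtain ⟨L, hL⟩ : ∃ L, L = Real.log (N : ℝ) := ⟨_, rfl⟩
  rw [← hL] at c1 c2 c3 c4 c5 c6 c7 c8 c9 c10 c11 c12 c13 ⊢
  obtain ⟨U, hU⟩ : ∃ U, U = Real.log L ^ C' := ⟨_, rfl⟩
  rw [← hU] at c3 c4 c5 c6 c7 c8 c9 c10 c11
  have hL0 : 0 < L := by linarith
  have hU0 : 0 < U := by
    rw [hU]
    positivity
  have hN0 : (0 : ℝ) < N := by
    have : 0 < N := by omega
    exact_mod_cast this
  have hNexp : (N : ℝ) = Real.exp L := by rw [hL, Real.exp_log hN0]
  set g : ℝ := (1 + ε₀) / C with hg
  have hg0 : 0 < g := by positivity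
  set M : ℝ := c * L ^ (lam - 1) with hM
  have hM0 : 0 < M := by positivity
  have hML : M * L = c * L ^ lam := by
    rw [hM, mul_assoc, ← Real.rpow_add_one hL0.ne']
    congr 2
    ring
  have hUL : 8 * U ≤ L / 2 := by
    have : 8 * U ≤ 8 * lam * U := by nlinarith
    linarith
  -- `(1 - 8U/L)^λ ≥ 1 - 8 λ U/L`
  have hbern : 1 - lam * (8 * U / L) ≤ (1 - 8 * U / L) ^ lam := by
    have h1 := one_add_mul_self_le_rpow_one_add (s := -(8 * U / L)) (by
      have : 8 * U / L ≤ 1 := by rw [div_le_one hL0]; linarith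
      linarith) hlam.le
    have h2 : 1 + lam * -(8 * U / L) = 1 - lam * (8 * U / L) := by ring
    have h3 : 1 + -(8 * U / L) = 1 - 8 * U / L := by ring
    rw [h2, h3] at h1
    exact h1
  have hx1 : 0 ≤ 1 - 8 * U / L := by
    have : 8 * U / L ≤ 1 := by rw [div_le_one hL0]; linarith
    linarith
  have hLU : L - 8 * U = L * (1 - 8 * U / L) := by field_simp
  -- the rows
  have hrow : ∀ n : ℕ, Real.exp (-(8 * U)) * N ≤ (n : ℝ) → n ≤ N →
      3 ≤ n ∧ L - 8 * U ≤ Real.log n ∧ Real.log n ≤ L := by
    intro n hn hnN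
    have h1 : Real.exp (L - 8 * U) ≤ n := by
      rw [hNexp, ← Real.exp_add] at hn
      refine le_trans (le_of_eq ?_) hn
      congr 1
      ring
    have h2 : (3 : ℝ) ≤ n := c13.trans ((Real.exp_le_exp.2 (by linarith)).trans h1)
    have hn0 : (0 : ℝ) < n := by linarith
    refine ⟨by exact_mod_cast h2, ?_, ?_⟩
    · rw [← Real.log_exp (L - 8 * U)]
      exact Real.log_le_log (Real.exp_pos _) h1
    · rw [hL]
      exact Real.log_le_log hn0 (by exact_mod_cast hnN)
  have hdev : ∀ n : ℕ, Real.log n ≤ L → 1 ≤ Real.log n →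
      dev lam c t A n ≤ M ^ (1 - t) * Real.log L ^ A := by
    intro n h1 h2
    unfold dev mean
    have h3 : 0 ≤ Real.log (Real.log n) := Real.log_nonneg h2
    have h4 : Real.log (Real.log n) ≤ Real.log L := Real.log_le_log (by linarith) h1
    have h5 : c * Real.log n ^ (lam - 1) ≤ M := by
      rw [hM]
      apply mul_le_mul_of_nonneg_left _ hc.le
      exact Real.rpow_le_rpow (by linarith) h1 hl1.le
    have h6 : 0 ≤ c * Real.log n ^ (lam - 1) := by positivity
    apply mul_le_mul
    · exact Real.rpow_le_rpow h6 h5 (by linarith)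
    · exact Real.rpow_le_rpow h3 h4 hA
    · exact Real.rpow_nonneg h3 _
    · positivity
  have hMt : M ^ (1 - t) = M * M ^ (-t) := by
    rw [sub_eq_add_neg, Real.rpow_add hM0, Real.rpow_one]
  have hfin : (N : ℝ) * Real.exp (-(Real.log L ^ (C₀ + ε))) ≤ Real.exp (-(12 * U)) * N := by
    rw [mul_comm]
    apply mul_le_mul_of_nonneg_right _ hN0.le
    apply Real.exp_le_exp.2
    linarith
  have hlogh : ∀ h : ℕ, 1 ≤ h → (h : ℝ) ≤ c * L ^ lam → Real.log h ^ C ≤ U := by
    intro h h1 h2
    have h0 : (1 : ℝ) ≤ h := by exact_mod_cast h1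
    refine le_trans ?_ c7
    apply Real.rpow_le_rpow (Real.log_nonneg h0) _ hC0.le
    calc Real.log h ≤ Real.log (c * L ^ lam) := Real.log_le_log (by linarith) h2
      _ = Real.log c + lam * Real.log L := by
          rw [Real.log_mul hc.ne' (by positivity), Real.log_rpow hL0]
      _ ≤ |Real.log c| + lam * Real.log L := by
          have := le_abs_self (Real.log c)
          linarith
  have hηle : ∀ h : ℕ, 1 ≤ h → (h : ℝ) ≤ c * L ^ lam → (c * L ^ lam) ^ (-g) ≤ (h : ℝ) ^ (-g) := by
    intro h h1 h2
    have h0 : (1 : ℝ) ≤ h := by exact_mod_cast h1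
    exact Real.rpow_le_rpow_of_nonpos (by linarith) h2 (by linarith)
  refine hfin.trans ?_
  rcases hs with rfl | rfl
  · -- high side
    obtain ⟨h, hh⟩ : ∃ h : ℕ, h = ⌊c * (L - 8 * U) ^ lam⌋₊ := ⟨_, rfl⟩
    have hbase : (L / 2) ^ lam ≤ (L - 8 * U) ^ lam :=
      Real.rpow_le_rpow (by linarith) (by linarith) (by linarith)
    have hhle : (h : ℝ) ≤ c * (L - 8 * U) ^ lam := by
      rw [hh]
      exact Nat.floor_le (mul_nonneg hc.le (Real.rpow_nonneg (by linarith) _))
    have hhge : c * (L - 8 * U) ^ lam - 1 ≤ h := by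
      rw [hh]
      exact (Nat.sub_one_lt_floor _).le
    have hhle' : (h : ℝ) ≤ c * L ^ lam := by
      refine hhle.trans ?_
      apply mul_le_mul_of_nonneg_left _ hc.le
      exact Real.rpow_le_rpow (by linarith) (by linarith) (by linarith)
    have hhH : H₀ ≤ h := by
      have h1 : (H₀ : ℝ) ≤ h := by
        have : c * (L / 2) ^ lam ≤ c * (L - 8 * U) ^ lam := mul_le_mul_of_nonneg_left hbase hc.le
        linarith
      exact_mod_cast h1
    have hh1 : 1 ≤ h := by
      by_contra hcon
      have h0 : h = 0 := by omega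
      have h1 : (H₀ : ℝ) + 1 ≤ c * (L - 8 * U) ^ lam :=
        c12.trans (mul_le_mul_of_nonneg_left hbase hc.le)
      have h2 : (0 : ℝ) ≤ H₀ := Nat.cast_nonneg _
      have h3 : 1 ≤ h := by
        rw [hh]
        exact Nat.le_floor (by push_cast; linarith)
      omega
    have hη1 := hηle h hh1 hhle'
    have hkey := (hfix h hhH U c3 (hlogh h hh1 hhle') (hhle'.trans c6) N (by rw [← hL]; exact c4)
      (by rw [← hL]; exact c5) (by rw [← hL]; exact c8.trans hη1)).1
    refine hkey.trans ?_
    rw [← hL]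
    unfold devCount
    have hsub : (Finset.Icc 1 N).filter (fun n =>
        (1 + (h : ℝ) ^ (-g) / 2) * (h / L) ≤ (pw n h : ℝ) ∧ Real.exp (-(8 * U)) * N ≤ (n : ℝ)) ⊆
        (Finset.Icc 3 N).filter (fun m => dev lam c t A m ≤
          1 * ((cnt {p : ℕ | p.Prime} m (hl lam c m) : ℝ) - mean lam c m)) := by
      intro n hn
      rw [Finset.mem_filter, Finset.mem_Icc] at hn
      obtain ⟨⟨hn1, hn2⟩, hn3, hn4⟩ := hn
      obtain ⟨r1, r2, r3⟩ := hrow n hn4 hn2
      have hlogn : 1 ≤ Real.log n := by
        have : L / 2 ≤ Real.log n := by linarith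
        have h1 : (1 : ℝ) ≤ L / 2 := by
          have h2 : Real.log L ≤ L / 2 := by
            have h3 := Real.log_le_sub_one_of_pos (show 0 < L / 2 by linarith)
            have h4 : Real.log L = Real.log (L / 2) + Real.log 2 := by
              rw [← Real.log_mul (by positivity) (by norm_num)]
              congr 1
              ring
            have h5 := Real.log_two_lt_d9
            linarith
          linarith
        linarith
      rw [Finset.mem_filter, Finset.mem_Icc]
      refine ⟨⟨r1, hn2⟩, ?_⟩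
      rw [one_mul, cnt_primes]
      have h1 : h ≤ hl lam c n := by
        unfold hl
        rw [hh]
        apply Nat.floor_le_floor
        apply mul_le_mul_of_nonneg_left _ hc.le
        exact Real.rpow_le_rpow (by linarith) r2 (by linarith)
      have h2 : (pw n h : ℝ) ≤ pw n (hl lam c n) := by exact_mod_cast pw_mono h1
      have h3 : mean lam c n ≤ M := by
        unfold mean
        rw [hM]
        apply mul_le_mul_of_nonneg_left _ hc.le
        exact Real.rpow_le_rpow (by linarith) r3 hl1.le
      have h4 := hdev n r3 hlogn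
      -- `M + M^{1-t} (log L)^A ≤ (1 + η/2) (h / L)`
      have h5 : M * (1 - lam * (8 * U / L)) - 1 ≤ h / L := by
        have h6 : M * (1 - lam * (8 * U / L)) * L ≤ c * (L - 8 * U) ^ lam := by
          calc M * (1 - lam * (8 * U / L)) * L = (M * L) * (1 - lam * (8 * U / L)) := by ring
            _ = (c * L ^ lam) * (1 - lam * (8 * U / L)) := by rw [hML]
            _ ≤ (c * L ^ lam) * (1 - 8 * U / L) ^ lam :=
                mul_le_mul_of_nonneg_left hbern (by positivity)
            _ = c * (L - 8 * U) ^ lam := by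
                rw [hLU, Real.mul_rpow hL0.le hx1]
                ring
        rw [le_div_iff₀ hL0]
        have : (M * (1 - lam * (8 * U / L)) - 1) * L = M * (1 - lam * (8 * U / L)) * L - L := by ring
        rw [this]
        linarith
      set η : ℝ := (h : ℝ) ^ (-g) with hη
      have hη0 : 0 ≤ η := by positivity
      have hηle1 : η ≤ 1 := by
        apply Real.rpow_le_one_of_one_le_of_nonpos (by exact_mod_cast hh1)
        linarith
      have h6 : (1 + η / 2) * (M * (1 - lam * (8 * U / L)) - 1) ≤ (1 + η / 2) * (h / L) :=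
        mul_le_mul_of_nonneg_left h5 (by linarith)
      have hlU : 0 ≤ lam * (8 * U / L) := by positivity
      have h7 : M * (1 + η / 2 - 16 * lam * (U / L)) - 2 ≤
          (1 + η / 2) * (M * (1 - lam * (8 * U / L)) - 1) := by
        have h8 : (1 + η / 2) * (M * (1 - lam * (8 * U / L)) - 1) =
            M * (1 + η / 2) - M * ((1 + η / 2) * (lam * (8 * U / L))) - (1 + η / 2) := by ring
        have h9 : (1 + η / 2) * (lam * (8 * U / L)) ≤ 2 * (lam * (8 * U / L)) :=
          mul_le_mul_of_nonneg_right (by linarith) hlU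
        have h10 := mul_le_mul_of_nonneg_left h9 hM0.le
        have h11 : M * (1 + η / 2 - 16 * lam * (U / L)) =
            M * (1 + η / 2) - M * (2 * (lam * (8 * U / L))) := by ring
        rw [h8, h11]
        linarith
      have h8 : M + M ^ (1 - t) * Real.log L ^ A ≤ M * (1 + η / 2 - 16 * lam * (U / L)) - 2 := by
        have h9 : 16 * lam * (U / L) + 2 / M + M ^ (-t) * Real.log L ^ A ≤ η / 2 := by
          linarith
        have h10 := mul_le_mul_of_nonneg_left h9 hM0.le
        have h11 : M * (16 * lam * (U / L) + 2 / M + M ^ (-t) * Real.log L ^ A) =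
            M * (16 * lam * (U / L)) + 2 + M * M ^ (-t) * Real.log L ^ A := by
          field_simp
        rw [h11, ← hMt] at h10
        have h12 : M * (1 + η / 2 - 16 * lam * (U / L)) =
            M + M * (η / 2) - M * (16 * lam * (U / L)) := by ring
        rw [h12]
        linarith
      linarith
    exact_mod_cast Finset.card_le_card hsub
  · -- low side
    obtain ⟨h, hh⟩ : ∃ h : ℕ, h = ⌊c * L ^ lam⌋₊ := ⟨_, rfl⟩
    have hhle : (h : ℝ) ≤ c * L ^ lam := by
      rw [hh]
      exact Nat.floor_le (by positivity)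
    have hbase : (L / 2) ^ lam ≤ L ^ lam :=
      Real.rpow_le_rpow (by linarith) (by linarith) (by linarith)
    have hhge : c * L ^ lam - 1 ≤ h := by
      rw [hh]
      exact (Nat.sub_one_lt_floor _).le
    have hhH : H₀ ≤ h := by
      have h1 : (H₀ : ℝ) ≤ h := by
        have : c * (L / 2) ^ lam ≤ c * L ^ lam := mul_le_mul_of_nonneg_left hbase hc.le
        linarith
      exact_mod_cast h1
    have hh1 : 1 ≤ h := by
      have h1 : (H₀ : ℝ) + 1 ≤ c * L ^ lam :=
        c12.trans (mul_le_mul_of_nonneg_left hbase hc.le)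
      have h2 : (0 : ℝ) ≤ H₀ := Nat.cast_nonneg _
      rw [hh]
      exact Nat.le_floor (by push_cast; linarith)
    have hη1 := hηle h hh1 hhle
    have hkey := (hfix h hhH U c3 (hlogh h hh1 hhle) (hhle.trans c6) N (by rw [← hL]; exact c4)
      (by rw [← hL]; exact c5) (by rw [← hL]; exact c8.trans hη1)).2
    refine hkey.trans ?_
    rw [← hL]
    unfold devCount
    have hsub : (Finset.Icc 1 N).filter (fun n =>
        (pw n h : ℝ) ≤ (1 - (h : ℝ) ^ (-g) / 2) * (h / L) ∧ Real.exp (-(8 * U)) * N ≤ (n : ℝ)) ⊆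
        (Finset.Icc 3 N).filter (fun m => dev lam c t A m ≤
          -1 * ((cnt {p : ℕ | p.Prime} m (hl lam c m) : ℝ) - mean lam c m)) := by
      intro n hn
      rw [Finset.mem_filter, Finset.mem_Icc] at hn
      obtain ⟨⟨hn1, hn2⟩, hn3, hn4⟩ := hn
      obtain ⟨r1, r2, r3⟩ := hrow n hn4 hn2
      have hlogn : 1 ≤ Real.log n := by
        have : L / 2 ≤ Real.log n := by linarith
        have h1 : (1 : ℝ) ≤ L / 2 := by
          have h2 : Real.log L ≤ L / 2 := by
            have h3 := Real.log_le_sub_one_of_pos (show 0 < L / 2 by linarith)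
            have h4 : Real.log L = Real.log (L / 2) + Real.log 2 := by
              rw [← Real.log_mul (by positivity) (by norm_num)]
              congr 1
              ring
            have h5 := Real.log_two_lt_d9
            linarith
          linarith
        linarith
      rw [Finset.mem_filter, Finset.mem_Icc]
      refine ⟨⟨r1, hn2⟩, ?_⟩
      rw [cnt_primes]
      have h1 : hl lam c n ≤ h := by
        unfold hl
        rw [hh]
        apply Nat.floor_le_floor
        apply mul_le_mul_of_nonneg_left _ hc.le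
        exact Real.rpow_le_rpow (by linarith) r3 (by linarith)
      have h2 : (pw n (hl lam c n) : ℝ) ≤ pw n h := by exact_mod_cast pw_mono h1
      have h4 := hdev n r3 hlogn
      have h3 : M * (1 - lam * (8 * U / L)) ≤ mean lam c n := by
        unfold mean
        have h5 : (L - 8 * U) ^ (lam - 1) ≤ Real.log n ^ (lam - 1) :=
          Real.rpow_le_rpow (by linarith) r2 hl1.le
        have h6 : (1 - 8 * U / L) ^ lam ≤ (1 - 8 * U / L) ^ (lam - 1) := by
          apply Real.rpow_le_rpow_of_exponent_ge' hx1 _ hl1.le (by linarith)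
          have : 0 ≤ 8 * U / L := by positivity
          linarith
        calc M * (1 - lam * (8 * U / L)) ≤ M * (1 - 8 * U / L) ^ (lam - 1) :=
              mul_le_mul_of_nonneg_left (hbern.trans h6) hM0.le
          _ = c * (L - 8 * U) ^ (lam - 1) := by
              rw [hM, hLU, Real.mul_rpow hL0.le hx1]
              ring
          _ ≤ _ := mul_le_mul_of_nonneg_left h5 hc.le
      set η : ℝ := (h : ℝ) ^ (-g) with hη
      have hη0 : 0 ≤ η := by positivity
      have hηle1 : η ≤ 1 := by
        apply Real.rpow_le_one_of_one_le_of_nonpos (by exact_mod_cast hh1)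
        linarith
      have h5 : (1 - η / 2) * (h / L) ≤ (1 - η / 2) * M := by
        apply mul_le_mul_of_nonneg_left _ (by linarith)
        rw [div_le_iff₀ hL0, hML]
        exact hhle
      have h8 : (1 - η / 2) * M ≤ M * (1 - lam * (8 * U / L)) - M ^ (1 - t) * Real.log L ^ A := by
        have h9 : lam * (8 * U / L) + M ^ (-t) * Real.log L ^ A ≤ η / 2 := by
          have h10 : 0 ≤ 2 / M := by positivity
          have h11 : lam * (8 * U / L) ≤ 16 * lam * (U / L) := by
            have : lam * (8 * U / L) = 8 * lam * (U / L) := by ring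
            rw [this]
            have : 0 ≤ lam * (U / L) := by positivity
            linarith
          linarith
        have h10 := mul_le_mul_of_nonneg_left h9 hM0.le
        have h11 : M * (lam * (8 * U / L) + M ^ (-t) * Real.log L ^ A) =
            M * (lam * (8 * U / L)) + M * M ^ (-t) * Real.log L ^ A := by ring
        rw [h11, ← hMt] at h10
        linarith
      linarith
    exact_mod_cast Finset.card_le_card hsub

end Pool.Agent.LibH
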