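import Pool.Agent.LibMaier.APSum

/-!
The prime number theorem with a Gaussian weight and remainder `O(1/x)` on the logarithmic scale:
`|S0 x - 1| ≤ K / x`.  The proof only uses the line `Re s = 1` from the right: polynomial growth of
`(s - 1) ζ(s)`, its first two derivatives and its inverse, and one integration by parts.
-/

namespace Pool.Agent.LibH

open Filter Topology Complex MeasureTheory DirichletCharacter
open scoped ArithmeticFunction.vonMangoldt
open Pool.Agent.LibMaier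

/-! ### growth of `(s - 1) ζ(s)` -/

lemma norm_zeta1_le {s : ℂ} (hs : 1 / 2 ≤ s.re) :
    ‖riemannZeta₁ s‖ ≤ 1 + ‖s - 1‖ * (1 + 2 * ‖s‖) := by
  by_cases h1 : s = 1
  · subst h1; simp [riemannZeta₁_one]
  · have hs0 : 0 < s.re := by linarith
    have hz := LibZM.zeta_approx hs0 h1 (le_refl 1)
    simp only [Finset.Icc_self, Finset.sum_singleton, Nat.cast_one, Complex.one_cpow,
      Real.one_rpow, mul_one] at hz
    have h2 : s - 1 ≠ 0 := sub_ne_zero.mpr h1
    have h2' : 1 - s ≠ 0 := sub_ne_zero.mpr (Ne.symm h1)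
    have e : riemannZeta₁ s = (s - 1) * (riemannZeta s - (1 - 1 / (1 - s))) + (s - 1) + 1 := by
      rw [riemannZeta_eq_inv_sub_mul h1]; field_simp; ring
    have h3 : ‖s‖ / s.re ≤ 2 * ‖s‖ := by
      rw [div_le_iff₀ hs0]
      nlinarith [norm_nonneg s]
    calc ‖riemannZeta₁ s‖ ≤ ‖s - 1‖ * ‖riemannZeta s - (1 - 1 / (1 - s))‖ + ‖s - 1‖ + 1 := by
          rw [e]
          refine (norm_add_le _ _).trans ?_
          rw [norm_one]
          gcongr
          refine (norm_add_le _ _).trans ?_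
          rw [norm_mul]
      _ ≤ ‖s - 1‖ * (2 * ‖s‖) + ‖s - 1‖ + 1 := by
          have := hz.trans h3
          gcongr
      _ = _ := by ring

lemma norm_g_le {s : ℂ} (hs : 1 / 2 ≤ s.re) (hs3 : s.re ≤ 3) :
    ‖riemannZeta₁ s‖ ≤ 2 * (|s.im| + 5) ^ 2 := by
  have h := norm_zeta1_le hs
  have h1 : ‖s‖ ≤ 3 + |s.im| := by
    refine (Complex.norm_le_abs_re_add_abs_im s).trans ?_
    rw [abs_of_pos (by linarith : (0 : ℝ) < s.re)]
    linarith
  have h2 : ‖s - 1‖ ≤ 2 + |s.im| := by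
    refine (Complex.norm_le_abs_re_add_abs_im (s - 1)).trans ?_
    have e1 : (s - 1).re = s.re - 1 := by simp
    have e2 : (s - 1).im = s.im := by simp
    rw [e1, e2]
    have : |s.re - 1| ≤ 2 := by rw [abs_le]; constructor <;> linarith
    linarith
  have h3 := abs_nonneg s.im
  calc ‖riemannZeta₁ s‖ ≤ 1 + ‖s - 1‖ * (1 + 2 * ‖s‖) := h
    _ ≤ 1 + (2 + |s.im|) * (1 + 2 * (3 + |s.im|)) := by gcongr
    _ ≤ 2 * (|s.im| + 5) ^ 2 := by nlinarith

lemma norm_dg_le {s : ℂ} (hs : 3 / 4 ≤ s.re) (hs3 : s.re ≤ 11 / 4) :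
    ‖deriv riemannZeta₁ s‖ ≤ 8 * (|s.im| + 6) ^ 2 := by
  have h := Complex.norm_deriv_le_of_forall_mem_sphere_norm_le (c := s) (R := 1 / 4)
    (C := 2 * (|s.im| + 6) ^ 2) (f := riemannZeta₁) (by norm_num)
    differentiable_riemannZeta₁.diffContOnCl (fun z hz => by
      have hz' : ‖z - s‖ = 1 / 4 := by simpa [dist_eq_norm] using hz
      have h1 : |(z - s).re| ≤ 1 / 4 := (Complex.abs_re_le_norm _).trans hz'.le
      have h2 : |(z - s).im| ≤ 1 / 4 := (Complex.abs_im_le_norm _).trans hz'.le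
      rw [Complex.sub_re, abs_le] at h1
      have h3 : |z.im| ≤ |s.im| + 1 / 4 := by
        rw [Complex.sub_im] at h2
        have := abs_sub_abs_le_abs_sub z.im s.im
        linarith
      refine (norm_g_le (by linarith) (by linarith)).trans ?_
      have h4 := abs_nonneg z.im
      have h5 : (|z.im| + 5) ^ 2 ≤ (|s.im| + 6) ^ 2 :=
        pow_le_pow_left₀ (by linarith) (by linarith) 2
      linarith)
  refine h.trans (le_of_eq ?_)
  ring

lemma norm_ddg_le {s : ℂ} (hs : 1 ≤ s.re) (hs3 : s.re ≤ 2) :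
    ‖deriv (deriv riemannZeta₁) s‖ ≤ 32 * (|s.im| + 7) ^ 2 := by
  have hd : Differentiable ℂ (deriv riemannZeta₁) := by
    have := differentiable_riemannZeta₁.contDiff (n := 2)
    exact (this.differentiable_deriv_two)
  have h := Complex.norm_deriv_le_of_forall_mem_sphere_norm_le (c := s) (R := 1 / 4)
    (C := 8 * (|s.im| + 7) ^ 2) (f := deriv riemannZeta₁) (by norm_num)
    hd.diffContOnCl (fun z hz => by
      have hz' : ‖z - s‖ = 1 / 4 := by simpa [dist_eq_norm] using hz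
      have h1 : |(z - s).re| ≤ 1 / 4 := (Complex.abs_re_le_norm _).trans hz'.le
      have h2 : |(z - s).im| ≤ 1 / 4 := (Complex.abs_im_le_norm _).trans hz'.le
      rw [Complex.sub_re, abs_le] at h1
      have h3 : |z.im| ≤ |s.im| + 1 / 4 := by
        rw [Complex.sub_im] at h2
        have := abs_sub_abs_le_abs_sub z.im s.im
        linarith
      refine (norm_dg_le (by linarith) (by linarith)).trans ?_
      have h4 := abs_nonneg z.im
      have h5 : (|z.im| + 6) ^ 2 ≤ (|s.im| + 7) ^ 2 :=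
        pow_le_pow_left₀ (by linarith) (by linarith) 2
      linarith)
  refine h.trans (le_of_eq ?_)
  ring

/-- the common bound -/
noncomputable def MM (y : ℝ) : ℝ := 32 * (|y| + 7) ^ 2

lemma one_le_MM (y : ℝ) : 1 ≤ MM y := by
  unfold MM
  have := abs_nonneg y
  nlinarith

lemma g_le_MM {s : ℂ} (hs : 1 ≤ s.re) (hs3 : s.re ≤ 2) : ‖riemannZeta₁ s‖ ≤ MM s.im := by
  refine (norm_g_le (by linarith) (by linarith)).trans ?_
  unfold MM
  have := abs_nonneg s.im
  nlinarith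

lemma dg_le_MM {s : ℂ} (hs : 1 ≤ s.re) (hs3 : s.re ≤ 2) : ‖deriv riemannZeta₁ s‖ ≤ MM s.im := by
  refine (norm_dg_le (by linarith) (by linarith)).trans ?_
  unfold MM
  have := abs_nonneg s.im
  nlinarith

lemma ddg_le_MM {s : ℂ} (hs : 1 ≤ s.re) (hs3 : s.re ≤ 2) :
    ‖deriv (deriv riemannZeta₁) s‖ ≤ MM s.im := norm_ddg_le hs hs3

/-- 3-4-1 -/
lemma prod_g_ge {x : ℝ} (hx : 0 < x) {y : ℝ} (hy : 1 ≤ |y|) :
    x ^ 3 ≤ ‖riemannZeta₁ (1 + x)‖ ^ 3 * ‖riemannZeta₁ (1 + x + I * y)‖ ^ 4 *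
      ‖riemannZeta₁ (1 + x + 2 * I * y)‖ := by
  have h := norm_LFunction_product_ge_one (N := 1) (1 : DirichletCharacter ℂ 1) hx y
  rw [LFunctionTrivChar, one_pow, LFunction_modOne_eq] at h
  have hne : ∀ z : ℂ, z.re ≠ 0 ∨ z.im ≠ 0 → (1 : ℂ) + z ≠ 1 := by
    intro z hz h0
    have : z = 0 := by linear_combination h0
    rw [this] at hz
    simp at hz
  have e0 : riemannZeta (1 + (x : ℂ)) = ((x : ℂ))⁻¹ * riemannZeta₁ (1 + x) := by
    rw [riemannZeta_eq_inv_sub_mul (hne _ (Or.inl (by simpa using hx.ne')))]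
    congr 2
    ring
  have e1 : riemannZeta (1 + (x : ℂ) + I * y) = ((x : ℂ) + I * y)⁻¹ * riemannZeta₁ (1 + x + I * y) := by
    rw [riemannZeta_eq_inv_sub_mul (by
      rw [add_assoc]; exact hne _ (Or.inl (by simpa using hx.ne')))]
    congr 2
    ring
  have e2 : riemannZeta (1 + (x : ℂ) + 2 * I * y) =
      ((x : ℂ) + 2 * I * y)⁻¹ * riemannZeta₁ (1 + x + 2 * I * y) := by
    rw [riemannZeta_eq_inv_sub_mul (by
      rw [add_assoc]; exact hne _ (Or.inl (by simpa using hx.ne')))]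
    congr 2
    ring
  rw [e0, e1, e2] at h
  simp only [norm_mul, norm_pow, norm_inv, mul_pow, inv_pow] at h
  have hn0 : ‖(x : ℂ)‖ = x := by rw [Complex.norm_real, Real.norm_eq_abs, abs_of_pos hx]
  have hn1 : 1 ≤ ‖(x : ℂ) + I * y‖ := by
    refine hy.trans ?_
    have := Complex.abs_im_le_norm ((x : ℂ) + I * y)
    simpa using this
  have hn2 : 1 ≤ ‖(x : ℂ) + 2 * I * y‖ := by
    have := Complex.abs_im_le_norm ((x : ℂ) + 2 * I * y)
    have h3 : ((x : ℂ) + 2 * I * y).im = 2 * y := by simp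
    rw [h3, abs_mul, abs_two] at this
    linarith
  rw [hn0] at h
  set a := ‖riemannZeta₁ (1 + (x : ℂ))‖
  set b := ‖riemannZeta₁ (1 + (x : ℂ) + I * y)‖
  set c := ‖riemannZeta₁ (1 + (x : ℂ) + 2 * I * y)‖
  set u := ‖(x : ℂ) + I * y‖
  set v := ‖(x : ℂ) + 2 * I * y‖
  have ha : 0 ≤ a := norm_nonneg _
  have hb : 0 ≤ b := norm_nonneg _
  have hc : 0 ≤ c := norm_nonneg _
  have hu4 : (u ^ 4)⁻¹ ≤ 1 := inv_le_one_of_one_le₀ (one_le_pow₀ hn1)
  have hv1 : v⁻¹ ≤ 1 := inv_le_one_of_one_le₀ hn2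
  have hx3 : 0 < x ^ 3 := by positivity
  calc x ^ 3 ≤ x ^ 3 * ((x ^ 3)⁻¹ * a ^ 3 * ((u ^ 4)⁻¹ * b ^ 4) * (v⁻¹ * c)) := by
        nlinarith
    _ = a ^ 3 * ((u ^ 4)⁻¹ * b ^ 4) * (v⁻¹ * c) := by field_simp
    _ ≤ a ^ 3 * (1 * b ^ 4) * (1 * c) := by gcongr
    _ = a ^ 3 * b ^ 4 * c := by ring

/-- lower bound off the real axis -/
lemma g_lower_far {x : ℝ} (hx : 0 < x) (hx1 : x ≤ 1) {y : ℝ} (hy : 1 ≤ |y|) :
    1 / (64 * MM 0 ^ 3 * MM y ^ 4) ≤ ‖riemannZeta₁ (1 + x + I * y)‖ := by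
  set M := MM y with hM
  set M0 := MM 0 with hM0
  have hM1 : 1 ≤ M := one_le_MM y
  have hM01 : 1 ≤ M0 := one_le_MM 0
  set η : ℝ := 1 / (64 * M0 ^ 3 * M ^ 5) with hη
  have hη0 : 0 < η := by positivity
  have hη1 : η ≤ 1 := by
    rw [hη, div_le_one (by positivity)]
    have h1 : 1 ≤ M0 ^ 3 := one_le_pow₀ hM01
    have h2 : 1 ≤ M ^ 5 := one_le_pow₀ hM1
    nlinarith [mul_le_mul h1 h2 (by norm_num) (by linarith)]
  have hbig : ∀ x' : ℝ, η ≤ x' → x' ≤ 1 → 2 * η * M ≤ ‖riemannZeta₁ (1 + x' + I * y)‖ := by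
    intro x' h1 h2
    have hx' : 0 < x' := lt_of_lt_of_le hη0 h1
    have h := prod_g_ge hx' hy
    have b0 : ‖riemannZeta₁ (1 + (x' : ℂ))‖ ≤ M0 := by
      have := g_le_MM (s := 1 + (x' : ℂ)) (by simp; linarith) (by simp; linarith)
      simpa using this
    have b2 : ‖riemannZeta₁ (1 + (x' : ℂ) + 2 * I * y)‖ ≤ 4 * M := by
      have := g_le_MM (s := 1 + (x' : ℂ) + 2 * I * y) (by simp; linarith) (by simp; linarith)
      refine this.trans ?_
      have e : (1 + (x' : ℂ) + 2 * I * y).im = 2 * y := by simp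
      rw [e, hM]
      unfold MM
      rw [abs_mul, abs_two]
      have := abs_nonneg y
      nlinarith
    set b := ‖riemannZeta₁ (1 + (x' : ℂ) + I * y)‖
    have hb : 0 ≤ b := norm_nonneg _
    have h3 : x' ^ 3 ≤ M0 ^ 3 * b ^ 4 * (4 * M) := by
      refine h.trans ?_
      gcongr
    have h4 : (2 * η * M) ^ 4 ≤ b ^ 4 := by
      have h5 : η ^ 3 ≤ M0 ^ 3 * b ^ 4 * (4 * M) := le_trans (by gcongr) h3
      have h6 : (2 * η * M) ^ 4 = η ^ 3 / (M0 ^ 3 * (4 * M)) := by
        rw [mul_pow, mul_pow]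
        have : η ^ 4 = η ^ 3 * (1 / (64 * M0 ^ 3 * M ^ 5)) := by rw [pow_succ]
        rw [this]
        field_simp
        ring
      rw [h6, div_le_iff₀ (by positivity)]
      linarith
    exact (pow_le_pow_iff_left₀ (by positivity) hb (by norm_num)).1 h4
  have hfin : η * M = 1 / (64 * M0 ^ 3 * M ^ 4) := by
    rw [hη]
    field_simp
  rw [← hfin]
  rcases le_or_gt η x with h1 | h1
  · refine le_trans ?_ (hbig x h1 hx1)
    nlinarith [mul_pos hη0 (by linarith : 0 < M)]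
  · have h2 := hbig η le_rfl hη1
    have hconv : Convex ℝ {w : ℂ | 1 ≤ w.re ∧ w.re ≤ 2 ∧ w.im = y} := by
      intro a ha b hb r s hr hs hrs
      simp only [Set.mem_ofPred_eq, Complex.add_re, Complex.add_im, Complex.real_smul,
        Complex.mul_re, Complex.mul_im, Complex.ofReal_re, Complex.ofReal_im, zero_mul, sub_zero,
        add_zero] at *
      refine ⟨?_, ?_, ?_⟩
      · nlinarith [ha.1, hb.1]
      · nlinarith [ha.2.1, hb.2.1]
      · rw [ha.2.2, hb.2.2, ← add_mul, hrs, one_mul]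
    have h3 := hconv.norm_image_sub_le_of_norm_deriv_le (f := riemannZeta₁) (C := M)
      (x := 1 + (x : ℂ) + I * y) (y := 1 + (η : ℂ) + I * y)
      (fun w _ => differentiable_riemannZeta₁ w)
      (fun w hw => by
        have := dg_le_MM (s := w) hw.1 hw.2.1
        rwa [hw.2.2] at this)
      ⟨by simp; linarith, by simp; linarith, by simp⟩
      ⟨by simp; linarith, by simp; linarith, by simp⟩
    have h4 : ‖(1 + (η : ℂ) + I * y) - (1 + (x : ℂ) + I * y)‖ = η - x := by
      have : (1 + (η : ℂ) + I * y) - (1 + (x : ℂ) + I * y) = ((η - x : ℝ) : ℂ) := by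
        push_cast; ring
      rw [this, Complex.norm_real, Real.norm_eq_abs, abs_of_pos (by linarith)]
    rw [h4] at h3
    have h5 := norm_sub_norm_le (riemannZeta₁ (1 + (η : ℂ) + I * y)) (riemannZeta₁ (1 + (x : ℂ) + I * y))
    have h6 : M * (η - x) ≤ M * η := by
      apply mul_le_mul_of_nonneg_left _ (by linarith)
      linarith
    linarith

/-- lower bound, all `y` -/
lemma g_lower : ∃ c : ℝ, 0 < c ∧ ∀ x : ℝ, 0 < x → x ≤ 1 → ∀ y : ℝ,
    c / (|y| + 7) ^ 8 ≤ ‖riemannZeta₁ (1 + x + I * y)‖ := by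
  set K : Set ℂ := (Set.Icc (1 : ℝ) 2) ×ℂ (Set.Icc (-1 : ℝ) 1) with hK
  have hKc : IsCompact K := isCompact_Icc.reProdIm isCompact_Icc
  have hKn : K.Nonempty := ⟨1, by
    rw [hK, Complex.mem_reProdIm]
    simp⟩
  have hcont : ContinuousOn (fun w => ‖riemannZeta₁ w‖) K :=
    differentiable_riemannZeta₁.continuous.norm.continuousOn
  obtain ⟨w0, hw0, hmin⟩ := hKc.exists_isMinOn hKn hcont
  have hpos : 0 < ‖riemannZeta₁ w0‖ := by
    rw [norm_pos_iff]
    by_cases h1 : w0 = 1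
    · rw [h1, riemannZeta₁_one]; norm_num
    · have hre : 1 ≤ w0.re := by
        rw [hK, Complex.mem_reProdIm] at hw0
        exact hw0.1.1
      have h2 := riemannZeta_ne_zero_of_one_le_re hre
      rw [riemannZeta_eq_inv_sub_mul h1] at h2
      exact right_ne_zero_of_mul h2
  set c0 := ‖riemannZeta₁ w0‖
  have hA : 0 < 1 / (64 * MM 0 ^ 3 * 32 ^ 4) := by
    have := one_le_MM 0
    positivity
  refine ⟨min c0 (1 / (64 * MM 0 ^ 3 * 32 ^ 4)), lt_min hpos hA, ?_⟩
  intro x hx hx1 y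
  have hy7 : (1 : ℝ) ≤ |y| + 7 := by linarith [abs_nonneg y]
  rcases le_or_gt 1 |y| with hy | hy
  · refine le_trans ?_ (g_lower_far hx hx1 hy)
    have e : 1 / (64 * MM 0 ^ 3 * MM y ^ 4) = (1 / (64 * MM 0 ^ 3 * 32 ^ 4)) / (|y| + 7) ^ 8 := by
      have : MM y ^ 4 = 32 ^ 4 * (|y| + 7) ^ 8 := by unfold MM; ring
      rw [this, div_div]
      congr 1
      ring
    rw [e]
    gcongr
    exact min_le_right _ _
  · have hmem : (1 + (x : ℂ) + I * y) ∈ K := by
      rw [hK, Complex.mem_reProdIm]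
      rw [abs_lt] at hy
      constructor
      · simp only [Complex.add_re, Complex.one_re, Complex.ofReal_re, Complex.mul_re,
          Complex.I_re, zero_mul, Complex.I_im, Complex.ofReal_im, mul_zero, sub_self, add_zero]
        exact ⟨by linarith, by linarith⟩
      · simp only [Complex.add_im, Complex.one_im, Complex.ofReal_im, Complex.mul_im,
          Complex.I_re, zero_mul, Complex.I_im, Complex.ofReal_re, one_mul, zero_add, add_zero]
        exact ⟨by linarith, by linarith⟩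
    have h1 : c0 ≤ ‖riemannZeta₁ (1 + (x : ℂ) + I * y)‖ := hmin hmem
    refine le_trans ?_ h1
    have h2 : min c0 (1 / (64 * MM 0 ^ 3 * 32 ^ 4)) ≤ c0 := min_le_left _ _
    have h3 : (1 : ℝ) ≤ (|y| + 7) ^ 8 := one_le_pow₀ hy7
    calc min c0 (1 / (64 * MM 0 ^ 3 * 32 ^ 4)) / (|y| + 7) ^ 8 ≤ c0 / (|y| + 7) ^ 8 := by gcongr
      _ ≤ c0 / 1 := by
          apply div_le_div_of_nonneg_left hpos.le (by norm_num) h3
      _ = c0 := div_one _

/-! ### the logarithmic derivative -/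

/-- `-g'/g` at `1 + s` -/
noncomputable def GG (s : ℂ) : ℂ := -(deriv riemannZeta₁ (1 + s) / riemannZeta₁ (1 + s))

lemma g_ne {s : ℂ} (hs : 0 < s.re) : riemannZeta₁ (1 + s) ≠ 0 := by
  have h1 : (1 : ℂ) + s ≠ 1 := by
    intro h
    have : s = 0 := by linear_combination h
    rw [this] at hs
    simp at hs
  have h2 := riemannZeta_ne_zero_of_one_le_re (s := 1 + s) (by simp; linarith)
  rw [riemannZeta_eq_inv_sub_mul h1] at h2
  exact right_ne_zero_of_mul h2

lemma ND_eq_GG {s : ℂ} (hs : 0 < s.re) : ND (1 : DirichletCharacter ℂ 1) (1 + s) = GG s + 1 / s := by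
  have hs0 : s ≠ 0 := by
    rintro rfl
    simp at hs
  have h1 : (1 : ℂ) + s ≠ 1 := by
    intro h
    exact hs0 (by linear_combination h)
  have hg := g_ne hs
  unfold ND GG
  rw [LFunction_modOne_eq, deriv_riemannZeta_eq_neg_inv_sub_sq_mul_add h1, riemannZeta_eq_inv_sub_mul h1]
  have e : (1 : ℂ) + s - 1 = s := by ring
  rw [e]
  field_simp
  ring

/-- the derivative of `GG` -/
noncomputable def GD (s : ℂ) : ℂ :=
  -((deriv (deriv riemannZeta₁) (1 + s) * riemannZeta₁ (1 + s) - deriv riemannZeta₁ (1 + s) *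
    deriv riemannZeta₁ (1 + s)) / riemannZeta₁ (1 + s) ^ 2)

lemma differentiable_dg : Differentiable ℂ (deriv riemannZeta₁) := by
  have := differentiable_riemannZeta₁.contDiff (n := 2)
  exact (this.differentiable_deriv_two)

lemma differentiable_ddg : Differentiable ℂ (deriv (deriv riemannZeta₁)) := by
  have := differentiable_dg.contDiff (n := 2)
  exact (this.differentiable_deriv_two)

lemma hasDerivAt_GG {s : ℂ} (hs : 0 < s.re) : HasDerivAt GG (GD s) s := by
  have h1 : HasDerivAt (fun s : ℂ => riemannZeta₁ (1 + s)) (deriv riemannZeta₁ (1 + s)) s := by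
    have := (differentiable_riemannZeta₁ (1 + s)).hasDerivAt.comp_const_add 1 s
    exact this
  have h2 : HasDerivAt (fun s : ℂ => deriv riemannZeta₁ (1 + s))
      (deriv (deriv riemannZeta₁) (1 + s)) s := by
    have := (differentiable_dg (1 + s)).hasDerivAt.comp_const_add 1 s
    exact this
  exact (h2.div h1 (g_ne hs)).neg

lemma mid_arith {a b c y : ℝ} (hc : 0 < c) (hy : 0 ≤ y) (_ : 0 ≤ a) (ha : a ≤ 32 * (y + 7) ^ 2)
    (hb : c / (y + 7) ^ 8 ≤ b) : a / b ≤ 32 / c * (y + 7) ^ 10 := by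
  have h7 : 0 < y + 7 := by linarith
  have hb0 : 0 < b := lt_of_lt_of_le (by positivity) hb
  rw [div_le_iff₀ hb0]
  calc a ≤ 32 * (y + 7) ^ 2 := ha
    _ = 32 / c * (y + 7) ^ 10 * (c / (y + 7) ^ 8) := by field_simp
    _ ≤ 32 / c * (y + 7) ^ 10 * b := by gcongr

/-- polynomial bounds for `GG` and its derivative -/
lemma GG_bounds : ∃ A : ℝ, 0 < A ∧ ∀ x : ℝ, 0 < x → x ≤ 1 → ∀ y : ℝ,
    ‖GG (x + y * I)‖ ≤ A * (|y| + 7) ^ 10 ∧
    ‖GD (x + y * I) + (x + y * I) * GG (x + y * I)‖ ≤ A * (|y| + 7) ^ 20 := by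
  obtain ⟨c, hc, h⟩ := g_lower
  refine ⟨32 / c + (32 / c) ^ 2 + 32 / c, by positivity, fun x hx hx1 y => ?_⟩
  have hy := abs_nonneg y
  have h7 : (1 : ℝ) ≤ |y| + 7 := by linarith
  have he : (1 : ℂ) + ((x : ℂ) + y * I) = 1 + x + I * y := by ring
  have him : (1 + (x : ℂ) + I * y).im = y := by simp
  have hre1 : 1 ≤ (1 + (x : ℂ) + I * y).re := by simp; linarith
  have hre2 : (1 + (x : ℂ) + I * y).re ≤ 2 := by simp; linarith
  have hg := h x hx hx1 y
  have hd1 := dg_le_MM hre1 hre2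
  have hd2 := ddg_le_MM hre1 hre2
  rw [him] at hd1 hd2
  unfold MM at hd1 hd2
  have hgne : riemannZeta₁ (1 + (x : ℂ) + I * y) ≠ 0 := by
    rw [← he]
    exact g_ne (by simp; exact hx)
  have hr1 := mid_arith hc hy (norm_nonneg _) hd1 hg
  have hr2 := mid_arith hc hy (norm_nonneg _) hd2 hg
  have hG : ‖GG (x + y * I)‖ ≤ 32 / c * (|y| + 7) ^ 10 := by
    unfold GG
    rw [he, norm_neg, norm_div]
    exact hr1
  have hc0 : 0 ≤ 32 / c := by positivity
  have p10 : (1 : ℝ) ≤ (|y| + 7) ^ 10 := one_le_pow₀ h7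
  have p20 : (|y| + 7) ^ 10 ≤ (|y| + 7) ^ 20 := pow_le_pow_right₀ h7 (by norm_num)
  have p11 : (|y| + 7) ^ 11 ≤ (|y| + 7) ^ 20 := pow_le_pow_right₀ h7 (by norm_num)
  constructor
  · refine hG.trans ?_
    have h1 : 0 ≤ (32 / c) ^ 2 := by positivity
    gcongr
    linarith
  · have hD : ‖GD (x + y * I)‖ ≤ 32 / c * (|y| + 7) ^ 10 + (32 / c * (|y| + 7) ^ 10) ^ 2 := by
      unfold GD
      rw [he, norm_neg]
      have e : (deriv (deriv riemannZeta₁) (1 + (x : ℂ) + I * y) * riemannZeta₁ (1 + (x : ℂ) + I * y) -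
          deriv riemannZeta₁ (1 + (x : ℂ) + I * y) * deriv riemannZeta₁ (1 + (x : ℂ) + I * y)) /
          riemannZeta₁ (1 + (x : ℂ) + I * y) ^ 2 =
          deriv (deriv riemannZeta₁) (1 + (x : ℂ) + I * y) / riemannZeta₁ (1 + (x : ℂ) + I * y) -
          (deriv riemannZeta₁ (1 + (x : ℂ) + I * y) / riemannZeta₁ (1 + (x : ℂ) + I * y)) ^ 2 := by
        field_simp
      rw [e]
      refine (norm_sub_le _ _).trans ?_
      rw [norm_pow, norm_div, norm_div]
      have : 0 ≤ ‖deriv riemannZeta₁ (1 + (x : ℂ) + I * y)‖ / ‖riemannZeta₁ (1 + (x : ℂ) + I * y)‖ := by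
        positivity
      gcongr
    have hn : ‖(x : ℂ) + y * I‖ ≤ |y| + 7 := by
      refine (Complex.norm_le_abs_re_add_abs_im _).trans ?_
      simp only [Complex.add_re, Complex.ofReal_re, Complex.mul_re, Complex.I_re, mul_zero,
        Complex.ofReal_im, Complex.I_im, sub_self, add_zero, Complex.add_im,
        Complex.mul_im, mul_one, zero_add]
      rw [abs_of_pos hx]
      linarith
    calc ‖GD (x + y * I) + (x + y * I) * GG (x + y * I)‖
        ≤ ‖GD (x + y * I)‖ + ‖(x : ℂ) + y * I‖ * ‖GG (x + y * I)‖ := by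
          refine (norm_add_le _ _).trans ?_
          rw [norm_mul]
      _ ≤ (32 / c * (|y| + 7) ^ 10 + (32 / c * (|y| + 7) ^ 10) ^ 2) +
          (|y| + 7) * (32 / c * (|y| + 7) ^ 10) := by gcongr
      _ = 32 / c * (|y| + 7) ^ 10 + (32 / c) ^ 2 * (|y| + 7) ^ 20 + 32 / c * (|y| + 7) ^ 11 := by ring
      _ ≤ 32 / c * (|y| + 7) ^ 20 + (32 / c) ^ 2 * (|y| + 7) ^ 20 + 32 / c * (|y| + 7) ^ 20 := by
          gcongr
      _ = _ := by ring

/-! ### Gaussian integrals -/

lemma poly_gauss (t : ℝ) (n : ℕ) :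
    (|t| + 7) ^ n * Real.exp (-t ^ 2 / 2) ≤ (n.factorial * Real.exp 8) * Real.exp (-t ^ 2 / 4) := by
  have h0 := abs_nonneg t
  have h1 : (|t| + 7) ^ n ≤ n.factorial * Real.exp (|t| + 7) := by
    have h := Real.pow_div_factorial_le_exp (|t| + 7) (by linarith) n
    have h0 : (0 : ℝ) < n.factorial := by exact_mod_cast n.factorial_pos
    rw [div_le_iff₀ h0] at h
    linarith
  have h2 : Real.exp (|t| + 7) * Real.exp (-t ^ 2 / 2) ≤ Real.exp 8 * Real.exp (-t ^ 2 / 4) := by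
    rw [← Real.exp_add, ← Real.exp_add]
    apply Real.exp_le_exp.2
    have h3 : |t| ≤ 1 + t ^ 2 / 4 := by
      have := sq_nonneg (|t| - 2)
      have h4 := sq_abs t
      nlinarith
    linarith
  calc (|t| + 7) ^ n * Real.exp (-t ^ 2 / 2)
      ≤ n.factorial * Real.exp (|t| + 7) * Real.exp (-t ^ 2 / 2) := by gcongr
    _ = n.factorial * (Real.exp (|t| + 7) * Real.exp (-t ^ 2 / 2)) := by ring
    _ ≤ n.factorial * (Real.exp 8 * Real.exp (-t ^ 2 / 4)) := by gcongr
    _ = _ := by ring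

lemma bound_int {f : ℝ → ℂ} (hf : Continuous f) {C : ℝ} {n : ℕ}
    (h : ∀ t, ‖f t‖ ≤ C * ((|t| + 7) ^ n * Real.exp (-t ^ 2 / 2))) :
    Integrable f ∧ ‖∫ t, f t‖ ≤ C * (n.factorial * Real.exp 8 * 4) := by
  have hC : 0 ≤ C := by
    have h0 := (norm_nonneg _).trans (h 0)
    by_contra hcon
    push Not at hcon
    have : 0 < (|(0 : ℝ)| + 7) ^ n * Real.exp (-(0 : ℝ) ^ 2 / 2) := by positivity
    nlinarith
  have h' : ∀ t, ‖f t‖ ≤ C * (n.factorial * Real.exp 8) * Real.exp (-t ^ 2 / 4) := by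
    intro t
    refine (h t).trans ?_
    have := mul_le_mul_of_nonneg_left (poly_gauss t n) hC
    linarith
  have hi : Integrable fun t : ℝ => C * (n.factorial * Real.exp 8) * Real.exp (-t ^ 2 / 4) :=
    integrable_gaussian_quarter.const_mul _
  refine ⟨Integrable.mono' hi hf.aestronglyMeasurable (Eventually.of_forall h'), ?_⟩
  refine (norm_integral_le_of_norm_le hi (Eventually.of_forall h')).trans ?_
  rw [integral_const_mul]
  have := integral_gaussian_quarter
  have h3 : 0 ≤ C * (n.factorial * Real.exp 8) := by positivity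
  have := mul_le_mul_of_nonneg_left this h3
  linarith

lemma line_re (σ t : ℝ) : ((σ : ℂ) + t * I).re = σ := by simp

lemma continuous_g_line (σ : ℝ) : Continuous fun t : ℝ => riemannZeta₁ (1 + ((σ : ℂ) + t * I)) :=
  differentiable_riemannZeta₁.continuous.comp (by fun_prop)

lemma continuous_dg_line (σ : ℝ) :
    Continuous fun t : ℝ => deriv riemannZeta₁ (1 + ((σ : ℂ) + t * I)) :=
  differentiable_dg.continuous.comp (by fun_prop)

lemma continuous_ddg_line (σ : ℝ) :
    Continuous fun t : ℝ => deriv (deriv riemannZeta₁) (1 + ((σ : ℂ) + t * I)) :=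
  differentiable_ddg.continuous.comp (by fun_prop)

lemma continuous_GG_line {σ : ℝ} (hσ : 0 < σ) : Continuous fun t : ℝ => GG ((σ : ℂ) + t * I) := by
  unfold GG
  exact ((continuous_dg_line σ).div (continuous_g_line σ) (fun t => g_ne (by rw [line_re]; exact hσ))).neg

lemma continuous_GD_line {σ : ℝ} (hσ : 0 < σ) : Continuous fun t : ℝ => GD ((σ : ℂ) + t * I) := by
  unfold GD
  refine (Continuous.div ?_ ((continuous_g_line σ).pow 2)
    (fun t => pow_ne_zero 2 (g_ne (by rw [line_re]; exact hσ)))).neg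
  exact ((continuous_ddg_line σ).mul (continuous_g_line σ)).sub
    ((continuous_dg_line σ).mul (continuous_dg_line σ))

lemma norm_cexp_sq (σ t : ℝ) : ‖cexp (((σ : ℂ) + t * I) ^ 2 / 2)‖ =
    Real.exp (σ ^ 2 / 2) * Real.exp (-t ^ 2 / 2) := by
  rw [Complex.norm_exp, re_sq_line, ← Real.exp_add]
  congr 1
  ring

/-- one integration by parts -/
lemma remainder_int : ∃ K : ℝ, 0 < K ∧ ∀ x : ℝ, 1 ≤ x →
    Integrable (fun t : ℝ => cexp ((((1 / x : ℝ) : ℂ) + t * I) ^ 2 / 2 +
      (((1 / x : ℝ) : ℂ) + t * I) * x) * GG (((1 / x : ℝ) : ℂ) + t * I)) ∧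
    ‖∫ t : ℝ, cexp ((((1 / x : ℝ) : ℂ) + t * I) ^ 2 / 2 + (((1 / x : ℝ) : ℂ) + t * I) * x) *
      GG (((1 / x : ℝ) : ℂ) + t * I)‖ ≤ K / x := by
  obtain ⟨A, hA, h⟩ := GG_bounds
  refine ⟨A * (Real.exp 1 * Real.exp 1) * ((20).factorial * Real.exp 8 * 4), by positivity,
    fun x hx => ?_⟩
  have hx0 : 0 < x := by linarith
  set σ : ℝ := 1 / x with hσdef
  have hσ : 0 < σ := by positivity
  have hσ1 : σ ≤ 1 := by rw [hσdef, div_le_one hx0]; exact hx
  have hσx : σ * x = 1 := by rw [hσdef]; field_simp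
  have hes : Real.exp (σ ^ 2 / 2) ≤ Real.exp 1 := by
    apply Real.exp_le_exp.2
    nlinarith
  set u : ℝ → ℂ := fun t => GG ((σ : ℂ) + t * I) * cexp (((σ : ℂ) + t * I) ^ 2 / 2) with hu
  set u' : ℝ → ℂ := fun t => (GD ((σ : ℂ) + t * I) + ((σ : ℂ) + t * I) * GG ((σ : ℂ) + t * I)) *
    cexp (((σ : ℂ) + t * I) ^ 2 / 2) * I with hu'
  set v : ℝ → ℂ := fun t => cexp (((σ : ℂ) + t * I) * x) / (I * x) with hv
  set v' : ℝ → ℂ := fun t => cexp (((σ : ℂ) + t * I) * x) with hv'
  have hxC : (x : ℂ) ≠ 0 := by exact_mod_cast hx0.ne'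
  have hline : ∀ t : ℝ, HasDerivAt (fun t : ℝ => (σ : ℂ) + t * I) I t := by
    intro t
    have := ((hasDerivAt_id t).ofReal_comp.mul_const I).const_add (σ : ℂ)
    simpa using this
  have hdu : ∀ t, HasDerivAt u (u' t) t := by
    intro t
    have h1 : HasDerivAt (fun t : ℝ => GG ((σ : ℂ) + t * I)) (GD ((σ : ℂ) + t * I) * I) t := by
      have := (hasDerivAt_GG (s := (σ : ℂ) + t * I) (by rw [line_re]; exact hσ)).comp t (hline t)
      exact this
    have h2 : HasDerivAt (fun t : ℝ => cexp (((σ : ℂ) + t * I) ^ 2 / 2))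
        (cexp (((σ : ℂ) + t * I) ^ 2 / 2) * ((((σ : ℂ) + t * I)) * I)) t := by
      have h3 : HasDerivAt (fun w : ℂ => cexp (w ^ 2 / 2))
          (cexp (((σ : ℂ) + t * I) ^ 2 / 2) * ((σ : ℂ) + t * I)) ((σ : ℂ) + t * I) := by
        have h4 := ((hasDerivAt_pow 2 ((σ : ℂ) + t * I)).div_const 2).cexp
        refine h4.congr_deriv ?_
        push_cast
        ring
      have h5 := h3.comp t (hline t)
      refine h5.congr_deriv ?_
      ring
    refine (h1.mul h2).congr_deriv ?_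
    simp only [u']
    ring
  have hdv : ∀ t, HasDerivAt v (v' t) t := by
    intro t
    have h3 := ((hline t).mul_const (x : ℂ)).cexp.div_const (I * x)
    refine h3.congr_deriv ?_
    simp only [v']
    field_simp
  have hve : ∀ t, ‖v' t‖ = Real.exp 1 := by
    intro t
    simp only [v']
    rw [Complex.norm_exp]
    congr 1
    simp
    exact hσx
  have hvn : ∀ t, ‖v t‖ = Real.exp 1 / x := by
    intro t
    have : v t = v' t / (I * x) := rfl
    rw [this, norm_div, hve, norm_mul, Complex.norm_I, one_mul, Complex.norm_real,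
      Real.norm_eq_abs, abs_of_pos hx0]
  have hvn' : ∀ t, ‖v t‖ ≤ Real.exp 1 := by
    intro t
    rw [hvn, div_le_iff₀ hx0]
    nlinarith [Real.exp_pos 1]
  have hcu : Continuous u := (continuous_GG_line hσ).mul (by fun_prop)
  have hcu' : Continuous u' := by
    refine (((continuous_GD_line hσ).add ?_).mul (by fun_prop)).mul continuous_const
    exact Continuous.mul (by fun_prop) (continuous_GG_line hσ)
  have hcv : Continuous v := by
    simp only [v]
    fun_prop
  have hcv' : Continuous v' := by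
    simp only [v']
    fun_prop
  have hub : ∀ t, ‖u t‖ ≤ (A * Real.exp 1) * ((|t| + 7) ^ 10 * Real.exp (-t ^ 2 / 2)) := by
    intro t
    simp only [u]
    rw [norm_mul, norm_cexp_sq]
    have h1 := (h σ hσ hσ1 t).1
    calc ‖GG ((σ : ℂ) + t * I)‖ * (Real.exp (σ ^ 2 / 2) * Real.exp (-t ^ 2 / 2))
        ≤ (A * (|t| + 7) ^ 10) * (Real.exp 1 * Real.exp (-t ^ 2 / 2)) := by gcongr
      _ = _ := by ring
  have hub' : ∀ t, ‖u' t‖ ≤ (A * Real.exp 1) * ((|t| + 7) ^ 20 * Real.exp (-t ^ 2 / 2)) := by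
    intro t
    simp only [u']
    rw [norm_mul, Complex.norm_I, mul_one, norm_mul, norm_cexp_sq]
    have h1 := (h σ hσ hσ1 t).2
    calc ‖GD ((σ : ℂ) + t * I) + ((σ : ℂ) + t * I) * GG ((σ : ℂ) + t * I)‖ *
          (Real.exp (σ ^ 2 / 2) * Real.exp (-t ^ 2 / 2))
        ≤ (A * (|t| + 7) ^ 20) * (Real.exp 1 * Real.exp (-t ^ 2 / 2)) := by gcongr
      _ = _ := by ring
  have huv' := bound_int (hcu.mul hcv') (C := A * Real.exp 1 * Real.exp 1) (n := 10) (fun t => by
    simp only [Pi.mul_apply, norm_mul, hve]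
    calc ‖u t‖ * Real.exp 1 ≤ (A * Real.exp 1) * ((|t| + 7) ^ 10 * Real.exp (-t ^ 2 / 2)) * Real.exp 1 := by
          gcongr
          exact hub t
      _ = _ := by ring)
  have hu'v := bound_int (hcu'.mul hcv) (C := A * Real.exp 1 * (Real.exp 1 / x)) (n := 20) (fun t => by
    simp only [Pi.mul_apply, norm_mul, hvn]
    calc ‖u' t‖ * (Real.exp 1 / x) ≤ (A * Real.exp 1) * ((|t| + 7) ^ 20 * Real.exp (-t ^ 2 / 2)) *
          (Real.exp 1 / x) := by
          gcongr
          exact hub' t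
      _ = _ := by ring)
  have huv := bound_int (hcu.mul hcv) (C := A * Real.exp 1 * Real.exp 1) (n := 10) (fun t => by
    simp only [Pi.mul_apply, norm_mul]
    calc ‖u t‖ * ‖v t‖ ≤ (A * Real.exp 1) * ((|t| + 7) ^ 10 * Real.exp (-t ^ 2 / 2)) * Real.exp 1 := by
          gcongr
          · exact hub t
          · exact hvn' t
      _ = _ := by ring)
  have key := integral_mul_deriv_eq_deriv_mul_of_integrable (fun t _ => hdu t)
    (fun t _ => hdv t) huv'.1 hu'v.1 huv.1
  have hform : ∀ t : ℝ, cexp (((σ : ℂ) + t * I) ^ 2 / 2 + ((σ : ℂ) + t * I) * x) *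
      GG ((σ : ℂ) + t * I) = u t * v' t := by
    intro t
    simp only [u, v']
    rw [Complex.exp_add]
    ring
  simp_rw [hform]
  refine ⟨huv'.1, ?_⟩
  rw [key, norm_neg]
  refine hu'v.2.trans (le_of_eq ?_)
  ring

/-! ### the main term -/

lemma gw_even (v : ℝ) : gw (-v) = gw v := by unfold gw; rw [neg_sq]

lemma integrable_gw : Integrable gw := by
  unfold gw
  exact integrable_gaussian_half.div_const _

lemma integral_gw : ∫ v, gw v = 1 := by
  unfold gw
  rw [integral_div]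
  have h := integral_gaussian (1 / 2)
  have h2 : ∫ t : ℝ, Real.exp (-t ^ 2 / 2) = Real.sqrt (2 * Real.pi) := by
    have e : Real.pi / (1 / 2) = 2 * Real.pi := by ring
    rw [← e, ← h]
    congr 1
    ext t
    congr 1
    ring
  rw [h2, div_self]
  positivity

lemma integrable_abs_gw : Integrable fun v => |v| * gw v := by
  have h := bound_int (f := fun t : ℝ => ((|t| * gw t : ℝ) : ℂ)) (C := 1) (n := 1)
    (Complex.continuous_ofReal.comp (by unfold gw; fun_prop)) (fun t => by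
      rw [Complex.norm_real, Real.norm_eq_abs, abs_mul, abs_abs, abs_of_nonneg (gw_nonneg t)]
      unfold gw
      have h1 : 1 ≤ Real.sqrt (2 * Real.pi) := by
        rw [Real.one_le_sqrt]
        have := Real.pi_gt_three
        linarith
      have h2 : Real.exp (-t ^ 2 / 2) / Real.sqrt (2 * Real.pi) ≤ Real.exp (-t ^ 2 / 2) :=
        div_le_self (Real.exp_pos _).le h1
      have h3 := abs_nonneg t
      have h4 := Real.exp_pos (-t ^ 2 / 2)
      calc |t| * (Real.exp (-t ^ 2 / 2) / Real.sqrt (2 * Real.pi)) ≤ |t| * Real.exp (-t ^ 2 / 2) := by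
            gcongr
        _ ≤ 1 * ((|t| + 7) ^ 1 * Real.exp (-t ^ 2 / 2)) := by
            rw [one_mul, pow_one]
            gcongr
            linarith)
  have h5 := h.1.re
  refine h5.congr (Eventually.of_forall fun t => ?_)
  simp

lemma main_int {x σ : ℝ} (hσ : 0 < σ) :
    Integrable (fun t : ℝ => cexp (((σ : ℂ) + t * I) ^ 2 / 2 + ((σ : ℂ) + t * I) * x) *
      (1 / ((σ : ℂ) + t * I))) ∧
    ∫ t : ℝ, cexp (((σ : ℂ) + t * I) ^ 2 / 2 + ((σ : ℂ) + t * I) * x) * (1 / ((σ : ℂ) + t * I)) =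
      ((2 * Real.pi * ∫ u in Set.Ioi (0 : ℝ), gw (u - x) : ℝ) : ℂ) := by
  have hne : ∀ t : ℝ, (σ : ℂ) + t * I ≠ 0 := by
    intro t h
    have := congrArg Complex.re h
    rw [line_re] at this
    simp at this
    linarith
  set f : ℝ → ℝ → ℂ := fun t u => cexp (((σ : ℂ) + t * I) ^ 2 / 2 - ((σ : ℂ) + t * I) * ((u - x : ℝ) : ℂ))
    with hf
  have hinner : ∀ t : ℝ, ∫ u in Set.Ioi (0 : ℝ), f t u =
      cexp (((σ : ℂ) + t * I) ^ 2 / 2 + ((σ : ℂ) + t * I) * x) * (1 / ((σ : ℂ) + t * I)) := by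
    intro t
    have h1 : ∀ u : ℝ, f t u = cexp (((σ : ℂ) + t * I) ^ 2 / 2 + ((σ : ℂ) + t * I) * x) *
        cexp (-((σ : ℂ) + t * I) * u) := by
      intro u
      simp only [hf]
      rw [← Complex.exp_add]
      congr 1
      push_cast
      ring
    simp_rw [h1]
    rw [integral_const_mul, integral_exp_mul_complex_Ioi (by rw [Complex.neg_re, line_re]; linarith) 0]
    congr 1
    simp only [Complex.ofReal_zero, mul_zero, Complex.exp_zero]
    rw [neg_div_neg_eq]
  have hcont : Continuous (Function.uncurry f) := by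
    simp only [hf, Function.uncurry_def]
    fun_prop
  have hnorm : ∀ t u : ℝ, ‖f t u‖ = Real.exp (-t ^ 2 / 2) * (Real.exp (σ ^ 2 / 2 + σ * x) * Real.exp (-σ * u)) := by
    intro t u
    simp only [hf]
    rw [Complex.norm_exp, Complex.sub_re, re_sq_line, ← Real.exp_add, ← Real.exp_add]
    congr 1
    rw [Complex.re_mul_ofReal, line_re]
    ring
  have hprod : Integrable (Function.uncurry f) (volume.prod (volume.restrict (Set.Ioi (0 : ℝ)))) := by
    have h1 : Integrable (fun t : ℝ => Real.exp (-t ^ 2 / 2)) volume := integrable_gaussian_half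
    have h2 : Integrable (fun u : ℝ => Real.exp (σ ^ 2 / 2 + σ * x) * Real.exp (-σ * u))
        (volume.restrict (Set.Ioi (0 : ℝ))) := by
      apply Integrable.const_mul
      exact integrableOn_exp_mul_Ioi (by linarith) 0
    have h3 := h1.mul_prod h2
    refine h3.mono' hcont.aestronglyMeasurable (Eventually.of_forall fun p => ?_)
    obtain ⟨t, u⟩ := p
    simp only [Function.uncurry_apply_pair]
    rw [hnorm]
  constructor
  · have h := hprod.integral_prod_left
    refine h.congr (Eventually.of_forall fun t => ?_)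
    exact hinner t
  · calc ∫ t : ℝ, cexp (((σ : ℂ) + t * I) ^ 2 / 2 + ((σ : ℂ) + t * I) * x) * (1 / ((σ : ℂ) + t * I))
        = ∫ t : ℝ, ∫ u in Set.Ioi (0 : ℝ), f t u := by
          congr 1
          ext t
          exact (hinner t).symm
      _ = ∫ u in Set.Ioi (0 : ℝ), ∫ t : ℝ, f t u := integral_integral_swap hprod
      _ = ∫ u in Set.Ioi (0 : ℝ), ((2 * Real.pi * gw (u - x) : ℝ) : ℂ) := by
          congr 1
          ext u
          exact gauss_int σ (u - x)
      _ = ((∫ u in Set.Ioi (0 : ℝ), 2 * Real.pi * gw (u - x) : ℝ) : ℂ) := integral_complex_ofReal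
      _ = _ := by
          rw [integral_const_mul]

lemma main_term {x : ℝ} (hx : 1 ≤ x) :
    |(∫ u in Set.Ioi (0 : ℝ), gw (u - x)) - 1| ≤ (∫ v, |v| * gw v) / x := by
  have hx0 : 0 < x := by linarith
  have hint : Integrable fun u => gw (u - x) := integrable_gw.comp_sub_right x
  have hint2 : Integrable fun u => |u - x| * gw (u - x) := integrable_abs_gw.comp_sub_right x
  have htot : ∫ u, gw (u - x) = 1 := by
    rw [integral_sub_right_eq_self gw x, integral_gw]
  have hsplit : (∫ u in Set.Ioi (0 : ℝ), gw (u - x)) + ∫ u in Set.Iic (0 : ℝ), gw (u - x) = 1 := by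
    rw [← htot, ← Set.compl_Ioi]
    exact integral_add_compl measurableSet_Ioi hint
  have hnn : 0 ≤ ∫ u in Set.Iic (0 : ℝ), gw (u - x) := integral_nonneg fun u => gw_nonneg _
  have habs : |(∫ u in Set.Ioi (0 : ℝ), gw (u - x)) - 1| = ∫ u in Set.Iic (0 : ℝ), gw (u - x) := by
    rw [← hsplit, abs_sub_comm]
    rw [add_sub_cancel_left, abs_of_nonneg hnn]
  rw [habs]
  calc ∫ u in Set.Iic (0 : ℝ), gw (u - x) ≤ ∫ u in Set.Iic (0 : ℝ), (|u - x| * gw (u - x)) / x := by
        apply setIntegral_mono_on hint.integrableOn (hint2.div_const x).integrableOn measurableSet_Iic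
        intro u hu
        have hu' : u ≤ 0 := hu
        rw [le_div_iff₀ hx0, abs_of_nonpos (by linarith), mul_comm]
        gcongr
        · exact gw_nonneg _
        · linarith
    _ ≤ ∫ u, (|u - x| * gw (u - x)) / x := by
        apply setIntegral_le_integral (hint2.div_const x)
        refine Eventually.of_forall fun u => ?_
        have := gw_nonneg (u - x)
        simp only [Pi.zero_apply]
        positivity
    _ = (∫ v, |v| * gw v) / x := by
        rw [integral_div, integral_sub_right_eq_self (fun v => |v| * gw v) x]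

lemma SS_one_eq (x : ℝ) : SS (1 : DirichletCharacter ℂ 1) x = ((S0 x : ℝ) : ℂ) := by
  unfold SS S0 wn
  rw [Complex.ofReal_tsum]
  apply tsum_congr
  intro n
  have h1 : (1 : DirichletCharacter ℂ 1) (n : ZMod 1) = 1 := by
    apply MulChar.one_apply
    exact isUnit_of_subsingleton _
  rw [h1]
  push_cast
  ring

/-- **Prime number theorem with a Gaussian weight and a remainder.** -/
theorem S0_remainder : ∃ K : ℝ, 0 < K ∧ ∀ x : ℝ, 1 ≤ x → |S0 x - 1| ≤ K / x := by
  obtain ⟨K, hK, h⟩ := remainder_int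
  have hI : 0 ≤ ∫ v, |v| * gw v :=
    integral_nonneg fun v => mul_nonneg (abs_nonneg _) (gw_nonneg _)
  refine ⟨K + ∫ v, |v| * gw v, by linarith, fun x hx => ?_⟩
  have hx0 : 0 < x := by linarith
  obtain ⟨hi1, hb1⟩ := h x hx
  set σ : ℝ := 1 / x with hσdef
  have hσ : 0 < σ := by positivity
  obtain ⟨hi2, hb2⟩ := main_int (x := x) hσ
  have hform := SS_eq (1 : DirichletCharacter ℂ 1) hσ x
  rw [SS_one_eq] at hform
  have hsum : ∫ t : ℝ, KI (1 : DirichletCharacter ℂ 1) x ((σ : ℂ) + t * I) =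
      (∫ t : ℝ, cexp (((σ : ℂ) + t * I) ^ 2 / 2 + ((σ : ℂ) + t * I) * x) * GG ((σ : ℂ) + t * I)) +
      ∫ t : ℝ, cexp (((σ : ℂ) + t * I) ^ 2 / 2 + ((σ : ℂ) + t * I) * x) * (1 / ((σ : ℂ) + t * I)) := by
    rw [← integral_add hi1 hi2]
    congr 1
    ext t
    unfold KI
    rw [ND_eq_GG (by rw [line_re]; exact hσ)]
    ring
  rw [hsum, hb2] at hform
  set R : ℂ := ∫ t : ℝ, cexp (((σ : ℂ) + t * I) ^ 2 / 2 + ((σ : ℂ) + t * I) * x) * GG ((σ : ℂ) + t * I)
  set J : ℝ := ∫ u in Set.Ioi (0 : ℝ), gw (u - x) with hJ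
  have h2 : ((S0 x - J : ℝ) : ℂ) = R / ((2 * Real.pi : ℝ) : ℂ) := by
    have hpi : ((2 * Real.pi : ℝ) : ℂ) ≠ 0 := by
      rw [Complex.ofReal_ne_zero]
      positivity
    rw [eq_div_iff hpi]
    push_cast at hform ⊢
    linear_combination -hform
  have h3 : |S0 x - J| ≤ K / x := by
    have h4 : ‖((S0 x - J : ℝ) : ℂ)‖ = |S0 x - J| := by rw [Complex.norm_real, Real.norm_eq_abs]
    rw [← h4, h2, norm_div, Complex.norm_real, Real.norm_eq_abs, abs_of_pos (by positivity)]
    have h5 : 1 ≤ 2 * Real.pi := by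
      have := Real.pi_gt_three
      linarith
    exact (div_le_self (norm_nonneg _) h5).trans hb1
  have h4 := main_term hx
  rw [← hJ] at h4
  calc |S0 x - 1| = |(S0 x - J) + (J - 1)| := by congr 1; ring
    _ ≤ |S0 x - J| + |J - 1| := abs_add_le _ _
    _ ≤ K / x + (∫ v, |v| * gw v) / x := by linarith
    _ = _ := by ring

end Pool.Agent.LibH
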