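import Pool.Agent.LibG2.Erase
import Pool.Agent.LibGal99.D10a

/-!
The Omega lemma of the sieve at the level `z = (log h)^C`: parameters.
-/

namespace Pool.Agent.LibH

open Filter Topology
open Pool.Gal99 (d10_L d10_LL d10_logx d10_floor)

/-- the sieve level -/
noncomputable def zz (C : ℝ) (h : ℕ) : ℕ := ⌊Real.log h ^ C⌋₊

noncomputable def ll (C : ℝ) (h : ℕ) : ℝ := Real.log (zz C h)

noncomputable def us (C : ℝ) (h : ℕ) : ℝ := Real.log h / ll C h

noncomputable def ws (C ξ : ℝ) (h : ℕ) : ℝ := (1 + ξ) * us C h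

noncomputable def vs (C ξ : ℝ) (h : ℕ) : ℝ := ws C ξ h * Real.log (ws C ξ h)

variable {C : ℝ}

theorem ll_bd (hC : 0 < C) : ∀ᶠ h : ℕ in atTop,
    C * Real.log (Real.log h) - Real.log 2 ≤ ll C h ∧ ll C h ≤ C * Real.log (Real.log h) := by
  filter_upwards [d10_L.eventually_ge_atTop 1] with h hL
  have hL0 : 0 < Real.log (h : ℝ) := by linarith
  have h1 : (1 : ℝ) ≤ Real.log h ^ C := Real.one_le_rpow hL hC.le
  have h2 := d10_floor _ h1
  have h3 : (0 : ℝ) < (zz C h : ℝ) := by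
    unfold zz
    linarith
  have h4 : Real.log (Real.log (h : ℝ) ^ C) = C * Real.log (Real.log h) := Real.log_rpow hL0 C
  constructor
  · unfold ll
    calc C * Real.log (Real.log h) - Real.log 2 = Real.log (Real.log (h : ℝ) ^ C / 2) := by
          rw [Real.log_div (by linarith) (by norm_num), h4]
      _ ≤ Real.log (zz C h) := Real.log_le_log (by positivity) h2
  · unfold ll
    rw [← h4]
    exact Real.log_le_log h3 (Nat.floor_le (by positivity))

theorem F1 (hC : 0 < C) : Tendsto (fun h => ll C h / Real.log (Real.log (h : ℝ))) atTop (𝓝 C) := by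
  have h1 : Tendsto (fun h : ℕ => C - Real.log 2 / Real.log (Real.log (h : ℝ))) atTop
      (𝓝 (C - 0)) := tendsto_const_nhds.sub (tendsto_const_nhds.div_atTop d10_LL)
  rw [sub_zero] at h1
  refine tendsto_of_tendsto_of_tendsto_of_le_of_le' h1 tendsto_const_nhds ?_ ?_
  · filter_upwards [d10_LL.eventually_gt_atTop 0, ll_bd hC] with h hk hb
    rw [le_div_iff₀ hk, sub_mul, div_mul_cancel₀ _ hk.ne']
    linarith [hb.1]
  · filter_upwards [d10_LL.eventually_gt_atTop 0, ll_bd hC] with h hk hb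
    rw [div_le_iff₀ hk]
    linarith [hb.2]

theorem ll_atTop (hC : 0 < C) : Tendsto (ll C) atTop atTop := by
  have h1 : Tendsto (fun h : ℕ => C * Real.log (Real.log (h : ℝ)) - Real.log 2) atTop atTop :=
    tendsto_atTop_add_const_right _ _ (d10_LL.const_mul_atTop hC)
  refine tendsto_atTop_mono' _ ?_ h1
  filter_upwards [ll_bd hC] with h hb using hb.1

theorem logll (hC : 0 < C) :
    Tendsto (fun h => Real.log (ll C h) / Real.log (Real.log (h : ℝ))) atTop (𝓝 0) := by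
  have h1 := (d10_logx.comp (ll_atTop hC)).mul (F1 hC)
  rw [zero_mul] at h1
  refine h1.congr' ?_
  filter_upwards [(ll_atTop hC).eventually_gt_atTop 0, d10_LL.eventually_gt_atTop 0] with h hl hLL
  simp only [Function.comp_apply]
  field_simp

theorem logu (hC : 0 < C) :
    Tendsto (fun h => Real.log (us C h) / Real.log (Real.log (h : ℝ))) atTop (𝓝 1) := by
  have h1 := (tendsto_const_nhds (x := (1 : ℝ)) (f := (atTop : Filter ℕ))).sub (logll hC)
  rw [sub_zero] at h1
  refine h1.congr' ?_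
  filter_upwards [d10_L.eventually_gt_atTop 0, d10_LL.eventually_gt_atTop 0,
    (ll_atTop hC).eventually_gt_atTop 0] with h hL hLL hl
  unfold us
  rw [Real.log_div hL.ne' hl.ne', sub_div, div_self hLL.ne']

theorem logu_atTop (hC : 0 < C) : Tendsto (fun h => Real.log (us C h)) atTop atTop := by
  have h1 : Tendsto (fun h => Real.log (us C h) / Real.log (Real.log (h : ℝ)) *
      Real.log (Real.log (h : ℝ))) atTop atTop :=
    Tendsto.pos_mul_atTop one_pos (logu hC) d10_LL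
  refine h1.congr' ?_
  filter_upwards [d10_LL.eventually_gt_atTop 0] with h hLL
  rw [div_mul_cancel₀ _ hLL.ne']

theorem u_atTop (hC : 0 < C) : Tendsto (us C) atTop atTop := by
  have h1 := Real.tendsto_exp_atTop.comp (logu_atTop hC)
  refine h1.congr' ?_
  filter_upwards [d10_L.eventually_gt_atTop 0, (ll_atTop hC).eventually_gt_atTop 0] with h hL hl
  simp only [Function.comp_apply]
  exact Real.exp_log (div_pos hL hl)

theorem w_atTop (hC : 0 < C) (ξ : ℝ) (hξ : 0 < ξ) : Tendsto (ws C ξ) atTop atTop :=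
  (u_atTop hC).const_mul_atTop (by linarith)

theorem logw (hC : 0 < C) (ξ : ℝ) (hξ : 0 < ξ) :
    Tendsto (fun h => Real.log (ws C ξ h) / Real.log (us C h)) atTop (𝓝 1) := by
  have h1 : Tendsto (fun h => Real.log (1 + ξ) / Real.log (us C h) + 1) atTop (𝓝 (0 + 1)) :=
    (tendsto_const_nhds.div_atTop (logu_atTop hC)).add_const 1
  rw [zero_add] at h1
  refine h1.congr' ?_
  filter_upwards [(u_atTop hC).eventually_gt_atTop 0, (logu_atTop hC).eventually_gt_atTop 0]
    with h hu hlu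
  unfold ws
  rw [Real.log_mul (by linarith) hu.ne', add_div, div_self hlu.ne']

theorem logw_atTop (hC : 0 < C) (ξ : ℝ) (hξ : 0 < ξ) :
    Tendsto (fun h => Real.log (ws C ξ h)) atTop atTop :=
  Real.tendsto_log_atTop.comp (w_atTop hC ξ hξ)

theorem v_atTop (hC : 0 < C) (ξ : ℝ) (hξ : 0 < ξ) : Tendsto (vs C ξ) atTop atTop :=
  (w_atTop hC ξ hξ).atTop_mul_atTop₀ (logw_atTop hC ξ hξ)

theorem logv_atTop (hC : 0 < C) (ξ : ℝ) (hξ : 0 < ξ) :
    Tendsto (fun h => Real.log (vs C ξ h)) atTop atTop :=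
  Real.tendsto_log_atTop.comp (v_atTop hC ξ hξ)

theorem logv (hC : 0 < C) (ξ : ℝ) (hξ : 0 < ξ) :
    Tendsto (fun h => Real.log (vs C ξ h) / Real.log (ws C ξ h)) atTop (𝓝 1) := by
  have h1 : Tendsto (fun x : ℝ => 1 + Real.log x / x) atTop (𝓝 (1 + 0)) :=
    d10_logx.const_add 1
  have h2 := h1.comp (logw_atTop hC ξ hξ)
  rw [add_zero] at h2
  refine h2.congr' ?_
  filter_upwards [(w_atTop hC ξ hξ).eventually_gt_atTop 0,
    (logw_atTop hC ξ hξ).eventually_gt_atTop 0] with h hw hlw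
  simp only [Function.comp_apply]
  unfold vs
  rw [Real.log_mul hw.ne' hlw.ne', add_div, div_self hlw.ne']

/-- `log v / log ℓ → 1/C` -/
theorem beta (hC : 0 < C) (ξ : ℝ) (hξ : 0 < ξ) :
    Tendsto (fun h => Real.log (vs C ξ h) / ll C h) atTop (𝓝 (1 / C)) := by
  have h1 := (((logv hC ξ hξ).mul (logw hC ξ hξ)).mul (logu hC)).mul ((F1 hC).inv₀ hC.ne')
  rw [show (1 : ℝ) * 1 * 1 * C⁻¹ = 1 / C by rw [one_div]; ring] at h1
  refine h1.congr' ?_
  filter_upwards [(logw_atTop hC ξ hξ).eventually_gt_atTop 0,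
    (logu_atTop hC).eventually_gt_atTop 0, d10_LL.eventually_gt_atTop 0,
    (ll_atTop hC).eventually_gt_atTop 0] with h hw hlu hLL hl
  field_simp

/-- `τ v / log (τ v) / w → τ` -/
theorem vlogv (hC : 0 < C) (ξ τ : ℝ) (hξ : 0 < ξ) (hτ : 0 < τ) :
    Tendsto (fun h => τ * vs C ξ h / Real.log (τ * vs C ξ h) / ws C ξ h) atTop (𝓝 τ) := by
  have h1 : Tendsto (fun h => Real.log τ / Real.log (ws C ξ h) + Real.log (vs C ξ h) /
      Real.log (ws C ξ h)) atTop (𝓝 (0 + 1)) :=
    (tendsto_const_nhds.div_atTop (logw_atTop hC ξ hξ)).add (logv hC ξ hξ)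
  have h2 := (h1.inv₀ (by norm_num)).const_mul τ
  rw [show τ * (0 + 1 : ℝ)⁻¹ = τ by norm_num] at h2
  refine h2.congr' ?_
  have hτv : Tendsto (fun h => Real.log (τ * vs C ξ h)) atTop atTop :=
    Real.tendsto_log_atTop.comp ((v_atTop hC ξ hξ).const_mul_atTop hτ)
  filter_upwards [(w_atTop hC ξ hξ).eventually_gt_atTop 0,
    (logw_atTop hC ξ hξ).eventually_gt_atTop 0, (v_atTop hC ξ hξ).eventually_gt_atTop 0,
    hτv.eventually_gt_atTop 0] with h hw hlw hv hlv
  rw [← add_div, ← Real.log_mul hτ.ne' hv.ne', inv_div]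
  generalize Real.log (τ * vs C ξ h) = A at hlv ⊢
  have : vs C ξ h = ws C ξ h * Real.log (ws C ξ h) := rfl
  rw [this]
  field_simp

/-- `(1 + log (ℓ + 1)) / log w → 0` -/
theorem logl1 (hC : 0 < C) (ξ : ℝ) (hξ : 0 < ξ) :
    Tendsto (fun h => (1 + Real.log (ll C h + 1)) / Real.log (ws C ξ h)) atTop (𝓝 0) := by
  have h0 : Tendsto (fun h => Real.log (1 + 1 / ll C h)) atTop (𝓝 (Real.log (1 + 0))) := by
    refine (Real.continuousAt_log (by norm_num)).tendsto.comp ?_
    exact (tendsto_const_nhds.div_atTop (ll_atTop hC)).const_add 1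
  have h1 : Tendsto (fun h => (1 + Real.log (1 + 1 / ll C h)) / Real.log (Real.log (h : ℝ)) +
      Real.log (ll C h) / Real.log (Real.log (h : ℝ))) atTop (𝓝 (0 + 0)) :=
    ((h0.const_add 1).div_atTop d10_LL).add (logll hC)
  have h2 : Tendsto (fun h => Real.log (us C h) / Real.log (Real.log (h : ℝ)) *
      (Real.log (ws C ξ h) / Real.log (us C h))) atTop (𝓝 (1 * 1)) :=
    (logu hC).mul (logw hC ξ hξ)
  have h3 := h1.div h2 (by norm_num)
  rw [show ((0 : ℝ) + 0) / (1 * 1) = 0 by norm_num] at h3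
  refine h3.congr' ?_
  filter_upwards [(logw_atTop hC ξ hξ).eventually_gt_atTop 0,
    (logu_atTop hC).eventually_gt_atTop 0, d10_LL.eventually_gt_atTop 0,
    (ll_atTop hC).eventually_gt_atTop 0] with h hw hlu hLL hl
  have e1 : Real.log (ll C h + 1) = Real.log (1 + 1 / ll C h) + Real.log (ll C h) := by
    rw [← Real.log_mul (by positivity) hl.ne']
    congr 1
    field_simp
    try ring
  rw [e1]
  simp only [Pi.div_apply]
  field_simp
  ring

/-- `√(τ v) (1 + log (ℓ + 1)) / w → 0` -/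
theorem sqrtv (hC : 0 < C) (ξ τ : ℝ) (hξ : 0 < ξ) (hτ : 0 < τ) :
    Tendsto (fun h => Real.sqrt (τ * vs C ξ h) * (1 + Real.log (ll C h + 1)) / ws C ξ h) atTop
      (𝓝 0) := by
  have h0 : Tendsto (fun x : ℝ => Real.log x ^ 3 / x) atTop (𝓝 0) := by
    have := Real.isLittleO_pow_log_id_atTop (n := 3)
    simpa using this.tendsto_div_nhds_zero
  have h1 : Tendsto (fun x : ℝ => Real.sqrt (Real.log x ^ 3 / x)) atTop (𝓝 0) := by
    have := (Real.continuous_sqrt.tendsto 0).comp h0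
    simpa [Function.comp_def] using this
  have h2 : Tendsto (fun h => Real.sqrt τ * Real.sqrt (Real.log (ws C ξ h) ^ 3 / ws C ξ h) *
      ((1 + Real.log (ll C h + 1)) / Real.log (ws C ξ h))) atTop (𝓝 (Real.sqrt τ * 0 * 0)) :=
    ((h1.comp (w_atTop hC ξ hξ)).const_mul _).mul (logl1 hC ξ hξ)
  rw [show Real.sqrt τ * 0 * 0 = 0 by ring] at h2
  refine h2.congr' ?_
  filter_upwards [(w_atTop hC ξ hξ).eventually_gt_atTop 0,
    (logw_atTop hC ξ hξ).eventually_gt_atTop 0] with h hw hlw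
  have e1 : Real.sqrt (Real.log (ws C ξ h) ^ 3 / ws C ξ h) =
      Real.sqrt (vs C ξ h) * Real.log (ws C ξ h) / ws C ξ h := by
    rw [Real.sqrt_eq_iff_mul_self_eq (by positivity) (by positivity)]
    have hv : 0 ≤ vs C ξ h := by unfold vs; positivity
    have e2 : Real.sqrt (vs C ξ h) * Real.log (ws C ξ h) / ws C ξ h *
        (Real.sqrt (vs C ξ h) * Real.log (ws C ξ h) / ws C ξ h) =
        (Real.sqrt (vs C ξ h) * Real.sqrt (vs C ξ h)) * Real.log (ws C ξ h) ^ 2 /
          ws C ξ h ^ 2 := by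
      ring
    rw [e2, Real.mul_self_sqrt hv]
    unfold vs
    field_simp
  rw [e1, Real.sqrt_mul hτ.le]
  field_simp

/-- `log (ℓ + 1) / w → 0` -/
theorem logl_w (hC : 0 < C) (ξ : ℝ) (hξ : 0 < ξ) :
    Tendsto (fun h => Real.log (ll C h + 1) / ws C ξ h) atTop (𝓝 0) := by
  have h1 : Tendsto (fun h => (1 + Real.log (ll C h + 1)) / Real.log (ws C ξ h) *
      (Real.log (ws C ξ h) / ws C ξ h) - 1 / ws C ξ h) atTop (𝓝 (0 * 0 - 0)) :=
    ((logl1 hC ξ hξ).mul (d10_logx.comp (w_atTop hC ξ hξ))).sub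
      (tendsto_const_nhds.div_atTop (w_atTop hC ξ hξ))
  rw [show (0 : ℝ) * 0 - 0 = 0 by ring] at h1
  refine h1.congr' ?_
  filter_upwards [(w_atTop hC ξ hξ).eventually_gt_atTop 0,
    (logw_atTop hC ξ hξ).eventually_gt_atTop 0] with h hw hlw
  field_simp
  ring

/-- `log v / w → 0` -/
theorem logv_w (hC : 0 < C) (ξ : ℝ) (hξ : 0 < ξ) :
    Tendsto (fun h => Real.log (vs C ξ h) / ws C ξ h) atTop (𝓝 0) := by
  have h1 : Tendsto (fun h => Real.log (vs C ξ h) / Real.log (ws C ξ h) *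
      (Real.log (ws C ξ h) / ws C ξ h)) atTop (𝓝 (1 * 0)) :=
    (logv hC ξ hξ).mul (d10_logx.comp (w_atTop hC ξ hξ))
  rw [show (1 : ℝ) * 0 = 0 by ring] at h1
  refine h1.congr' ?_
  filter_upwards [(w_atTop hC ξ hξ).eventually_gt_atTop 0,
    (logw_atTop hC ξ hξ).eventually_gt_atTop 0] with h hw hlw
  field_simp

theorem zz_pos (h : ℕ) (hl : 0 < ll C h) : (0 : ℝ) < (zz C h : ℝ) := by
  rcases Nat.eq_zero_or_pos (zz C h) with h0 | h0
  · exfalso
    unfold ll at hl
    rw [h0] at hl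
    simp at hl
  · exact_mod_cast h0

theorem zz_pow (h : ℕ) (hl : 0 < ll C h) (x : ℝ) (hx : 0 < x) :
    (zz C h : ℝ) ^ (Real.log x / ll C h) = x := by
  rw [Real.rpow_def_of_pos (zz_pos h hl)]
  have : Real.log (zz C h : ℝ) = ll C h := rfl
  rw [this, mul_div_cancel₀ _ hl.ne', Real.exp_log hx]

theorem zz3 (hC : 0 < C) : ∀ᶠ h : ℕ in atTop, 3 ≤ zz C h := by
  filter_upwards [(ll_atTop hC).eventually_ge_atTop 2] with h hl
  have hp := zz_pos h (by linarith)
  have h1 : (3 : ℝ) ≤ zz C h := by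
    have h2 : Real.log 3 ≤ Real.log (zz C h) := by
      have h3 : Real.log 3 ≤ 2 := by
        have := Real.log_le_sub_one_of_pos (show (0 : ℝ) < 3 by norm_num)
        linarith
      exact h3.trans hl
    exact (Real.log_le_log_iff (by norm_num) hp).1 h2
  exact_mod_cast h1

/-- the exponent of the loss -/
theorem eta (hC : 0 < C) (ε ξ ξ₂ : ℝ) (hξ : 0 < ξ) (hε : ξ₂ < ε) : ∀ᶠ h : ℕ in atTop,
    Real.log 8 + Real.log (ll C h + 1) + (1 + ξ₂) * (us C h * Real.log (vs C ξ h)) ≤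
      (1 + ε) / C * Real.log h := by
  have h1 : Tendsto (fun x : ℝ => Real.log (x + 1) / x) atTop (𝓝 0) := by
    have h2 : Tendsto (fun x : ℝ => Real.log (x + 1) / (x + 1) * (1 + 1 / x)) atTop
        (𝓝 (0 * (1 + 0))) :=
      (d10_logx.comp (tendsto_atTop_add_const_right _ 1 tendsto_id)).mul
        ((tendsto_const_nhds.div_atTop tendsto_id).const_add 1)
    rw [zero_mul] at h2
    refine h2.congr' ?_
    filter_upwards [eventually_gt_atTop 0] with x hx
    have : x + 1 ≠ 0 := by positivity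
    field_simp
  have h3 : Tendsto (fun h : ℕ => Real.log 8 / Real.log (h : ℝ) + Real.log (ll C h + 1) / ll C h *
      (ll C h / Real.log (Real.log (h : ℝ)) * (Real.log (Real.log (h : ℝ)) / Real.log (h : ℝ))) +
      (1 + ξ₂) * (Real.log (vs C ξ h) / ll C h)) atTop
      (𝓝 (0 + 0 * (C * 0) + (1 + ξ₂) * (1 / C))) :=
    ((tendsto_const_nhds.div_atTop d10_L).add ((h1.comp (ll_atTop hC)).mul
      ((F1 hC).mul (d10_logx.comp d10_L)))).add ((beta hC ξ hξ).const_mul _)
  have hlt : 0 + 0 * (C * 0) + (1 + ξ₂) * (1 / C) < (1 + ε) / C := by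
    rw [mul_one_div, mul_zero, mul_zero, zero_add, zero_add]
    gcongr
  filter_upwards [h3.eventually_lt_const hlt, d10_L.eventually_gt_atTop 0,
    d10_LL.eventually_gt_atTop 0, (ll_atTop hC).eventually_gt_atTop 0]
    with h h4 hL hLL hl
  have h5 := mul_le_mul_of_nonneg_right h4.le hL.le
  refine le_trans (le_of_eq ?_) h5
  unfold us
  field_simp

end Pool.Agent.LibH
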