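import Pool.Agent.LibG2.Core

/-!
The matrix of windows `(t q + m, t q + m + h]`: weighted count of primes from above.
-/

namespace Pool.Agent.LibH

open Filter Topology MeasureTheory
open Pool.Agent.LibMaier Pool.Agent.LibG2
open scoped ArithmeticFunction.vonMangoldt

lemma pw_le {q t m h : ℕ} (hq : 1 ≤ q) (ht : 1 ≤ t) :
    pw (t * q + m) h ≤ ∑ a ∈ RQs q m h, (if (t * q + a).Prime then 1 else 0) := by
  classical
  rw [← Finset.card_filter]
  unfold pw
  apply Finset.card_le_card_of_injOn (fun p => p - t * q)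
  · intro p hp
    simp only [Finset.coe_filter, Set.mem_ofPred_eq, Finset.mem_Ioc] at hp
    obtain ⟨⟨h1, h2⟩, h3⟩ := hp
    simp only [Finset.coe_filter, Set.mem_ofPred_eq, RQs, Finset.mem_filter, Finset.mem_Ioc]
    have he : t * q + (p - t * q) = p := by omega
    rw [he]
    refine ⟨⟨⟨by omega, by omega⟩, ?_⟩, h3⟩
    by_contra hcop
    obtain ⟨r, hr, hr1, hr2⟩ := Nat.Prime.not_coprime_iff_dvd.1 hcop
    have hrp : r ∣ p := by
      rw [← he]
      exact dvd_add (hr2.mul_left t) hr1
    have hrp' : r = p := (Nat.prime_dvd_prime_iff_eq hr h3).1 hrp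
    rw [hrp'] at hr1
    have : p ≤ p - t * q := Nat.le_of_dvd (by omega) hr1
    have : 0 < t * q := Nat.mul_pos ht hq
    omega
  · intro p hp p' hp' h
    simp only [Finset.coe_filter, Set.mem_ofPred_eq, Finset.mem_Ioc] at hp hp'
    simp only at h
    omega

/-- **Weighted count of the primes in the matrix, from above.** -/
theorem matrix_le {q k1 k2 m h : ℕ} (hq : 1 ≤ q) (hk1 : 1 ≤ k1) {x V y M : ℝ} (hxV : V < x)
    (hy0 : 0 ≤ y) (hNy : ((m + h : ℕ) : ℝ) ≤ y) (hyk : y ≤ k1) (hV0 : 0 ≤ V)
    (hrow1 : x - V ≤ Real.log (k1 * q)) (hrow2 : Real.log (k2 * q) ≤ x + V)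
    (hM : ∀ a : ZMod q, IsUnit a → ∑' n : ℕ, (if (n : ZMod q) = a then wn x n else 0) ≤ M) :
    ∑ k ∈ Finset.Ico k1 k2, Wt q x k * (pw (k * q + m) h : ℝ) ≤
      Real.exp (((1 + y) * (V + 1) + y) / k1) * (q / (x - V)) * ((RQs q m h).card * M) := by
  classical
  have hq' : (1 : ℝ) ≤ q := by exact_mod_cast hq
  have hk1' : (1 : ℝ) ≤ k1 := by exact_mod_cast hk1
  have hxV0 : 0 < x - V := by linarith
  set E : ℝ := Real.exp (((1 + y) * (V + 1) + y) / k1) with hE
  have hE0 : 0 < E := Real.exp_pos _
  have hentry : ∀ k ∈ Finset.Ico k1 k2, ∀ a ∈ RQs q m h,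
      Wt q x k * (if (k * q + a).Prime then 1 else 0) ≤
        E * (q / (x - V)) * wn x (k * q + a) := by
    intro k hk a ha
    rw [Finset.mem_Ico] at hk
    rw [RQs, Finset.mem_filter, Finset.mem_Ioc] at ha
    have hkR : (k1 : ℝ) ≤ k := by exact_mod_cast hk.1
    have hk2R : ((k + 1 : ℕ) : ℝ) ≤ k2 := by exact_mod_cast hk.2
    have hkpos : (0 : ℝ) < k := by linarith
    have hnn : 0 ≤ E * (q / (x - V)) * wn x (k * q + a) := by
      have := wn_nonneg x (k * q + a)
      positivity
    split_ifs with hp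
    · rw [mul_one]
      have hay : (a : ℝ) ≤ y := le_trans (by exact_mod_cast ha.1.2) hNy
      have h1 : x - V ≤ Real.log (k * q) := hrow1.trans (Real.log_le_log (by positivity) (by
        gcongr))
      have h2 : Real.log ((k + 1 : ℕ) * q) ≤ x + V := le_trans (Real.log_le_log (by positivity)
        (by gcongr)) hrow2
      have h3 := Wt_le (q := q) (k := k) hq (by omega) (x := x) (V := V) hay (hyk.trans hkR) h1 h2
      refine h3.trans ?_
      have h4 : Real.exp (((1 + y) * (V + 1) + y) / k) ≤ E := by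
        rw [hE]
        apply Real.exp_le_exp.2
        apply div_le_div_of_nonneg_left (by positivity) (by linarith) hkR
      have hlog : x - V ≤ Λ (k * q + a) := by
        rw [ArithmeticFunction.vonMangoldt_apply_prime hp]
        refine h1.trans (Real.log_le_log (by positivity) ?_)
        push_cast
        have : (0 : ℝ) ≤ a := Nat.cast_nonneg a
        linarith
      set n := k * q + a with hn
      have hg : 0 ≤ gw (Real.log (n : ℝ) - x) / (n : ℝ) := div_nonneg (gw_nonneg _) (Nat.cast_nonneg _)
      have h5 : (gw (Real.log (n : ℝ) - x) / (n : ℝ)) ≤ wn x n / (x - V) := by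
        rw [le_div_iff₀ hxV0]
        unfold wn
        nlinarith
      calc Real.exp (((1 + y) * (V + 1) + y) / k) * (q * (gw (Real.log (n : ℝ) - x) / (n : ℝ)))
          ≤ E * (q * (wn x n / (x - V))) := by gcongr
        _ = E * (q / (x - V)) * wn x n := by ring
    · rw [mul_zero]
      exact hnn
  calc ∑ k ∈ Finset.Ico k1 k2, Wt q x k * (pw (k * q + m) h : ℝ)
      ≤ ∑ k ∈ Finset.Ico k1 k2, ∑ a ∈ RQs q m h,
          Wt q x k * (if (k * q + a).Prime then 1 else 0) := by
        apply Finset.sum_le_sum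
        intro k hk
        rw [Finset.mem_Ico] at hk
        rw [← Finset.mul_sum]
        apply mul_le_mul_of_nonneg_left _ (Wt_nonneg hq (by omega) x)
        have := pw_le (q := q) (t := k) (m := m) (h := h) hq (by omega)
        exact_mod_cast this
    _ = ∑ a ∈ RQs q m h, ∑ k ∈ Finset.Ico k1 k2,
          Wt q x k * (if (k * q + a).Prime then 1 else 0) := Finset.sum_comm
    _ ≤ ∑ a ∈ RQs q m h, ∑ k ∈ Finset.Ico k1 k2, E * (q / (x - V)) * wn x (k * q + a) :=
        Finset.sum_le_sum fun a ha => Finset.sum_le_sum fun k hk => hentry k hk a ha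
    _ = ∑ a ∈ RQs q m h, E * (q / (x - V)) * ∑ k ∈ Finset.Ico k1 k2, wn x (k * q + a) := by
        simp_rw [Finset.mul_sum]
    _ ≤ ∑ a ∈ RQs q m h, E * (q / (x - V)) * M := by
        apply Finset.sum_le_sum
        intro a ha
        rw [RQs, Finset.mem_filter, Finset.mem_Ioc] at ha
        apply mul_le_mul_of_nonneg_left _ (by positivity)
        have hunit : IsUnit (a : ZMod q) := (ZMod.isUnit_iff_coprime a q).2 ha.2
        refine le_trans ?_ (hM (a : ZMod q) hunit)
        have hs : Summable fun n : ℕ => (if (n : ZMod q) = (a : ZMod q) then wn x n else 0) := by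
          apply Summable.of_nonneg_of_le _ _ (summable_wn x)
          · intro n
            split_ifs
            · exact wn_nonneg x n
            · exact le_rfl
          · intro n
            split_ifs
            · exact le_rfl
            · exact wn_nonneg x n
        have hinj : Set.InjOn (fun k : ℕ => k * q + a) (Finset.Ico k1 k2 : Finset ℕ) := by
          intro k _ k' _ h
          simp only [add_left_inj] at h
          exact Nat.eq_of_mul_eq_mul_right hq h
        have h6 := hs.sum_le_tsum ((Finset.Ico k1 k2).image (fun k : ℕ => k * q + a)) (by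
          intro n _
          split_ifs
          · exact wn_nonneg x n
          · exact le_rfl)
        rw [Finset.sum_image hinj] at h6
        refine le_trans (le_of_eq ?_) h6
        apply Finset.sum_congr rfl
        intro k _
        rw [if_pos]
        push_cast
        simp
    _ = E * (q / (x - V)) * ((RQs q m h).card * M) := by
        rw [Finset.sum_const, nsmul_eq_mul]
        ring

/-! ### frequencies -/

/-- high side -/
lemma freq_high {s : Finset ℕ} {w f : ℕ → ℝ} {A B H : ℝ} (hw : ∀ i ∈ s, 0 ≤ w i)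
    (hW : ∑ i ∈ s, w i ≤ 1) (hB : 0 ≤ B) (hfH : ∀ i ∈ s, f i ≤ H) (hH : 0 ≤ H)
    (hA : A ≤ ∑ i ∈ s, w i * f i) :
    A - B ≤ H * ∑ i ∈ s.filter (fun i => B ≤ f i), w i := by
  classical
  have h1 : ∑ i ∈ s, w i * f i ≤ B + H * ∑ i ∈ s.filter (fun i => B ≤ f i), w i := by
    rw [← Finset.sum_filter_add_sum_filter_not s (fun i => B ≤ f i), add_comm]
    apply add_le_add
    · calc ∑ i ∈ s.filter (fun i => ¬ B ≤ f i), w i * f i
          ≤ ∑ i ∈ s.filter (fun i => ¬ B ≤ f i), w i * B := by
            apply Finset.sum_le_sum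
            intro i hi
            rw [Finset.mem_filter, not_le] at hi
            exact mul_le_mul_of_nonneg_left hi.2.le (hw i hi.1)
        _ ≤ ∑ i ∈ s, w i * B := by
            apply Finset.sum_le_sum_of_subset_of_nonneg (Finset.filter_subset _ _)
            intro i hi _
            exact mul_nonneg (hw i hi) hB
        _ = (∑ i ∈ s, w i) * B := by rw [Finset.sum_mul]
        _ ≤ 1 * B := mul_le_mul_of_nonneg_right hW hB
        _ = B := one_mul B
    · rw [Finset.mul_sum]
      apply Finset.sum_le_sum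
      intro i hi
      rw [Finset.mem_filter] at hi
      rw [mul_comm]
      exact mul_le_mul_of_nonneg_right (hfH i hi.1) (hw i hi.1)
  linarith

/-- low side -/
lemma freq_low {s : Finset ℕ} {w f : ℕ → ℝ} {A B : ℝ} (hw : ∀ i ∈ s, 0 ≤ w i)
    (hB : 0 < B) (hf : ∀ i ∈ s, 0 ≤ f i) (hA : ∑ i ∈ s, w i * f i ≤ A) :
    ∑ i ∈ s, w i - A / B ≤ ∑ i ∈ s.filter (fun i => f i ≤ B), w i := by
  classical
  have h1 : B * ∑ i ∈ s.filter (fun i => ¬ f i ≤ B), w i ≤ A := by
    refine le_trans ?_ hA
    rw [Finset.mul_sum]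
    calc ∑ i ∈ s.filter (fun i => ¬ f i ≤ B), B * w i
        ≤ ∑ i ∈ s.filter (fun i => ¬ f i ≤ B), w i * f i := by
          apply Finset.sum_le_sum
          intro i hi
          rw [Finset.mem_filter, not_le] at hi
          rw [mul_comm]
          exact mul_le_mul_of_nonneg_left hi.2.le (hw i hi.1)
      _ ≤ ∑ i ∈ s, w i * f i := by
          apply Finset.sum_le_sum_of_subset_of_nonneg (Finset.filter_subset _ _)
          intro i hi _
          exact mul_nonneg (hw i hi) (hf i hi)
  have h2 := Finset.sum_filter_add_sum_filter_not s (fun i => f i ≤ B) w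
  have h3 : ∑ i ∈ s.filter (fun i => ¬ f i ≤ B), w i ≤ A / B := by
    rw [le_div_iff₀ hB]
    linarith
  linarith

end Pool.Agent.LibH
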