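import Pool.Agent.LibH.Win

/-!
The sieve by the primes `≤ z` except one in short windows: bound for the error.
-/

namespace Pool.Agent.LibH

open Filter Topology MeasureTheory
open Pool.Gal99 (pr zs sieve_dev d10_L d10_LL d10_logx d10_floor)
open Pool.Agent.LibG2.PS (erz GG EE R er V mellin_EE Pz V_pos V_le_one R_rec V_erz prime_of_mem
  measurable_EE Pz_erz not_dvd_erz)

variable {z p : ℕ}

/-- the recursion for windows `(m, m + r]` -/
lemma R_rec' (hp : p ∈ pr z) (m r : ℕ) :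
    R (erz z p) m r = Pool.Gal99.R z m r + R (erz z p) (m / p) ((m + r) / p - m / p) := by
  classical
  have hpp := prime_of_mem hp
  have hcop : p.Coprime (Pz (erz z p)) := (Nat.Prime.coprime_iff_not_dvd hpp).2 (not_dvd_erz hp)
  unfold R Pool.Gal99.R
  rw [← Finset.card_filter_add_card_filter_not (s := (Finset.Ioc m (m + r)).filter
    (fun n => n.Coprime (Pz (erz z p)))) (fun n => ¬ p ∣ n)]
  congr 1
  · congr 1
    ext n
    simp only [Finset.mem_filter, Finset.mem_Ioc]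
    rw [Pz_erz hp]
    constructor
    · rintro ⟨⟨h1, h2⟩, h3⟩
      refine ⟨h1, ?_⟩
      exact Nat.Coprime.mul_right (Nat.coprime_comm.1 ((Nat.Prime.coprime_iff_not_dvd hpp).2 h3)) h2
    · rintro ⟨h1, h2⟩
      refine ⟨⟨h1, Nat.Coprime.coprime_mul_left_right h2⟩, ?_⟩
      exact (Nat.Prime.coprime_iff_not_dvd hpp).1
        (Nat.coprime_comm.1 (Nat.Coprime.coprime_mul_right_right h2))
  · symm
    have hle : m / p ≤ (m + r) / p := Nat.div_le_div_right (by omega)
    have hadd : m / p + ((m + r) / p - m / p) = (m + r) / p := by omega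
    rw [hadd]
    apply Finset.card_bij (fun j _ => p * j)
    · intro j hj
      simp only [Finset.mem_filter, Finset.mem_Ioc] at hj ⊢
      obtain ⟨⟨h1, h2⟩, h3⟩ := hj
      refine ⟨⟨⟨?_, ?_⟩, Nat.Coprime.mul_left hcop h3⟩, ?_⟩
      · rw [mul_comm]
        exact (Nat.div_lt_iff_lt_mul hpp.pos).1 h1
      · rw [mul_comm]
        exact (Nat.le_div_iff_mul_le hpp.pos).1 h2
      · rw [not_not]
        exact dvd_mul_right p j
    · intro a _ b _ h
      exact Nat.eq_of_mul_eq_mul_left hpp.pos h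
    · intro n hn
      simp only [Finset.mem_filter, Finset.mem_Ioc, not_not] at hn
      obtain ⟨⟨⟨h1, h2⟩, h3⟩, j, rfl⟩ := hn
      refine ⟨j, ?_, rfl⟩
      simp only [Finset.mem_filter, Finset.mem_Ioc]
      refine ⟨⟨?_, ?_⟩, Nat.Coprime.coprime_mul_left h3⟩
      · rw [Nat.div_lt_iff_lt_mul hpp.pos, mul_comm]
        exact h1
      · rw [Nat.le_div_iff_mul_le hpp.pos, mul_comm]
        exact h2

lemma count_le {m r p : ℕ} (hp : 2 ≤ p) : 2 * ((m + r) / p - m / p) ≤ r + 1 := by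
  have hp0 : 0 < p := by omega
  by_contra hcon
  push Not at hcon
  set a := m / p with ha
  set b := (m + r) / p with hb
  have h1 : b * p ≤ m + r := Nat.div_mul_le_self _ _
  have h2 : m < (a + 1) * p := by
    have := Nat.lt_div_mul_add (a := m) hp0
    rw [← ha] at this
    linarith
  have h3 : a + 1 ≤ b := by omega
  obtain ⟨c, hc⟩ := Nat.exists_eq_add_of_le h3
  have h4 : c * p < r := by
    rw [hc] at h1
    nlinarith
  have h5 : 2 * c ≤ c * p := by
    rw [mul_comm]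
    exact Nat.mul_le_mul_left c hp
  omega

lemma count_near {m r p : ℕ} (hp : 0 < p) :
    |(((m + r) / p - m / p : ℕ) : ℝ) - (r : ℝ) / p| ≤ 1 := by
  have hle : m / p ≤ (m + r) / p := Nat.div_le_div_right (by omega)
  rw [Nat.cast_sub hle]
  have hp' : (0 : ℝ) < p := by exact_mod_cast hp
  have h1 : (((m + r) / p : ℕ) : ℝ) ≤ ((m : ℝ) + r) / p := by
    have := Nat.cast_div_le (α := ℝ) (m := m + r) (n := p)
    push_cast at this
    exact this
  have h2 : ((m / p : ℕ) : ℝ) ≤ (m : ℝ) / p := Nat.cast_div_le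
  have h3 : ((m : ℝ) + r) / p < (((m + r) / p : ℕ) : ℝ) + 1 := by
    rw [div_lt_iff₀ hp']
    have := Nat.lt_div_mul_add (a := m + r) hp
    have h : ((m + r : ℕ) : ℝ) < (((m + r) / p * p + p : ℕ) : ℝ) := by exact_mod_cast this
    push_cast at h
    linarith
  have h4 : (m : ℝ) / p < ((m / p : ℕ) : ℝ) + 1 := by
    rw [div_lt_iff₀ hp']
    have := Nat.lt_div_mul_add (a := m) hp
    have h : ((m : ℕ) : ℝ) < ((m / p * p + p : ℕ) : ℝ) := by exact_mod_cast this
    push_cast at h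
    linarith
  rw [add_div] at h1 h3
  rw [abs_le]
  constructor <;> linarith

lemma abs_R_sub_le (s : Pool.Agent.LibG2.PS.PSet) (m r : ℕ) : |(R s m r : ℝ) - r * V s| ≤ r := by
  have h1 := R_le s m r
  have h2 : (0 : ℝ) ≤ R s m r := Nat.cast_nonneg _
  have h3 := V_pos s
  have h4 := V_le_one s
  have h5 : (0 : ℝ) ≤ r := Nat.cast_nonneg _
  have h6 : (r : ℝ) * V s ≤ r := mul_le_of_le_one_right h5 h4
  have h7 : 0 ≤ (r : ℝ) * V s := by positivity
  rw [abs_le]
  constructor <;> linarith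

lemma gal_abs_R_sub_le (z m r : ℕ) :
    |(Pool.Gal99.R z m r : ℝ) - r * Pool.Gal99.V z| ≤ r := by
  have h1 : Pool.Gal99.R z m r ≤ r := by
    unfold Pool.Gal99.R
    refine (Finset.card_filter_le _ _).trans ?_
    rw [Nat.card_Ioc]
    omega
  have h1' : (Pool.Gal99.R z m r : ℝ) ≤ r := by exact_mod_cast h1
  have h2 : (0 : ℝ) ≤ Pool.Gal99.R z m r := Nat.cast_nonneg _
  have h3 := Pool.Gal99.V_pos z
  have h4 := Pool.Gal99.V_le_one z
  have h5 : (0 : ℝ) ≤ r := Nat.cast_nonneg _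
  have h6 : (r : ℝ) * Pool.Gal99.V z ≤ r := mul_le_of_le_one_right h5 h4
  have h7 : 0 ≤ (r : ℝ) * Pool.Gal99.V z := by positivity
  rw [abs_le]
  constructor <;> linarith

/-- short windows, the full sieve -/
lemma short_full {h : ℕ} (hz : 1 ≤ z) (hzh : z ≤ h) (b : ℝ) (hb0 : 0 ≤ b) (hb1 : b ≤ 1)
    (m r : ℕ) (hr : r ≤ h) :
    |(Pool.Gal99.R z m r : ℝ) - r * Pool.Gal99.V z| ≤
      z + 4 * (z : ℝ) ^ b * (h : ℝ) ^ (1 - b) * ∏ q ∈ pr z, (1 + (q : ℝ) ^ (b - 1)) := by
  have hP : 0 ≤ ∏ q ∈ pr z, (1 + (q : ℝ) ^ (b - 1)) :=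
    Finset.prod_nonneg (fun p _ => by positivity)
  have hz0 : (0 : ℝ) < z := by exact_mod_cast hz
  rcases lt_or_ge r z with h1 | h1
  · have h2 := gal_abs_R_sub_le z m r
    have h3 : (r : ℝ) ≤ z := by exact_mod_cast h1.le
    have h4 : 0 ≤ 4 * (z : ℝ) ^ b * (h : ℝ) ^ (1 - b) * ∏ q ∈ pr z, (1 + (q : ℝ) ^ (b - 1)) := by
      positivity
    linarith
  · have h2 := sieve_dev z m r b hb0 hb1 hz h1
    have hr0 : (0 : ℝ) < r := by
      have : 0 < r := by omega
      exact_mod_cast this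
    have h3 : (r : ℝ) * ((r : ℝ) / z) ^ (-b) ≤ (z : ℝ) ^ b * (h : ℝ) ^ (1 - b) := by
      have e1 : (r : ℝ) * ((r : ℝ) / z) ^ (-b) = (z : ℝ) ^ b * (r : ℝ) ^ (1 - b) := by
        rw [Real.div_rpow hr0.le hz0.le, Real.rpow_neg hz0.le, div_inv_eq_mul,
          Real.rpow_sub hr0, Real.rpow_one, Real.rpow_neg hr0.le]
        ring
      rw [e1]
      apply mul_le_mul_of_nonneg_left _ (by positivity)
      apply Real.rpow_le_rpow hr0.le (by exact_mod_cast hr) (by linarith)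
    calc |(Pool.Gal99.R z m r : ℝ) - r * Pool.Gal99.V z|
        ≤ 4 * r * ((r : ℝ) / z) ^ (-b) * ∏ q ∈ pr z, (1 + (q : ℝ) ^ (b - 1)) := h2
      _ = 4 * ((r : ℝ) * ((r : ℝ) / z) ^ (-b)) * ∏ q ∈ pr z, (1 + (q : ℝ) ^ (b - 1)) := by ring
      _ ≤ 4 * ((z : ℝ) ^ b * (h : ℝ) ^ (1 - b)) * ∏ q ∈ pr z, (1 + (q : ℝ) ^ (b - 1)) := by
          gcongr
      _ ≤ _ := by linarith

/-- short windows, one prime erased -/
lemma short_erz (hp : p ∈ pr z) {h : ℕ} {D : ℝ}
    (hD : ∀ m r : ℕ, r ≤ h → |(Pool.Gal99.R z m r : ℝ) - r * Pool.Gal99.V z| ≤ D) (n : ℕ) :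
    ∀ m r : ℕ, r ≤ h → r ≤ 2 ^ n → |(R (erz z p) m r : ℝ) - r * V (erz z p)| ≤
      1 + n * (D + 1) := by
  have hpp := prime_of_mem hp
  have hp0 : (p : ℝ) ≠ 0 := by exact_mod_cast hpp.ne_zero
  induction n with
  | zero =>
    intro m r _ hr
    have h1 := abs_R_sub_le (erz z p) m r
    have h2 : (r : ℝ) ≤ 1 := by exact_mod_cast hr
    simp only [Nat.cast_zero, zero_mul, add_zero]
    linarith
  | succ n ih =>
    intro m r hrh hr
    set r' := (m + r) / p - m / p with hr'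
    have h1 := count_le (m := m) (r := r) hpp.two_le
    rw [← hr'] at h1
    rw [pow_succ] at hr
    have h2 : r' ≤ 2 ^ n := by omega
    have h3 : r' ≤ h := by
      rcases Nat.eq_zero_or_pos r with h0 | h0
      · have : r' = 0 := by omega
        omega
      · omega
    have h4 := ih (m / p) r' h3 h2
    have h5 := hD m r hrh
    have h6 := count_near (m := m) (r := r) hpp.pos
    rw [← hr'] at h6
    have h7 : ((R (erz z p) m r : ℕ) : ℝ) - r * V (erz z p) =
        ((Pool.Gal99.R z m r : ℝ) - r * Pool.Gal99.V z) +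
        ((R (erz z p) (m / p) r' : ℝ) - r' * V (erz z p)) +
        ((r' : ℝ) - (r : ℝ) / p) * V (erz z p) := by
      rw [R_rec' hp, ← hr', V_erz hp]
      push_cast
      field_simp
      ring
    have hV := V_pos (erz z p)
    have hV1 := V_le_one (erz z p)
    have h8 : |((r' : ℝ) - (r : ℝ) / p) * V (erz z p)| ≤ 1 := by
      rw [abs_mul, abs_of_pos hV]
      calc |(r' : ℝ) - (r : ℝ) / p| * V (erz z p) ≤ 1 * 1 :=
            mul_le_mul h6 hV1 hV.le zero_le_one
        _ = 1 := one_mul 1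
    rw [h7]
    calc _ ≤ |((Pool.Gal99.R z m r : ℝ) - r * Pool.Gal99.V z) +
        ((R (erz z p) (m / p) r' : ℝ) - r' * V (erz z p))| +
        |((r' : ℝ) - (r : ℝ) / p) * V (erz z p)| := abs_add_le _ _
      _ ≤ (|(Pool.Gal99.R z m r : ℝ) - r * Pool.Gal99.V z| +
        |(R (erz z p) (m / p) r' : ℝ) - r' * V (erz z p)|) +
        |((r' : ℝ) - (r : ℝ) / p) * V (erz z p)| := by
          gcongr
          exact abs_add_le _ _
      _ ≤ D + (1 + n * (D + 1)) + 1 := by linarith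
      _ = 1 + ((n + 1 : ℕ) : ℝ) * (D + 1) := by
          push_cast
          ring

end Pool.Agent.LibH
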