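import Pool.Agent.LibH.Level

/-!
Landau's trick with both signs; windows.
-/

namespace Pool.Agent.LibH

open Filter Topology MeasureTheory
open Pool.Gal99 (pr zs sieve_dev)
open Pool.Agent.LibG2.PS (erz GG EE R er V mellin_EE Pz V_pos V_le_one R_rec V_erz prime_of_mem
  measurable_EE)

/-- Landau's trick (adapted from helper74's D8 in `LibGal99`) -/
theorem landau (F : ℝ → ℝ) (β y₁ y₂ I₁ I₂ X A B : ℝ) (hβ : 0 < β)
    (hint : IntegrableOn (fun y => |F y| * y ^ (β - 2)) (Set.Ioi 0))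
    (hmeas : AEStronglyMeasurable (fun y => F y * y ^ (β - 2)) (volume.restrict (Set.Ioi (0 : ℝ))))
    (hy1 : 0 < y₁) (hy2 : y₁ < y₂)
    (h1 : ∫ y in Set.Ioc 0 y₁, |F y| * y ^ (β - 2) ≤ I₁)
    (h2 : ∫ y in Set.Ioi y₂, |F y| * y ^ (β - 2) ≤ I₂) (hX : 0 < X)
    (ha : A ≤ ∫ y in Set.Ioi (0 : ℝ), |F y| * y ^ (β - 2))
    (hb : |∫ y in Set.Ioi (0 : ℝ), F y * y ^ (β - 2)| ≤ B)
    (hXle : X + 2 * (I₁ + I₂) + B ≤ A) :
    ∃ y : ℝ, y₁ < y ∧ y ≤ y₂ ∧ y * (X * β / (4 * y₂ ^ β)) ≤ F y := by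
  by_contra hcon
  push Not at hcon
  have hy2' : 0 < y₂ := hy1.trans hy2
  set c : ℝ := X * β / (4 * y₂ ^ β) with hc
  have hcpos : 0 < c := by positivity
  set J : ℝ := ∫ y in Set.Ioi (0 : ℝ), |F y| * y ^ (β - 2) with hJ
  have hint' : IntegrableOn (fun y => F y * y ^ (β - 2)) (Set.Ioi 0) := by
    refine Integrable.mono' hint hmeas ?_
    filter_upwards [ae_restrict_mem measurableSet_Ioi] with y hy
    have hy0 : 0 < y := hy
    rw [Real.norm_eq_abs, abs_mul, abs_of_nonneg (Real.rpow_nonneg hy0.le _)]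
  -- (c) the sum |E| + E
  have hsum : J + ∫ y in Set.Ioi (0 : ℝ), F y * y ^ (β - 2) =
      ∫ y in Set.Ioi (0 : ℝ), (|F y| + F y) * y ^ (β - 2) := by
    rw [hJ, ← integral_add hint hint']
    apply setIntegral_congr_fun measurableSet_Ioi
    intro y _
    simp only
    ring
  have hints : IntegrableOn (fun y => (|F y| + F y) * y ^ (β - 2)) (Set.Ioi 0) := by
    refine (hint.add hint').congr (ae_of_all _ fun y => ?_)
    simp only [Pi.add_apply]
    ring
  have hle2 : ∀ y : ℝ, 0 < y → (|F y| + F y) * y ^ (β - 2) ≤ 2 * (|F y| * y ^ (β - 2)) := by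
    intro y hy
    have := le_abs_self (F y)
    have h3 := Real.rpow_nonneg hy.le (β - 2)
    nlinarith
  -- splitting
  have hsplit : ∫ y in Set.Ioi (0 : ℝ), (|F y| + F y) * y ^ (β - 2) =
      (∫ y in Set.Ioc 0 y₁, (|F y| + F y) * y ^ (β - 2)) +
      ((∫ y in Set.Ioc y₁ y₂, (|F y| + F y) * y ^ (β - 2)) +
       ∫ y in Set.Ioi y₂, (|F y| + F y) * y ^ (β - 2)) := by
    rw [← Set.Ioc_union_Ioi_eq_Ioi hy1.le, setIntegral_union (Set.Ioc_disjoint_Ioi le_rfl)
      measurableSet_Ioi (hints.mono_set Set.Ioc_subset_Ioi_self)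
      (hints.mono_set (Set.Ioi_subset_Ioi hy1.le))]
    congr 1
    rw [← Set.Ioc_union_Ioi_eq_Ioi hy2.le, setIntegral_union (Set.Ioc_disjoint_Ioi le_rfl)
      measurableSet_Ioi (hints.mono_set (Set.Ioc_subset_Ioi_self.trans (Set.Ioi_subset_Ioi hy1.le)))
      (hints.mono_set (Set.Ioi_subset_Ioi hy2'.le))]
  have hp1 : ∫ y in Set.Ioc 0 y₁, (|F y| + F y) * y ^ (β - 2) ≤ 2 * I₁ := by
    calc ∫ y in Set.Ioc 0 y₁, (|F y| + F y) * y ^ (β - 2)
        ≤ ∫ y in Set.Ioc 0 y₁, 2 * (|F y| * y ^ (β - 2)) := by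
          apply setIntegral_mono_on (hints.mono_set Set.Ioc_subset_Ioi_self)
            ((hint.mono_set Set.Ioc_subset_Ioi_self).const_mul 2) measurableSet_Ioc
          intro y hy
          exact hle2 y hy.1
      _ = 2 * ∫ y in Set.Ioc 0 y₁, |F y| * y ^ (β - 2) := integral_const_mul _ _
      _ ≤ 2 * I₁ := by linarith
  have hp3 : ∫ y in Set.Ioi y₂, (|F y| + F y) * y ^ (β - 2) ≤ 2 * I₂ := by
    calc ∫ y in Set.Ioi y₂, (|F y| + F y) * y ^ (β - 2)
        ≤ ∫ y in Set.Ioi y₂, 2 * (|F y| * y ^ (β - 2)) := by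
          apply setIntegral_mono_on (hints.mono_set (Set.Ioi_subset_Ioi hy2'.le))
            ((hint.mono_set (Set.Ioi_subset_Ioi hy2'.le)).const_mul 2) measurableSet_Ioi
          intro y hy
          exact hle2 y (hy2'.trans hy)
      _ = 2 * ∫ y in Set.Ioi y₂, |F y| * y ^ (β - 2) := integral_const_mul _ _
      _ ≤ 2 * I₂ := by linarith
  have hp2 : ∫ y in Set.Ioc y₁ y₂, (|F y| + F y) * y ^ (β - 2) ≤ X / 2 := by
    have hintp : IntegrableOn (fun y : ℝ => 2 * c * y ^ (β - 1)) (Set.Ioc y₁ y₂) := by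
      have h3 : IntervalIntegrable (fun y : ℝ => y ^ (β - 1)) volume y₁ y₂ :=
        intervalIntegral.intervalIntegrable_rpow' (by linarith)
      exact ((intervalIntegrable_iff_integrableOn_Ioc_of_le hy2.le).1 h3).const_mul (2 * c)
    calc ∫ y in Set.Ioc y₁ y₂, (|F y| + F y) * y ^ (β - 2)
        ≤ ∫ y in Set.Ioc y₁ y₂, 2 * c * y ^ (β - 1) := by
          apply setIntegral_mono_on
            (hints.mono_set (Set.Ioc_subset_Ioi_self.trans (Set.Ioi_subset_Ioi hy1.le)))
            hintp measurableSet_Ioc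
          intro y hy
          have hy0 : 0 < y := hy1.trans hy.1
          have h3 := hcon y hy.1 hy.2
          have h4 : |F y| + F y ≤ 2 * c * y := by
            rcases le_or_gt 0 (F y) with h5 | h5
            · rw [abs_of_nonneg h5]
              linarith
            · rw [abs_of_neg h5]
              have : 0 < 2 * c * y := by positivity
              linarith
          calc (|F y| + F y) * y ^ (β - 2) ≤ 2 * c * y * y ^ (β - 2) :=
                mul_le_mul_of_nonneg_right h4 (Real.rpow_nonneg hy0.le _)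
            _ = 2 * c * y ^ (β - 1) := by
                rw [mul_assoc, show (β - 1 : ℝ) = 1 + (β - 2) by ring, Real.rpow_add hy0,
                  Real.rpow_one]
      _ = 2 * c * ∫ y in Set.Ioc y₁ y₂, y ^ (β - 1) := integral_const_mul _ _
      _ = 2 * c * ((y₂ ^ β - y₁ ^ β) / β) := by
          rw [← intervalIntegral.integral_of_le hy2.le, integral_rpow (Or.inl (by linarith))]
          simp only [sub_add_cancel]
      _ ≤ 2 * c * (y₂ ^ β / β) := by
          apply mul_le_mul_of_nonneg_left _ (by positivity)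
          apply div_le_div_of_nonneg_right _ hβ.le
          have := Real.rpow_nonneg hy1.le β
          linarith
      _ = X / 2 := by
          rw [hc]
          have : y₂ ^ β ≠ 0 := (Real.rpow_pos_of_pos hy2' β).ne'
          field_simp
          ring
  have habs := abs_le.1 hb
  linarith [habs.1, habs.2, ha, hsum, hsplit, hp1, hp2, hp3, hXle]


/-- Landau's trick for the error function of the sieve, both signs -/
theorem exists_large_sgn (z : Pool.Agent.LibG2.PS.PSet) (σ : ℝ) (hσ : |σ| = 1) (β t y₁ y₂ I₁ I₂ X : ℝ) (hβ : 0 < β)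
    (hβ1 : β < 1)
    (hint : IntegrableOn (fun y => |EE z y| * y ^ (β - 2)) (Set.Ioi 0))
    (hy1 : 0 < y₁) (hy2 : y₁ < y₂)
    (h1 : ∫ y in Set.Ioc 0 y₁, |EE z y| * y ^ (β - 2) ≤ I₁)
    (h2 : ∫ y in Set.Ioi y₂, |EE z y| * y ^ (β - 2) ≤ I₂) (hX : 0 < X)
    (hXle : X + 2 * (I₁ + I₂) + ‖Pool.Gal99.zs ((1 - β : ℝ) : ℂ)‖ * ‖GG z ((1 - β : ℝ) : ℂ)‖ ≤
      ‖Pool.Gal99.zs ((1 - β : ℝ) + (t : ℝ) * Complex.I)‖ *
        ‖GG z ((1 - β : ℝ) + (t : ℝ) * Complex.I)‖) :
    ∃ y : ℝ, y₁ < y ∧ y ≤ y₂ ∧ y * (X * β / (4 * y₂ ^ β)) ≤ σ * EE z y := by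
  set s0 : ℂ := ((1 - β : ℝ) : ℂ) with hs0
  set s1 : ℂ := (1 - β : ℝ) + (t : ℝ) * Complex.I with hs1
  have hs0re : s0.re = 1 - β := by rw [hs0]; exact Complex.ofReal_re _
  have hs1re : s1.re = 1 - β := by
    rw [hs1]
    simp
  obtain ⟨hc0, hm0⟩ := mellin_EE z s0 (by rw [hs0re]; linarith) (by rw [hs0re]; linarith)
  obtain ⟨hc1, hm1⟩ := mellin_EE z s1 (by rw [hs1re]; linarith) (by rw [hs1re]; linarith)
  -- the integral `J`
  set J : ℝ := ∫ y in Set.Ioi (0 : ℝ), |EE z y| * y ^ (β - 2) with hJ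
  -- (a) lower bound of J
  have ha : ‖Pool.Gal99.zs s1‖ * ‖GG z s1‖ ≤ J := by
    rw [← norm_mul, ← norm_neg, ← hm1]
    unfold mellin
    refine (norm_integral_le_integral_norm _).trans (le_of_eq ?_)
    apply setIntegral_congr_fun measurableSet_Ioi
    intro y hy
    have hy0 : 0 < y := hy
    simp only [norm_smul, Complex.norm_real, Real.norm_eq_abs]
    rw [Complex.norm_cpow_eq_rpow_re_of_pos hy0, mul_comm]
    congr 2
    rw [Complex.sub_re, Complex.neg_re, hs1re, Complex.one_re]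
    ring
  -- (b) the real integral
  have hb : |∫ y in Set.Ioi (0 : ℝ), EE z y * y ^ (β - 2)| ≤ ‖Pool.Gal99.zs s0‖ * ‖GG z s0‖ := by
    rw [← norm_mul, ← norm_neg (Pool.Gal99.zs s0 * GG z s0), ← hm0]
    unfold mellin
    rw [← Real.norm_eq_abs, ← Complex.norm_real, ← integral_complex_ofReal]
    apply le_of_eq
    congr 1
    apply setIntegral_congr_fun measurableSet_Ioi
    intro y hy
    have hy0 : 0 < y := hy
    simp only [smul_eq_mul]
    rw [mul_comm, Complex.ofReal_mul, Complex.ofReal_cpow hy0.le]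
    congr 2
    rw [hs0]
    push_cast
    ring
  have hmeas : AEStronglyMeasurable (fun y => EE z y * y ^ (β - 2))
      (volume.restrict (Set.Ioi (0 : ℝ))) := by
    have h3 : IntegrableOn (fun y : ℝ => ((y : ℂ) ^ (-s0 - 1)) • ((EE z y : ℝ) : ℂ)) (Set.Ioi 0) :=
      hc0
    have h4 := h3.re.aestronglyMeasurable
    refine h4.congr ?_
    filter_upwards [ae_restrict_mem measurableSet_Ioi] with y hy
    have hy0 : 0 < y := hy
    have h5 : (-s0 - 1 : ℂ) = ((β - 2 : ℝ) : ℂ) := by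
      rw [hs0]
      push_cast
      ring
    simp only [smul_eq_mul, h5]
    rw [← Complex.ofReal_cpow hy0.le, ← Complex.ofReal_mul]
    show RCLike.re (((y ^ (β - 2) * EE z y : ℝ)) : ℂ) = _
    rw [mul_comm]
    exact Complex.ofReal_re _

  have habs : ∀ y : ℝ, |σ * EE z y| = |EE z y| := fun y => by rw [abs_mul, hσ, one_mul]
  refine landau (fun y => σ * EE z y) β y₁ y₂ I₁ I₂ X (‖Pool.Gal99.zs s1‖ * ‖GG z s1‖)
    (‖Pool.Gal99.zs s0‖ * ‖GG z s0‖) hβ ?_ ?_ hy1 hy2 ?_ ?_ hX ?_ ?_ hXle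
  · simpa only [habs] using hint
  · have h3 := hmeas.const_mul σ
    refine h3.congr (ae_of_all _ fun y => ?_)
    simp only
    ring
  · simpa only [habs] using h1
  · simpa only [habs] using h2
  · simpa only [habs] using ha
  · have h3 : ∫ y in Set.Ioi (0 : ℝ), σ * EE z y * y ^ (β - 2) =
        σ * ∫ y in Set.Ioi (0 : ℝ), EE z y * y ^ (β - 2) := by
      rw [← integral_const_mul]
      apply setIntegral_congr_fun measurableSet_Ioi
      intro y _
      simp only
      ring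
    rw [h3, abs_mul, hσ, one_mul]
    exact hb

lemma R_split (z : Pool.Agent.LibG2.PS.PSet) (m a b : ℕ) : (R z m (a + b) : ℝ) = R z m a + R z (m + a) b := by
  classical
  have h1 : Finset.Ioc m (m + (a + b)) = Finset.Ioc m (m + a) ∪ Finset.Ioc (m + a) (m + a + b) := by
    rw [Finset.Ioc_union_Ioc_eq_Ioc (by omega) (by omega)]
    congr 1
    ring
  have h2 : Disjoint ((Finset.Ioc m (m + a)).filter (fun n => n.Coprime (Pz z)))
      ((Finset.Ioc (m + a) (m + a + b)).filter (fun n => n.Coprime (Pz z))) := by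
    apply Finset.disjoint_filter_filter
    rw [Finset.disjoint_left]
    intro x hx hx'
    simp only [Finset.mem_Ioc] at hx hx'
    omega
  unfold R
  rw [h1, Finset.filter_union, Finset.card_union_of_disjoint h2]
  push_cast
  ring

lemma R_le (z : Pool.Agent.LibG2.PS.PSet) (a b : ℕ) : (R z a b : ℝ) ≤ b := by
  have h1 : R z a b ≤ b := by
    unfold R
    refine (Finset.card_filter_le _ _).trans ?_
    rw [Nat.card_Ioc]
    omega
  exact_mod_cast h1

/-- an excess (deficiency) in a long interval gives an excess (deficiency) in some window of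
length `h`; the rest is controlled by a bound for short windows -/
theorem window_sgn (z : Pool.Agent.LibG2.PS.PSet) (σ : ℝ) (hσ : σ = 1 ∨ σ = -1) (h : ℕ) (hh : 0 < h) (y η D : ℝ)
    (hy : 0 < y) (hη : 0 < η) (hE : η * y ≤ σ * EE z y)
    (hD : ∀ m r : ℕ, r ≤ h → |(R z m r : ℝ) - r * V z| ≤ D) (hhy : D + 1 < η * y / 2) :
    ∃ m : ℕ, η / 2 ≤ σ * er z m h := by
  by_contra hcon
  push Not at hcon
  have hV := V_pos z
  have hV1 := V_le_one z
  have hh' : (0 : ℝ) < h := by exact_mod_cast hh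
  have hR : ∀ m : ℕ, σ * ((R z m h : ℝ) - h * V z) ≤ h * V z * (η / 2) := by
    intro m
    have h1 := hcon m
    unfold er at h1
    have h2 : σ * ((R z m h : ℝ) - h * V z) = h * V z * (σ * ((R z m h : ℝ) / (h * V z) - 1)) := by
      field_simp
    rw [h2]
    exact mul_le_mul_of_nonneg_left h1.le (by positivity)
  have hK : ∀ K : ℕ, σ * ((R z 0 (K * h) : ℝ) - (K * h : ℕ) * V z) ≤ K * (h * V z * (η / 2)) := by
    intro K
    induction K with
    | zero =>
      simp [R]
    | succ K ih =>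
      rw [add_mul, one_mul, R_split, zero_add]
      push_cast at ih ⊢
      have := hR (K * h)
      nlinarith
  set N := ⌊y⌋₊ with hN
  have hNy : (N : ℝ) ≤ y := Nat.floor_le hy.le
  have hNy' : y < N + 1 := Nat.lt_floor_add_one y
  have hdiv : N / h * h + N % h = N := by
    rw [mul_comm]
    exact Nat.div_add_mod N h
  have h1 : (R z 0 N : ℝ) = R z 0 (N / h * h) + R z (N / h * h) (N % h) := by
    have := R_split z 0 (N / h * h) (N % h)
    rw [hdiv, zero_add] at this
    exact this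
  have h2 := hK (N / h)
  have h3 := hD (N / h * h) (N % h) (Nat.mod_lt N hh).le
  have h5 : ((N / h : ℕ) : ℝ) * h ≤ y := by
    have : ((N / h * h : ℕ) : ℝ) ≤ N := by exact_mod_cast Nat.div_mul_le_self N h
    push_cast at this
    linarith
  have h6 : ((N / h : ℕ) : ℝ) * (h * V z * (η / 2)) ≤ y * (η / 2) := by
    calc ((N / h : ℕ) : ℝ) * (h * V z * (η / 2)) = ((N / h : ℕ) : ℝ) * h * (V z * (η / 2)) := by ring
      _ ≤ y * (V z * (η / 2)) := mul_le_mul_of_nonneg_right h5 (by positivity)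
      _ ≤ y * (η / 2) := by
          apply mul_le_mul_of_nonneg_left _ hy.le
          have := mul_le_mul_of_nonneg_right hV1 (show 0 ≤ η / 2 by positivity)
          linarith
  have hNcast : ((N / h * h : ℕ) : ℝ) + ((N % h : ℕ) : ℝ) = N := by exact_mod_cast hdiv
  have h7 : σ * EE z y = σ * ((R z 0 (N / h * h) : ℝ) - (N / h * h : ℕ) * V z) +
      σ * ((R z (N / h * h) (N % h) : ℝ) - (N % h : ℕ) * V z) + σ * ((N - y) * V z) := by
    unfold EE
    rw [← hN, h1, ← hNcast]
    ring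
  have h8 : σ * ((R z (N / h * h) (N % h) : ℝ) - (N % h : ℕ) * V z) ≤ D := by
    rcases hσ with rfl | rfl
    · rw [one_mul]
      exact (abs_le.1 h3).2
    · linarith [(abs_le.1 h3).1]
  have h9 : σ * ((N - y) * V z) ≤ 1 := by
    have h10 : |(N - y) * V z| ≤ 1 := by
      rw [abs_mul, abs_of_pos hV]
      have : |(N : ℝ) - y| ≤ 1 := by rw [abs_le]; constructor <;> linarith
      calc |(N : ℝ) - y| * V z ≤ 1 * 1 := mul_le_mul this hV1 hV.le zero_le_one
        _ = 1 := one_mul 1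
    rcases hσ with rfl | rfl
    · rw [one_mul]
      exact (abs_le.1 h10).2
    · linarith [(abs_le.1 h10).1]
  have h10 : η * y = y * (η / 2) + η * y / 2 := by ring
  linarith

end Pool.Agent.LibH
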